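import Pool.Agent.Lib.MP_181146_gt.HA.SpecA

/-!
# Project HA: the complex of an `AX` as a `ZCx` (AXZ)
-/

set_option autoImplicit false

namespace HAx

open HEp

/-- The differential with two indices. -/
private noncomputable def AXZ_d {G : Type} [CommGroup G] (X : HPx.AX G) (i j : ℕ) :
    X.P i →ₗ[ZG G] X.P j :=
  if h : j + 1 = i then h ▸ X.d j else 0

private lemma AXZ_d_succ {G : Type} [CommGroup G] (X : HPx.AX G) (i : ℕ) :
    AXZ_d X (i + 1) i = X.d i := by
  unfold AXZ_d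
  rw [dif_pos rfl]

private lemma AXZ_shape {G : Type} [CommGroup G] (X : HPx.AX G) (i j : ℕ) (h : j + 1 ≠ i) :
    AXZ_d X i j = 0 := by
  unfold AXZ_d
  rw [dif_neg h]

private lemma AXZ_dd {G : Type} [CommGroup G] (X : HPx.AX G) (i j k : ℕ) (x : X.P i) :
    AXZ_d X j k (AXZ_d X i j x) = 0 := by
  by_cases h1 : j + 1 = i
  · by_cases h2 : k + 1 = j
    · subst h2
      subst h1
      rw [AXZ_d_succ, AXZ_d_succ]
      exact X.dd k x
    · rw [AXZ_shape X j k h2, LinearMap.zero_apply]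
  · rw [AXZ_shape X i j h1, LinearMap.zero_apply, map_zero]

theorem sAXZ (hECN : HEp.S_ECN) : S_AXZ := by
  intro G _ X K hK
  have bdd : ∀ i : ℕ, 2 * K < i → Subsingleton (X.P i) := fun i hi => hK i hi.le
  refine ⟨ofNat X.P X.fi X.pr (AXZ_d X) (AXZ_shape X) (AXZ_dd X) (2 * K) bdd,
    fun i => (LinearEquiv.refl (ZG G) (X.P i)), ?_, ?_, ?_⟩
  · intro i x
    change AXZ_d X (i + 1) i x = X.d i x
    rw [AXZ_d_succ]
  · rintro (a | a) h
    · exact absurd h (not_lt.mpr (Int.natCast_nonneg a))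
    · exact inferInstanceAs (Subsingleton PUnit)
  · intro h
    obtain ⟨a, b, ⟨e⟩⟩ := hECN (ZG G) X.P X.fi X.pr (AXZ_d X) (AXZ_shape X) (AXZ_dd X) (2 * K) bdd K hK 1
      (by rw [one_smul]; exact h)
    refine ⟨a, b, ⟨?_⟩⟩
    exact ((LinearEquiv.prodCongr (LinearEquiv.funUnique (Fin 1) (ZG G) (∀ j : Fin K, X.P (2 * j)))
      (LinearEquiv.refl (ZG G) (Fin a → ZG G))).symm.trans e).trans
        (LinearEquiv.prodCongr (LinearEquiv.funUnique (Fin 1) (ZG G) (∀ j : Fin K, X.P (2 * j + 1)))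
          (LinearEquiv.refl (ZG G) (Fin b → ZG G)))

end HAx
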