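import Pool.Agent.Lib.MP_181146_gt.HA.SpecA4

/-!
# Project HA: the action of the twisted group ring on the homology (author helper45)
-/

set_option autoImplicit false

namespace HAx

open HEp HRx HBy

private lemma AugT_add {R : Type} [CommRing R] (T : GC R) (i : ℤ) (x y : T.V) (hx : T.Bdy i x)
    (hy : T.Bdy i y) : T.Bdy i (x + y) := by
  obtain ⟨a, ha, rfl⟩ := hx
  obtain ⟨b, hb, rfl⟩ := hy
  exact ⟨a + b, (T.G _).add_mem ha hb, map_add _ _ _⟩

private lemma AugT_smul {R : Type} [CommRing R] (T : GC R) (i : ℤ) (r : R) (x : T.V)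
    (hx : T.Bdy i x) : T.Bdy i (r • x) := by
  obtain ⟨a, ha, rfl⟩ := hx
  exact ⟨r • a, (T.G _).smul_mem r ha, map_smul _ _ _⟩

private lemma AugT_cyc {R : Type} [CommRing R] (T : GC R) (i : ℤ) (r : R) (x : T.V)
    (hx : T.Cyc i x) : T.Cyc i (r • x) :=
  ⟨(T.G _).smul_mem r hx.1, by rw [map_smul, hx.2, smul_zero]⟩

theorem sAugT : S_AugT := by
  intro F G _ _ c T hs hu
  have hsg : ∀ g f, twA c (HHx.TW.sg c g f) = PowerSeries.constantCoeff f := by
    intro g f
    rw [twA, RingHom.comp_apply, HHx.TW.phi_sg]
    change MonoidAlgebra.lift F F G (1 : G →* F) (MonoidAlgebra.single g _) = _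
    rw [MonoidAlgebra.lift_single, MonoidHom.one_apply, smul_eq_mul, mul_one]
  constructor
  · intro b
    induction b using HHx.TW.ind c with
    | h0 =>
      intro i x _
      rw [map_zero, map_zero, zero_smul, sub_zero]
      exact ⟨0, (T.G _).zero_mem, map_zero _⟩
    | ha a b ha hb =>
      intro i x hx
      have := AugT_add T i _ _ (ha i x hx) (hb i x hx)
      rw [map_add, map_add, add_smul, add_smul]
      convert this using 1
      abel
    | hs g f =>
      intro i x hx
      rw [hsg]
      obtain ⟨f', hf'⟩ : ∃ f', f = PowerSeries.C (PowerSeries.constantCoeff f) +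
          PowerSeries.X * f' := by
        have h1 : (PowerSeries.X : PowerSeries F) ∣ f - PowerSeries.C (PowerSeries.constantCoeff f) := by
          rw [PowerSeries.X_dvd_iff, map_sub, PowerSeries.constantCoeff_C, sub_self]
        obtain ⟨f', hf'⟩ := h1
        exact ⟨f', by rw [← hf']; ring⟩
      have e1 : HHx.TW.sg c g f • x - twI c (PowerSeries.constantCoeff f) • x =
          algebraMap (PowerSeries F) (HHx.TW c) f • (HHx.TW.u c g • x - x) +
            HHx.TW.s c • (algebraMap (PowerSeries F) (HHx.TW c) f' • x) := by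
        have e3 : HHx.TW.s c • (algebraMap (PowerSeries F) (HHx.TW c) f' • x) =
            algebraMap (PowerSeries F) (HHx.TW c) (PowerSeries.X * f') • x := by
          rw [map_mul, mul_smul, HHx.TW.s]
        rw [HHx.TW.sg_eq, ← HHx.TW.algebraMap_smul', mul_smul, smul_sub, e3, twI,
          RingHom.comp_apply]
        have e2 : algebraMap (PowerSeries F) (HHx.TW c) f • x =
            algebraMap (PowerSeries F) (HHx.TW c) (PowerSeries.C (PowerSeries.constantCoeff f)) • x +
            algebraMap (PowerSeries F) (HHx.TW c) (PowerSeries.X * f') • x := by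
          rw [← add_smul, ← map_add, ← hf']
        rw [e2]
        abel
      rw [e1]
      exact AugT_add T i _ _ (AugT_smul T i _ _ (hu g i x hx)) (hs i _ (AugT_cyc T i _ x hx))
  · intro r
    have : twI c r = HHx.TW.sg c 1 (PowerSeries.C r) := by
      rw [twI, RingHom.comp_apply, Algebra.algebraMap_eq_smul_one, HHx.TW.one_def,
        HHx.TW.smul_sg, mul_one]
    rw [this, hsg, PowerSeries.constantCoeff_C]

end HAx
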