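import Pool.Agent.Lib.MP_181146_gt.HA.SpecH
import Pool.Agent.Lib.MP_181146_gt.HM.All

/-!
# Project HA, statement CfU: sections of the shifts on the functions on all exponents
-/

set_option autoImplicit false

noncomputable section

namespace HAx

open HMx HRx

section

variable {F : Type} [CommRing F] {m : ℕ}

private lemma yo_e (c : ℕ) (r : Fin m → Fin m → F) (a : Fin m) :
    yo F m c r ∅ a = sf F m a := by
  simp [yo]

private lemma fn_mem {S : Finset (Fin m)} {d : ℕ} {u : (Fin m → ℕ) → F} (hu : u ∈ fn F m S d)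
    {b : Fin m → ℕ} (h : u b ≠ 0) : ∑ i, b i = d := (hu b h).1

private lemma tu_mem (i : Fin m) (d : ℕ) (u : (Fin m → ℕ) → F) (hu : u ∈ fn F m ∅ d) :
    tu F m i u ∈ fn F m ∅ (d + 1) :=
  (aSec F m 0 (fun _ _ => 0) ∅ i (Finset.notMem_empty _)
    (fun h => absurd h Finset.not_nonempty_empty)).1 d u hu

private lemma sf_tu (i : Fin m) (u : (Fin m → ℕ) → F) : sf F m i (tu F m i u) = u :=
  (aSec F m 0 (fun _ _ => 0) ∅ i (Finset.notMem_empty _)
    (fun h => absurd h Finset.not_nonempty_empty)).2.1 u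

private lemma sf_tu' (i a : Fin m) (h : a ≠ i) (u : (Fin m → ℕ) → F) :
    sf F m a (tu F m i u) = tu F m i (sf F m a u) := by
  have h1 := (aSec F m 0 (fun _ _ => 0) ∅ i (Finset.notMem_empty _)
    (fun h => absurd h Finset.not_nonempty_empty)).2.2.1 a h u
  rw [yo_e] at h1
  exact h1

private lemma sf_zero (i : Fin m) (u : (Fin m → ℕ) → F) (hu : u ∈ fn F m ∅ 0) :
    sf F m i u = 0 := by
  funext b
  change u (b + Pi.single i 1) = 0
  by_contra h
  have h1 := fn_mem hu h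
  have h2 : (b + Pi.single i 1 : Fin m → ℕ) i = 0 :=
    (Finset.sum_eq_zero_iff.1 h1) i (Finset.mem_univ i)
  rw [Pi.add_apply, Pi.single_eq_same] at h2
  omega

/-- The sections. -/
private def tq (F : Type) [CommRing F] (m i d : ℕ) : fn F m ∅ d →ₗ[F] fn F m ∅ (d + 1) :=
  if h : i < m then (tu F m ⟨i, h⟩).restrict (tu_mem ⟨i, h⟩ d) else 0

private lemma tq_val {i : ℕ} (h : i < m) (d : ℕ) (x : fn F m ∅ d) :
    (tq F m i d x).1 = tu F m ⟨i, h⟩ x.1 := by
  unfold tq
  rw [dif_pos h]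
  rfl

/-- The shifts. -/
private def yq (c : ℕ) (r : Fin m → Fin m → F) (i d : ℕ) : fn F m ∅ (d + 1) →ₗ[F] fn F m ∅ d :=
  (toR (DSt F m c r ∅)).Y i d

private lemma yq_val (c : ℕ) (r : Fin m → Fin m → F) {i : ℕ} (h : i < m) (d : ℕ)
    (x : fn F m ∅ (d + 1)) : (yq c r i d x).1 = sf F m ⟨i, h⟩ x.1 := by
  unfold yq
  rw [toR_Y _ i h]
  change yo F m c r ∅ ⟨i, h⟩ x.1 = _
  rw [yo_e]

private lemma low_add (i : Fin m) (b : Fin m → ℕ) (h : 0 < b i) :
    (low i b + Pi.single i 1 : Fin m → ℕ) = b := by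
  funext a
  rw [Pi.add_apply]
  unfold low
  by_cases ha : a = i
  · subst ha
    rw [Function.update_self, Pi.single_eq_same]
    omega
  · rw [Function.update_of_ne ha, Pi.single_eq_of_ne ha, add_zero]

/-- The value at the exponent `0`. -/
private def e0 (F : Type) [CommRing F] (m : ℕ) : fn F m ∅ 0 →ₗ[F] F :=
  LinearMap.proj 0 ∘ₗ (fn F m ∅ 0).subtype

private lemma e0_bij : Function.Bijective (e0 F m) := by
  constructor
  · rw [injective_iff_map_eq_zero]
    intro x hx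
    have hx0 : x.1 0 = 0 := hx
    apply Subtype.ext
    funext b
    by_contra h
    have h1 := fn_mem x.2 h
    have h2 : b = 0 := by
      funext i
      exact (Finset.sum_eq_zero_iff.1 h1) i (Finset.mem_univ i)
    rw [h2] at h
    exact h hx0
  · intro a
    refine ⟨⟨fun b => if b = 0 then a else 0, ?_⟩, ?_⟩
    · intro b hb
      by_cases h : b = 0
      · refine ⟨?_, fun i hi => absurd hi (Finset.notMem_empty i)⟩
        rw [h]
        exact Finset.sum_eq_zero fun i _ => rfl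
      · exact absurd (if_neg h) hb
    · exact if_pos rfl

private lemma sec' (c : ℕ) (r : Fin m → Fin m → F) {i : ℕ} (hi : i < m) (j : ℕ)
    (x : fn F m ∅ j) : yq c r i j (tq F m i j x) = x := by
  apply Subtype.ext
  rw [yq_val c r hi, tq_val hi, sf_tu]

private lemma com0 (c : ℕ) (r : Fin m → Fin m → F) {i l : ℕ} (hi : i < m) (hl : l < m)
    (hil : i ≠ l) (x : fn F m ∅ 0) : yq c r i 0 (tq F m l 0 x) = 0 := by
  have hne : (⟨i, hi⟩ : Fin m) ≠ ⟨l, hl⟩ := fun h => hil (Fin.mk.inj_iff.1 h)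
  apply Subtype.ext
  rw [yq_val c r hi, tq_val hl, sf_tu' _ _ hne, sf_zero _ _ x.2, map_zero]
  rfl

private lemma comS (c : ℕ) (r : Fin m → Fin m → F) {i l : ℕ} (hi : i < m) (hl : l < m)
    (hil : i ≠ l) (j : ℕ) (x : fn F m ∅ (j + 1)) :
    yq c r i (j + 1) (tq F m l (j + 1) x) = tq F m l j (yq c r i j x) := by
  have hne : (⟨i, hi⟩ : Fin m) ≠ ⟨l, hl⟩ := fun h => hil (Fin.mk.inj_iff.1 h)
  apply Subtype.ext
  rw [yq_val c r hi, tq_val hl, tq_val hl, yq_val c r hi, sf_tu' _ _ hne]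

private lemma zer' (c : ℕ) (r : Fin m → Fin m → F) (j : ℕ) (x : fn F m ∅ (j + 1))
    (hx : ∀ i < m, yq c r i j x = 0) : x = 0 := by
  apply Subtype.ext
  funext b
  by_contra h
  have h1 : ∑ i, b i = j + 1 := fn_mem x.2 h
  obtain ⟨i, -, hi⟩ : ∃ i ∈ Finset.univ, b i ≠ 0 :=
    Finset.exists_ne_zero_of_sum_ne_zero (by rw [h1]; exact Nat.succ_ne_zero j)
  have h2 : (yq c r i j x).1 = 0 := congrArg Subtype.val (hx i i.2)
  rw [yq_val c r i.2] at h2
  have h3 := congrFun h2 (low i b)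
  change x.1 (low i b + Pi.single i 1) = 0 at h3
  rw [low_add i b (Nat.pos_of_ne_zero hi)] at h3
  exact h h3

end

theorem sCfU : S_CfU := by
  intro F _ m c r
  refine ⟨⟨⟨fun i j => tq F m i j, fun i hi j x => sec' c r hi j x, ?_,
    fun j x hx => zer' c r j x hx⟩⟩, ⟨e0 F m, e0_bij⟩⟩
  intro i hi l hl hil x
  funext j
  cases j with
  | zero => exact com0 c r hi hl hil (x 0)
  | succ j => exact comS c r hi hl hil j (x (j + 1))

end HAx
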