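import Pool.Agent.Lib.MP_181146_gt.HA.SpecH
import Pool.Agent.Lib.MP_181146_gt.HM.All

/-!
# Project HA (part A), module Chn (helper87): the module for `insert i S` as a kernel
-/

set_option autoImplicit false

noncomputable section

namespace HAx

open HMx HRx

private lemma Chn_T {k : Type} [CommRing k] (D : HRx.DM k) (m : ℕ) (lam : ℕ → k) (l : ℕ)
    (x : D.D (l + 1)) : (∑ a ∈ Finset.range m, lam a • D.tY a) (Pi.single (l + 1) x) =
      Pi.single l (∑ a ∈ Finset.range m, lam a • D.Y a l x) := by
  have e : ∀ y : D.D l, (Pi.single l y : D.Sq) = LinearMap.single k D.D l y := fun y => rfl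
  rw [LinearMap.sum_apply, e, map_sum]
  refine Finset.sum_congr rfl fun a _ => ?_
  rw [LinearMap.smul_apply, HRx.DM.tY_single, map_smul]
  rfl

private lemma Chn_T0 {k : Type} [CommRing k] (D : HRx.DM k) (m : ℕ) (lam : ℕ → k)
    (x : D.D 0) : (∑ a ∈ Finset.range m, lam a • D.tY a) (Pi.single 0 x) = 0 := by
  rw [LinearMap.sum_apply]
  refine Finset.sum_eq_zero fun a _ => ?_
  rw [LinearMap.smul_apply, HRx.DM.tY_single_zero, smul_zero]

private lemma Chn_sf {F : Type} [CommRing F] {m : ℕ} {S : Finset (Fin m)} (l : Fin m)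
    {u : (Fin m → ℕ) → F} (hu : u ∈ fn F m S 0) : sf F m l u = 0 := by
  funext β
  change u (β + Pi.single l 1) = 0
  by_contra h
  have h1 := (hu _ h).1
  rw [Finset.sum_eq_zero_iff] at h1
  have h2 := h1 l (Finset.mem_univ l)
  rw [Pi.add_apply, Pi.single_eq_same] at h2
  omega

private lemma Chn_zo {F : Type} [CommRing F] {m c : ℕ} {r : Fin m → Fin m → F}
    {S : Finset (Fin m)} (a : Fin m) {u : (Fin m → ℕ) → F} (hu : u ∈ fn F m S 0) :
    zo F m c r a u = 0 := by
  rw [zo, LinearMap.sum_apply]
  refine Finset.sum_eq_zero fun l _ => ?_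
  rw [LinearMap.smul_apply, Chn_sf l hu, smul_zero]

private lemma Chn_sum {F : Type} [CommRing F] {m c : ℕ} (r : Fin m → Fin m → F)
    (S : Finset (Fin m)) (hS : ∀ a ∈ S, a.val < c) (i : Fin m) (hi : i ∉ S) (hic : i.val < c)
    (u : (Fin m → ℕ) → F) :
    ∑ a : Fin m, lamF c r i a • yo F m c r S a u = sf F m i u + zo F m c r i u := by
  have h1 : ∀ a : Fin m, lamF c r i a • yo F m c r S a u =
      (if a = i then yo F m c r S a u else 0) +
        if c ≤ a.val then r i a • sf F m a u else 0 := by
    intro a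
    unfold lamF
    by_cases h : a = i
    · have hc : ¬ c ≤ a.val := by
        rw [h]
        exact not_le.2 hic
      rw [if_pos h, if_pos h, if_neg hc, one_smul, add_zero]
    · rw [if_neg h, if_neg h, zero_add]
      by_cases hc : c ≤ a.val
      · rw [if_pos hc, if_pos hc]
        have : a ∉ S := fun hs => absurd (hS a hs) (not_lt.2 hc)
        unfold yo
        rw [if_neg this]
      · rw [if_neg hc, if_neg hc, zero_smul]
  rw [Finset.sum_congr rfl (fun a _ => h1 a), Finset.sum_add_distrib,
    Finset.sum_ite_eq' Finset.univ i (fun a => yo F m c r S a u), if_pos (Finset.mem_univ _)]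
  have h2 : yo F m c r S i u = sf F m i u := by
    unfold yo
    rw [if_neg hi]
  have h3 : zo F m c r i u = ∑ a : Fin m, if c ≤ a.val then r i a • sf F m a u else 0 := by
    rw [zo, LinearMap.sum_apply, Finset.sum_filter]
    rfl
  rw [h2, h3]

/-- The value of the linear form. -/
private lemma Chn_val {F : Type} [CommRing F] {m c : ℕ} (r : Fin m → Fin m → F)
    (S : Finset (Fin m)) (hS : ∀ a ∈ S, a.val < c) (i : Fin m) (hi : i ∉ S) (hic : i.val < c)
    (l : ℕ) (x : fn F m S (l + 1)) (G : fn F m S l)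
    (hG : G = ∑ a ∈ Finset.range m, lamN c r i a • (toR (DSt F m c r S)).Y a l x) :
    G.1 = sf F m i x.1 + zo F m c r i x.1 := by
  rw [← Chn_sum r S hS i hi hic x.1]
  have h1 : G = ∑ a : Fin m, lamF c r i a •
      (yo F m c r S a).restrict (fun _ hu => yo_mem a hu) x := by
    rw [hG]
    refine (Finset.sum_range _).trans (Finset.sum_congr rfl fun a _ => ?_)
    rw [toR_Y _ _ a.2]
    have h2 : lamN c r i a = lamF c r i a := dif_pos a.2
    rw [h2]
    rfl
  rw [h1, Submodule.coe_sum]
  rfl

/-- **Chn.** The module for `insert i S` is the kernel of the linear form of index `i`. -/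
theorem sChn : S_Chn := by
  intro F _ m c r S i hi hic hS
  obtain ⟨-, hD2, J, hJ1, hJ2, hJ3, hJ4, hJ5⟩ := aDs F m c r S i hi hic hS
  let j : DHom (RingHom.id F) (toR (DSt F m c r (insert i S))) (toR (DSt F m c r S)) :=
    { f := fun l => (J.restrict (p := fn F m (insert i S) l) (q := fn F m S l)
        (fun u hu => hJ1 l u hu)).toAddMonoidHom
      fs := fun l s x => (J.restrict (p := fn F m (insert i S) l) (q := fn F m S l)
        (fun u hu => hJ1 l u hu)).map_smul s x
      fY := by
        intro a l x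
        by_cases h : a < m
        · rw [toR_Y _ _ h, toR_Y _ _ h]
          apply Subtype.ext
          exact hJ3 ⟨a, h⟩ (l + 1) x.1 x.2
        · rw [toR_Y0 _ _ h, toR_Y0 _ _ h]
          exact map_zero (J.restrict (p := fn F m (insert i S) l) (q := fn F m S l)
            (fun u hu => hJ1 l u hu)) }
  refine ⟨j, ?_, ?_, ?_⟩
  · intro l x hx
    apply Subtype.ext
    exact hJ2 l x.1 x.2 (congrArg Subtype.val hx)
  · intro l x
    have hr : (∃ y, j.f l y = x) ↔ sf F m i x.1 + zo F m c r i x.1 = 0 := by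
      constructor
      · rintro ⟨y, rfl⟩
        exact hJ4 l y.1 y.2
      · intro h
        obtain ⟨u, hu, hu'⟩ := hJ5 l x.1 x.2 h
        exact ⟨⟨u, hu⟩, Subtype.ext hu'⟩
    rw [hr]
    cases l with
    | zero =>
      rw [Chn_T0]
      refine iff_of_true rfl ?_
      rw [Chn_sf i x.2, Chn_zo i x.2, add_zero]
    | succ l =>
      rw [Chn_T, Pi.single_eq_zero_iff, ← Chn_val r S hS i hi hic l x _ rfl]
      constructor
      · intro h
        rw [h]
        rfl
      · intro h
        exact Subtype.ext h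
  · intro l y
    obtain ⟨w, hw, hw'⟩ := hD2 l y.1 y.2
    refine ⟨⟨w, hw⟩, (Chn_T (toR (DSt F m c r S)) m (lamN c r i) l ⟨w, hw⟩).trans ?_⟩
    refine congrArg (Pi.single l) (Subtype.ext ?_)
    rw [← hw']
    exact Chn_val r S hS i hi hic l ⟨w, hw⟩ _ rfl

end HAx
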