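import Pool.Agent.Lib.MP_181146_gt.HA.SpecA2

/-!
# Project HA, module EZ2: the second parameter, for telescopes
-/

set_option autoImplicit false

namespace HAx

open HEp HRx HBy

/-- The map of telescopes induced by a linear map, as a linear map. -/
private noncomputable def EZ2_l {F : Type} [CommRing F] {X Y : GC F} (E : En X) (E' : En Y)
    (a : X.V →ₗ[F] Y.V) : (tel E).V →ₗ[F] (tel E').V :=
  LinearMap.prodMap (Finsupp.mapRange.linearMap (α := ℕ) a)
    (Finsupp.mapRange.linearMap (α := ℕ) a)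

private lemma EZ2_eq {F : Type} [CommRing F] {X Y : GC F} (E : En X) (E' : En Y)
    (a : X.V →ₗ[F] Y.V) : (EZ2_l E E' a).toAddMonoidHom = tm E E' a.toAddMonoidHom := by
  refine AddMonoidHom.ext ?_
  rintro ⟨x, y⟩
  rfl

theorem sEZ2 (hEZt : S_EZt) (hKt : S_Kt) (hTelX : HBy.S_TelX) : S_EZ2 := by
  intro F _ _ X Y E E' a b h ha hb h0 hfin N hN L _ ε hflat
  have hS := hTelX F F F X X Y E E E' a.toAddMonoidHom b.toAddMonoidHom ha hb h
  rw [← EZ2_eq, ← EZ2_eq] at hS
  refine hEZt F (tel E) (tel E') (EZ2_l E E a) (EZ2_l E E' b) hS ?_ hfin N hN L ε hflat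
  intro i x hx
  have hk := hKt F X E a.toAddMonoidHom h.cha ha h0 i x hx
  rw [← EZ2_eq] at hk
  exact hk

end HAx
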