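import Pool.Agent.Lib.MP_181146_gt.HA.SpecA

/-!
# MP_181146_gt, project HA: EZ of a finite model and of the big complex (helper72)
-/

set_option autoImplicit false

namespace HAx

open HEp HRx

section

variable {R : Type} [CommRing R] {U : ZCx R} {T : GC R}

private lemma EZU_fd (F : FMap U T) (k j : ℤ) (h : j + 1 = k) (y : U.P k) :
    F.f j (U.d k j y) = T.d (F.f k y) := by
  obtain rfl : j = k - 1 := by omega
  exact F.fd k y

private lemma EZU_cyc {i : ℤ} (x : (HBx.gc U).Z i) : U.Cyc i x.1 := by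
  intro j
  by_cases hj : j + 1 = i
  · obtain rfl : j = i - 1 := by omega
    exact x.2
  · rw [U.shape i j hj]
    rfl

/-- A cycle of `U` as an element of the module of cycles. -/
private def EZU_mk {i : ℤ} (x : U.P i) (hx : U.Cyc i x) : (HBx.gc U).Z i := ⟨x, hx (i - 1)⟩

private lemma EZU_bdy {i : ℤ} (x : (HBx.gc U).Z i) : x ∈ (HBx.gc U).B i ↔ U.Bdy i x.1 := by
  constructor
  · rintro ⟨y, hy⟩
    exact ⟨i + 1, y, hy⟩
  · rintro ⟨k, y, hy⟩
    by_cases hk : i + 1 = k
    · subst hk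
      exact ⟨y, hy⟩
    · rw [U.shape k i hk] at hy
      have h0 : x = 0 := Subtype.ext hy.symm
      rw [h0]
      exact Submodule.zero_mem _

private lemma EZU_mem (F : FMap U T) (i : ℤ) (x : (HBx.gc U).Z i) : F.f i x.1 ∈ Zi T i := by
  refine ⟨F.fG i _, ?_⟩
  have h1 : U.Cyc i x.1 := EZU_cyc x
  have h2 := EZU_fd F i (i - 1) (by omega) x.1
  rw [h1 (i - 1), map_zero] at h2
  exact h2.symm

/-- The map on the cycles. -/
private noncomputable def EZU_map (F : FMap U T) (i : ℤ) : (HBx.gc U).Z i →ₗ[R] Hi T i where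
  toFun x := hmk T i ⟨F.f i x.1, EZU_mem F i x⟩
  map_add' x y := by
    rw [← map_add]
    refine congrArg (hmk T i) (Subtype.ext ?_)
    exact map_add (F.f i) _ _
  map_smul' b x := by
    rw [← map_smul]
    refine congrArg (hmk T i) (Subtype.ext ?_)
    exact map_smul (F.f i) b _

private lemma EZU_zero (F : FMap U T) (i : ℤ) (x : (HBx.gc U).Z i) :
    EZU_map F i x = 0 ↔ T.Bdy i (F.f i x.1) := hmk_eq_zero T i ⟨F.f i x.1, EZU_mem F i x⟩

private lemma EZU_ker (F : FMap U T) (hF : F.QI) (i : ℤ) :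
    (HBx.gc U).B i = LinearMap.ker (EZU_map F i) := by
  ext x
  rw [LinearMap.mem_ker, EZU_bdy, EZU_zero]
  constructor
  · rintro ⟨k, y, hy⟩
    by_cases hk : i + 1 = k
    · refine ⟨F.f k y, ?_, ?_⟩
      · rw [hk]
        exact F.fG k y
      · rw [← EZU_fd F k i hk y]
        exact congrArg (F.f i) hy
    · rw [U.shape k i hk] at hy
      refine ⟨0, (T.G (i + 1)).zero_mem, ?_⟩
      have h0 : F.f i x.1 = 0 := by
        have h1 := congrArg (F.f i) hy.symm
        exact h1.trans (map_zero (F.f i))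
      rw [h0, map_zero]
  · exact hF.1 i _ (EZU_cyc x)

private lemma EZU_surj (F : FMap U T) (hF : F.QI) (i : ℤ) :
    Function.Surjective (EZU_map F i) := by
  intro z
  obtain ⟨y, rfl⟩ := hmk_surj T i z
  obtain ⟨x, hx, hb⟩ := hF.2 i (y : T.V) y.2
  refine ⟨EZU_mk x hx, ?_⟩
  have h1 : hmk T i (y - ⟨F.f i x, EZU_mem F i (EZU_mk x hx)⟩) = 0 := by
    rw [hmk_eq_zero]
    exact hb
  rw [map_sub, sub_eq_zero] at h1
  exact h1.symm

/-- The isomorphism on the homology. -/
private noncomputable def EZU_e (F : FMap U T) (hF : F.QI) (i : ℤ) :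
    (HBx.gc U).H i ≃ₗ[R] Hi T i :=
  (Submodule.quotEquivOfEq _ _ (EZU_ker F hF i)).trans
    ((EZU_map F i).quotKerEquivOfSurjective (EZU_surj F hF i))

end

theorem sEZU (hEeq : S_Eeq) : S_EZU := by
  intro R _ U T F hF L _ ε
  have h1 : ∀ i, (Module.Finite R ((HBx.gc U).H i) ↔ Module.Finite R (Hi T i)) ∧
      HBx.hrk ε ((HBx.gc U).H i) = HBx.hrk ε (Hi T i) := by
    intro i
    have h := hEeq R R (RingHom.id R) Function.surjective_id ((HBx.gc U).H i) (Hi T i)
      (EZU_e F hF i).toAddEquiv (fun b x => (EZU_e F hF i).map_smul b x) L ε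
    rwa [RingHom.comp_id] at h
  have h2 : ∀ i, Subsingleton ((HBx.gc U).H i) ↔ Subsingleton (Hi T i) := fun i =>
    (EZU_e F hF i).toEquiv.subsingleton_congr
  unfold HBx.GC.EZ EZ
  refine and_congr (forall_congr' fun i => (h1 i).1) (exists_congr fun N => and_congr
    (forall_congr' fun i => imp_congr_right fun _ => h2 i) ?_)
  have h3 : ∑ i ∈ Finset.Icc (-(N : ℤ)) N, (i.negOnePow : ℤ) * (HBx.hrk ε ((HBx.gc U).H i) : ℤ) =
      ∑ i ∈ Finset.Icc (-(N : ℤ)) N, (i.negOnePow : ℤ) * (HBx.hrk ε (Hi T i) : ℤ) :=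
    Finset.sum_congr rfl fun i _ => by rw [(h1 i).2]
  rw [h3]

end HAx
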