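import Pool.Agent.Lib.MP_181146_gt.HA.SpecA4

/-!
# Project HA, module EZf: finiteness and vanishing of the homology under semilinear
quasi-isomorphisms
-/

set_option autoImplicit false

namespace HAx

open HEp HRx

/-- The map on the cycles with values in the homology. -/
private def EZf_map {R R' : Type} [CommRing R] [CommRing R'] (σ : R →+* R') (T : GC R) (T' : GC R')
    (f : T.V →+ T'.V) (hf : IsQI T T' f)
    (hl : ∀ i b x, T.Cyc i x → T'.Bdy i (f (b • x) - σ b • f x)) (i : ℤ) :
    Zi T i →ₛₗ[σ] Hi T' i where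
  toFun x := hmk T' i ⟨f x, (mem_Zi T' i _).2 ⟨hf.1.1 i x x.2.1, by
    rw [← hf.1.2, (x.2.2 : T.d x = 0), map_zero]⟩⟩
  map_add' x y := by
    rw [← map_add]
    congr 1
    exact Subtype.ext (map_add f (x : T.V) y)
  map_smul' b x := by
    rw [← map_smul, ← sub_eq_zero, ← map_sub, hmk_eq_zero]
    exact hl i b x x.2

/-- Finiteness transfers along a semilinear bijection. -/
private theorem EZf_fin {R R' M M' : Type} [CommRing R] [CommRing R'] [AddCommGroup M]
    [Module R M] [AddCommGroup M'] [Module R' M'] (σ : R →+* R') (hσ : Function.Surjective σ)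
    (e : M ≃+ M') (he : ∀ (b : R) (x : M), e (b • x) = σ b • e x) :
    Module.Finite R M ↔ Module.Finite R' M' := by
  have hes : ∀ (b : R) (y : M'), e.symm (σ b • y) = b • e.symm y := by
    intro b y
    rw [AddEquiv.symm_apply_eq, he, AddEquiv.apply_symm_apply]
  have : RingHomSurjective σ := ⟨hσ⟩
  let f : M →ₛₗ[σ] M' :=
    { toFun := e
      map_add' := map_add e
      map_smul' := he }
  constructor
  · intro h
    exact Module.Finite.of_surjective f e.surjective
  · intro h
    rw [Module.finite_def, Submodule.fg_def] at h ⊢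
    obtain ⟨s, hsfin, hs⟩ := h
    refine ⟨e.symm '' s, hsfin.image _, ?_⟩
    rw [eq_top_iff]
    intro x _
    have hx : e x ∈ Submodule.span R' s := by rw [hs]; trivial
    have key : ∀ y ∈ Submodule.span R' s, e.symm y ∈ Submodule.span R (e.symm '' s) := by
      intro y hy
      induction hy using Submodule.span_induction with
      | mem y hy => exact Submodule.subset_span ⟨y, hy, rfl⟩
      | zero => rw [map_zero]; exact Submodule.zero_mem _
      | add y z _ _ hy hz => rw [map_add]; exact Submodule.add_mem _ hy hz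
      | smul a y _ hy =>
        obtain ⟨b, rfl⟩ := hσ a
        rw [hes]
        exact Submodule.smul_mem _ b hy
    have h1 := key _ hx
    rwa [AddEquiv.symm_apply_apply] at h1

theorem sEZf : S_EZf := by
  intro R R' _ _ σ hσ T T' f hf hl i
  have hker : Bi T i ≤ LinearMap.ker (EZf_map σ T T' f hf hl i) := by
    intro x hx
    obtain ⟨y, hy, hyx⟩ := (mem_Bi T i x).1 hx
    change hmk T' i _ = 0
    rw [hmk_eq_zero]
    refine ⟨f y, hf.1.1 _ y hy, ?_⟩
    rw [← hf.1.2, hyx]
  let Φ : Hi T i →ₛₗ[σ] Hi T' i := (Bi T i).liftQ (EZf_map σ T T' f hf hl i) hker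
  have hΦ : ∀ x : Zi T i, Φ (hmk T i x) = EZf_map σ T T' f hf hl i x := fun x => rfl
  have hinj : Function.Injective Φ := by
    rw [injective_iff_map_eq_zero]
    intro a ha
    obtain ⟨x, rfl⟩ := hmk_surj T i a
    rw [hΦ] at ha
    have ha' : hmk T' i _ = 0 := ha
    rw [hmk_eq_zero] at ha' ⊢
    exact hf.2.1 i x x.2 ha'
  have hsur : Function.Surjective Φ := by
    intro b
    obtain ⟨y, rfl⟩ := hmk_surj T' i b
    obtain ⟨x, hx, hxy⟩ := hf.2.2 i y y.2
    refine ⟨hmk T i ⟨x, hx⟩, ?_⟩
    rw [hΦ]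
    symm
    change hmk T' i y = hmk T' i _
    rw [← sub_eq_zero, ← map_sub, hmk_eq_zero]
    exact hxy
  let e : Hi T i ≃+ Hi T' i := AddEquiv.ofBijective Φ.toAddMonoidHom ⟨hinj, hsur⟩
  exact ⟨EZf_fin σ hσ e fun b x => Φ.map_smulₛₗ b x, e.toEquiv.subsingleton_congr⟩

end HAx
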