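import Pool.Agent.Lib.MP_181146_gt.HA.SpecA

/-!
# Project HA, module EZfin: the homology of a perfect complex is finitely generated and bounded
-/

set_option autoImplicit false

namespace HAx

open HEp HRx

/-- Cycles of the model to cycles of the big complex. -/
private def EZfin_map {R : Type} [CommRing R] {U : ZCx R} {T : GC R} (F : FMap U T) (i : ℤ) :
    LinearMap.ker (U.d i (i - 1)) →ₗ[R] Zi T i :=
  (F.f i ∘ₗ (LinearMap.ker (U.d i (i - 1))).subtype).codRestrict (Zi T i) (by
    intro x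
    refine ⟨F.fG i _, ?_⟩
    change T.d (F.f i (x : U.P i)) = 0
    have h : U.d i (i - 1) (x : U.P i) = 0 := x.2
    rw [← F.fd, h, map_zero])

private theorem EZfin_sur {R : Type} [CommRing R] {U : ZCx R} {T : GC R} (F : FMap U T)
    (hF : F.QI) (i : ℤ) : Function.Surjective (hmk T i ∘ₗ EZfin_map F i) := by
  intro z
  obtain ⟨y, rfl⟩ := hmk_surj T i z
  obtain ⟨x, hx, hxy⟩ := hF.2 i y y.2
  refine ⟨⟨x, hx (i - 1)⟩, ?_⟩
  rw [LinearMap.comp_apply, ← sub_eq_zero, ← neg_eq_zero, neg_sub, ← map_sub, hmk_eq_zero]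
  exact hxy

theorem sEZfin : S_EZfin := by
  intro R _ _ T hT
  obtain ⟨U, F, hF⟩ := hT
  refine ⟨fun i => ?_, U.N, fun i hi => ?_⟩
  · exact Module.Finite.of_surjective _ (EZfin_sur F hF i)
  · have h := U.bdd i hi
    exact (EZfin_sur F hF i).subsingleton

end HAx
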