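import Pool.Agent.Lib.MP_181146_gt.HA.SpecA

/-!
# Project HA, module EZs: `EZ` under semilinear quasi-isomorphisms
-/

set_option autoImplicit false

namespace HAx

open HEp HRx

/-- The map on the cycles with values in the homology. -/
private def EZs_map {R R' : Type} [CommRing R] [CommRing R'] (σ : R →+* R') (T : GC R) (T' : GC R')
    (f : T.V →+ T'.V) (hf : IsQI T T' f)
    (hl : ∀ i b x, T.Cyc i x → T'.Bdy i (f (b • x) - σ b • f x)) (i : ℤ) :
    Zi T i →ₛₗ[σ] Hi T' i where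
  toFun x := hmk T' i ⟨f x, (mem_Zi T' i _).2 ⟨hf.1.1 i x x.2.1, by
    rw [← hf.1.2, (x.2.2 : T.d x = 0), map_zero]⟩⟩
  map_add' x y := by
    rw [← map_add]
    congr 1
    exact Subtype.ext (map_add f (x : T.V) y)
  map_smul' b x := by
    rw [← map_smul, ← sub_eq_zero, ← map_sub, hmk_eq_zero]
    exact hl i b x x.2

theorem sEZs (hEeq : S_Eeq) : S_EZs := by
  intro R R' _ _ σ hσ T T' f hf hl L _ ε
  have key : ∀ i, (Module.Finite R (Hi T i) ↔ Module.Finite R' (Hi T' i)) ∧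
      HBx.hrk (ε.comp σ) (Hi T i) = HBx.hrk ε (Hi T' i) ∧
      (Subsingleton (Hi T i) ↔ Subsingleton (Hi T' i)) := by
    intro i
    have hker : Bi T i ≤ LinearMap.ker (EZs_map σ T T' f hf hl i) := by
      intro x hx
      obtain ⟨y, hy, hyx⟩ := (mem_Bi T i x).1 hx
      change hmk T' i _ = 0
      rw [hmk_eq_zero]
      refine ⟨f y, hf.1.1 _ y hy, ?_⟩
      rw [← hf.1.2, hyx]
    let Φ : Hi T i →ₛₗ[σ] Hi T' i := (Bi T i).liftQ (EZs_map σ T T' f hf hl i) hker
    have hΦ : ∀ x : Zi T i, Φ (hmk T i x) = EZs_map σ T T' f hf hl i x := fun x => rfl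
    have hinj : Function.Injective Φ := by
      rw [injective_iff_map_eq_zero]
      intro a ha
      obtain ⟨x, rfl⟩ := hmk_surj T i a
      rw [hΦ] at ha
      have ha' : hmk T' i _ = 0 := ha
      rw [hmk_eq_zero] at ha' ⊢
      exact hf.2.1 i x x.2 ha'
    have hsur : Function.Surjective Φ := by
      intro b
      obtain ⟨y, rfl⟩ := hmk_surj T' i b
      obtain ⟨x, hx, hxy⟩ := hf.2.2 i y y.2
      refine ⟨hmk T i ⟨x, hx⟩, ?_⟩
      rw [hΦ]
      symm
      change hmk T' i y = hmk T' i _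
      rw [← sub_eq_zero, ← map_sub, hmk_eq_zero]
      exact hxy
    let e : Hi T i ≃+ Hi T' i := AddEquiv.ofBijective Φ.toAddMonoidHom ⟨hinj, hsur⟩
    obtain ⟨h1, h2⟩ := hEeq R R' σ hσ (Hi T i) (Hi T' i) e (fun b x => Φ.map_smulₛₗ b x) L ε
    exact ⟨h1, h2, e.toEquiv.subsingleton_congr⟩
  unfold EZ
  constructor
  · rintro ⟨h1, N, h2, h3⟩
    refine ⟨fun i => (key i).1.1 (h1 i), N, fun i hi => (key i).2.2.1 (h2 i hi), ?_⟩
    simp only [← (key _).2.1]
    exact h3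
  · rintro ⟨h1, N, h2, h3⟩
    refine ⟨fun i => (key i).1.2 (h1 i), N, fun i hi => (key i).2.2.2 (h2 i hi), ?_⟩
    simp only [(key _).2.1]
    exact h3

end HAx
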