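import Pool.Agent.Lib.MP_181146_gt.HA.SpecA

/-!
# HA, module Eeq (helper47): the dimension of `L ⊗ M` through a surjective ring homomorphism
-/

set_option autoImplicit false

namespace HAx

open scoped TensorProduct

section

variable {R R' : Type} [CommRing R] [CommRing R'] {M M' : Type} [AddCommGroup M] [Module R M]
  [AddCommGroup M'] [Module R' M'] {L : Type} [AddCommGroup L] [Module R L] [Module R' L]

/-- The map of the tensor products. -/
private noncomputable def Eeq_map (e : M →+ M')
    (h : ∀ (b : R) (l : L) (x : M), (b • l) ⊗ₜ[R'] e x = l ⊗ₜ[R'] e (b • x)) :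
    L ⊗[R] M →+ L ⊗[R'] M' :=
  TensorProduct.liftAddHom
    (AddMonoidHom.mk' (fun l : L => (AddMonoidHom.mk' (fun x : M => l ⊗ₜ[R'] e x)
      (fun x y => by rw [map_add, TensorProduct.tmul_add])))
      (fun l l' => by
        ext x
        exact TensorProduct.add_tmul l l' (e x))) h

private theorem Eeq_map_tmul (e : M →+ M')
    (h : ∀ (b : R) (l : L) (x : M), (b • l) ⊗ₜ[R'] e x = l ⊗ₜ[R'] e (b • x)) (l : L) (x : M) :
    Eeq_map (R := R) e h (l ⊗ₜ[R] x) = l ⊗ₜ[R'] e x := rfl

end

theorem sEeq : S_Eeq := by
  intro R R' _ _ σ hσ M M' _ _ _ _ e he L _ ε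
  have hes : ∀ (b : R) (y : M'), e.symm (σ b • y) = b • e.symm y := by
    intro b y
    rw [AddEquiv.symm_apply_eq, he, AddEquiv.apply_symm_apply]
  constructor
  · have : RingHomSurjective σ := ⟨hσ⟩
    let f : M →ₛₗ[σ] M' :=
      { toFun := e
        map_add' := map_add e
        map_smul' := he }
    constructor
    · intro h
      exact Module.Finite.of_surjective f e.surjective
    · intro h
      rw [Module.finite_def, Submodule.fg_def] at h ⊢
      obtain ⟨s, hsfin, hs⟩ := h
      refine ⟨e.symm '' s, hsfin.image _, ?_⟩
      rw [eq_top_iff]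
      intro x _
      have hx : e x ∈ Submodule.span R' s := by rw [hs]; trivial
      have key : ∀ y ∈ Submodule.span R' s, e.symm y ∈ Submodule.span R (e.symm '' s) := by
        intro y hy
        induction hy using Submodule.span_induction with
        | mem y hy => exact Submodule.subset_span ⟨y, hy, rfl⟩
        | zero => rw [map_zero]; exact Submodule.zero_mem _
        | add y z _ _ hy hz => rw [map_add]; exact Submodule.add_mem _ hy hz
        | smul a y _ hy =>
          obtain ⟨b, rfl⟩ := hσ a
          rw [hes]
          exact Submodule.smul_mem _ b hy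
      have h1 := key _ hx
      rwa [AddEquiv.symm_apply_apply] at h1
  · unfold HBx.hrk
    let _ : Algebra R L := (ε.comp σ).toAlgebra
    let _ : Algebra R' L := ε.toAlgebra
    have hR : ∀ (b : R) (l : L), b • l = ε (σ b) * l := fun b l => Algebra.smul_def b l
    have hR' : ∀ (b : R') (l : L), b • l = ε b * l := fun b l => Algebra.smul_def b l
    have h1 : ∀ (b : R) (l : L) (x : M),
        (b • l) ⊗ₜ[R'] (e : M →+ M') x = l ⊗ₜ[R'] (e : M →+ M') (b • x) := by
      intro b l x
      have e1 : (e : M →+ M') (b • x) = σ b • e x := he b x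
      rw [e1, hR, ← hR', TensorProduct.smul_tmul]
      rfl
    have h2 : ∀ (b' : R') (l : L) (y : M'),
        (b' • l) ⊗ₜ[R] (e.symm : M' →+ M) y = l ⊗ₜ[R] (e.symm : M' →+ M) (b' • y) := by
      intro b' l y
      obtain ⟨b, rfl⟩ := hσ b'
      have e1 : (e.symm : M' →+ M) (σ b • y) = b • e.symm y := hes b y
      rw [e1, hR', ← hR, TensorProduct.smul_tmul]
      rfl
    let F : L ⊗[R] M →+ L ⊗[R'] M' := Eeq_map (e : M →+ M') h1
    let G : L ⊗[R'] M' →+ L ⊗[R] M := Eeq_map (e.symm : M' →+ M) h2
    have hF : ∀ (l : L) (x : M), F (l ⊗ₜ[R] x) = l ⊗ₜ[R'] e x := fun l x => rfl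
    have hG : ∀ (l : L) (y : M'), G (l ⊗ₜ[R'] y) = l ⊗ₜ[R] e.symm y := fun l y => rfl
    have hGF : ∀ t, G (F t) = t := by
      intro t
      induction t using TensorProduct.induction_on with
      | zero => rw [map_zero, map_zero]
      | tmul l x => rw [hF, hG, AddEquiv.symm_apply_apply]
      | add a b ha hb => rw [map_add, map_add, ha, hb]
    have hFG : ∀ t, F (G t) = t := by
      intro t
      induction t using TensorProduct.induction_on with
      | zero => rw [map_zero, map_zero]
      | tmul l x => rw [hG, hF, AddEquiv.apply_symm_apply]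
      | add a b ha hb => rw [map_add, map_add, ha, hb]
    let E : (L ⊗[R] M) ≃ₗ[L] (L ⊗[R'] M') :=
      { toFun := F
        map_add' := map_add F
        map_smul' := by
          intro c t
          induction t using TensorProduct.induction_on with
          | zero => rw [smul_zero, map_zero, smul_zero]
          | tmul l x =>
            rw [TensorProduct.smul_tmul', hF, hF, RingHom.id_apply, TensorProduct.smul_tmul']
          | add a b ha hb => rw [smul_add, map_add, ha, hb, map_add, smul_add]
        invFun := G
        left_inv := hGF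
        right_inv := hFG }
    exact E.finrank_eq

end HAx
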