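import Pool.Agent.Lib.MP_181146_gt.HA.SpecE

/-!
# Project HA, module EvH: the operators `p(Y)` commute with morphisms
-/

set_option autoImplicit false

noncomputable section

namespace HAx

open HMx

section

variable {k k' : Type} [CommRing k] [CommRing k'] {m : ℕ} {D : DM k m} {D' : DM k' m}
  (e : DM.Hom D D')

/-- The morphism on sequences. -/
private def EvH_f : (∀ j, D.D j) →+ (∀ j, D'.D j) where
  toFun x := fun j => e.f j (x j)
  map_zero' := funext fun j => map_zero (e.f j)
  map_add' x y := funext fun j => map_add (e.f j) (x j) (y j)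

private lemma EvH_Y (i : Fin m) (x : ∀ j, D.D j) :
    EvH_f e (D.Yt i x) = D'.Yt i (EvH_f e x) :=
  funext fun j => e.fY i j (x (j + 1))

private lemma EvH_pow (i : Fin m) (n : ℕ) (x : ∀ j, D.D j) :
    EvH_f e ((D.Yt i ^ n) x) = (D'.Yt i ^ n) (EvH_f e x) := by
  induction n generalizing x with
  | zero => rfl
  | succ n ih =>
    rw [pow_succ, pow_succ, Module.End.mul_apply, Module.End.mul_apply, ih, EvH_Y]

private lemma EvH_list (s : Fin m → ℕ) (l : List (Fin m)) (x : ∀ j, D.D j) :
    EvH_f e ((l.map fun i => D.Yt i ^ s i).prod x) =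
      (l.map fun i => D'.Yt i ^ s i).prod (EvH_f e x) := by
  induction l generalizing x with
  | nil => rfl
  | cons i l ih =>
    rw [List.map_cons, List.map_cons, List.prod_cons, List.prod_cons, Module.End.mul_apply,
      Module.End.mul_apply, EvH_pow, ih]

private lemma EvH_pw (s : Fin m →₀ ℕ) (x : ∀ j, D.D j) :
    EvH_f e (D.pw s x) = D'.pw s (EvH_f e x) := by
  unfold DM.pw
  rw [List.ofFn_eq_map, List.ofFn_eq_map]
  exact EvH_list e s _ x

private lemma EvH_ap {k : Type} [CommRing k] {m : ℕ} (D : DM k m) (p : MvPolynomial (Fin m) k)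
    (x : ∀ j, D.D j) (j : ℕ) : D.ev p x j = ∑ s ∈ p.support, p.coeff s • (D.pw s x j) := by
  unfold DM.ev
  rw [LinearMap.sum_apply, Finset.sum_apply]
  rfl

private lemma EvH_zs {A B : Type} [AddCommGroup A] [AddCommGroup B] (hA : Module ℤ A)
    (hB : Module ℤ B) (f : A →+ B) (n : ℤ) (x : A) : f (hA.smul n x) = hB.smul n (f x) := by
  rw [int_smul_eq_zsmul hA n x, int_smul_eq_zsmul hB n (f x), map_zsmul]

end

/-- **EvH.** -/
theorem sEvH : S_EvH := by
  intro m D D' e p x j
  rw [EvH_ap, EvH_ap, map_sum]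
  refine Finset.sum_congr rfl fun s _ => ?_
  refine (EvH_zs (D.mo j) (D'.mo j) (e.f j) (p.coeff s) (D.pw s x j)).trans ?_
  exact congrArg ((D'.mo j).smul (p.coeff s)) (congrFun (EvH_pw e s x) j)

end HAx
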