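import Pool.Agent.Lib.MP_181146_gt.HA.SpecA
import Pool.Agent.Lib.MP_181146_gt.HS.Uniq

/-!
# Project HA, module FinAB: the free summands have the same rank
-/

set_option autoImplicit false

namespace HAx

open HEp

section

variable {H G : Type} [CommGroup H] [CommGroup G] (p : ℕ) (j : H →* G)

/-- The map on coinvariants modulo `p`. -/
private noncomputable def FinAB_cm {M M' : Type} [AddCommGroup M] [Module (ZG G) M] [AddCommGroup M']
    [Module (ZG G) M'] (f : M →ₗ[ZG G] M') : HSp.CoV H p (RS j M) →+ HSp.CoV H p (RS j M') :=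
  HSp.coMap H p (RSmap j f)

/-- The number of coinvariants modulo `p`. -/
private noncomputable def FinAB_N (M : Type) [AddCommGroup M] [Module (ZG G) M] : ℕ :=
  Nat.card (HSp.CoV H p (RS j M))

/-- The class of an element. -/
private noncomputable def FinAB_mk {M : Type} [AddCommGroup M] [Module (ZG G) M] (x : M) : HSp.CoV H p (RS j M) :=
  QuotientAddGroup.mk' (HSp.CoS H p (RS j M)) x

private theorem FinAB_surj {M : Type} [AddCommGroup M] [Module (ZG G) M] (x : HSp.CoV H p (RS j M)) :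
    ∃ y : M, x = FinAB_mk p j y := by
  obtain ⟨y, rfl⟩ := QuotientAddGroup.mk'_surjective (HSp.CoS H p (RS j M)) x
  exact ⟨y, rfl⟩

private theorem FinAB_add {M : Type} [AddCommGroup M] [Module (ZG G) M] (x y : M) :
    FinAB_mk p j (x + y) = FinAB_mk p j x + FinAB_mk p j y :=
  map_add (QuotientAddGroup.mk' (HSp.CoS H p (RS j M))) x y

private theorem FinAB_sum {M : Type} [AddCommGroup M] [Module (ZG G) M] {ι : Type} (s : Finset ι)
    (x : ι → M) : FinAB_mk p j (∑ i ∈ s, x i) = ∑ i ∈ s, FinAB_mk p j (x i) :=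
  map_sum (QuotientAddGroup.mk' (HSp.CoS H p (RS j M))) x s

private theorem FinAB_cm_mk {M M' : Type} [AddCommGroup M] [Module (ZG G) M] [AddCommGroup M']
    [Module (ZG G) M'] (f : M →ₗ[ZG G] M') (x : M) :
    FinAB_cm p j f (FinAB_mk p j x) = FinAB_mk p j (f x) := rfl

private theorem FinAB_N_congr {M M' : Type} [AddCommGroup M] [Module (ZG G) M] [AddCommGroup M']
    [Module (ZG G) M'] (e : M ≃ₗ[ZG G] M') : FinAB_N p j M = FinAB_N p j M' := by
  refine Nat.card_congr
    { toFun := FinAB_cm p j e.toLinearMap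
      invFun := FinAB_cm p j e.symm.toLinearMap
      left_inv := ?_
      right_inv := ?_ }
  · intro x
    obtain ⟨y, rfl⟩ := FinAB_surj p j x
    rw [FinAB_cm_mk, FinAB_cm_mk]
    exact congrArg _ (e.symm_apply_apply y)
  · intro x
    obtain ⟨y, rfl⟩ := FinAB_surj p j x
    rw [FinAB_cm_mk, FinAB_cm_mk]
    exact congrArg _ (e.apply_symm_apply y)

private theorem FinAB_N_prod (M M' : Type) [AddCommGroup M] [Module (ZG G) M] [AddCommGroup M']
    [Module (ZG G) M'] : FinAB_N p j (M × M') = FinAB_N p j M * FinAB_N p j M' := by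
  unfold FinAB_N
  rw [← Nat.card_prod]
  refine Nat.card_congr
    { toFun := fun x => (FinAB_cm p j (LinearMap.fst (ZG G) M M') x,
        FinAB_cm p j (LinearMap.snd (ZG G) M M') x)
      invFun := fun y => FinAB_cm p j (LinearMap.inl (ZG G) M M') y.1 +
        FinAB_cm p j (LinearMap.inr (ZG G) M M') y.2
      left_inv := ?_
      right_inv := ?_ }
  · intro x
    obtain ⟨⟨y, z⟩, rfl⟩ := FinAB_surj p j x
    simp only [FinAB_cm_mk]
    rw [← FinAB_add]
    congr 1
    simp
  · rintro ⟨x, x'⟩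
    obtain ⟨y, rfl⟩ := FinAB_surj p j x
    obtain ⟨z, rfl⟩ := FinAB_surj p j x'
    simp only [FinAB_cm_mk]
    rw [← FinAB_add]
    simp only [FinAB_cm_mk]
    simp

private theorem FinAB_single {n : ℕ} (M : Fin n → Type) [∀ k, AddCommGroup (M k)]
    [∀ k, Module (ZG G) (M k)] (m : ∀ k, M k) :
    ∑ k, FinAB_cm p j (LinearMap.single (ZG G) M k) (FinAB_mk p j (m k)) = FinAB_mk p j m := by
  simp only [FinAB_cm_mk]
  rw [← FinAB_sum]
  congr 1
  exact Finset.univ_sum_single m

private theorem FinAB_N_pi {n : ℕ} (M : Fin n → Type) [∀ k, AddCommGroup (M k)]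
    [∀ k, Module (ZG G) (M k)] : FinAB_N p j (∀ k, M k) = ∏ k, FinAB_N p j (M k) := by
  unfold FinAB_N
  rw [← Nat.card_pi]
  refine Nat.card_congr
    { toFun := fun x k => FinAB_cm p j (LinearMap.proj k) x
      invFun := fun y => ∑ k, FinAB_cm p j (LinearMap.single (ZG G) M k) (y k)
      left_inv := ?_
      right_inv := ?_ }
  · intro x
    obtain ⟨m, rfl⟩ := FinAB_surj p j x
    exact FinAB_single p j M m
  · intro y
    choose m hm using fun k => FinAB_surj p j (y k)
    obtain rfl : y = fun k => FinAB_mk p j (m k) := funext hm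
    funext k
    have h := FinAB_single p j M m
    simp only [h]
    rfl

private theorem FinAB_card {W : Type} [AddCommGroup W] [Finite W] {p : ℕ} (hp : p.Prime)
    (h : ∀ x : W, p • x = 0) : ∃ a : ℕ, Nat.card W = p ^ a := by
  have : Fact p.Prime := ⟨hp⟩
  have h1 : IsPGroup p (Multiplicative W) := by
    intro g
    refine ⟨1, ?_⟩
    rw [pow_one]
    exact h g.toAdd
  obtain ⟨a, ha⟩ := IsPGroup.iff_card.1 h1
  exact ⟨a, ha⟩

private theorem FinAB_kill (M : Type) [AddCommGroup M] [Module (ZG G) M]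
    (x : HSp.CoV H p (RS j M)) : p • x = 0 := by
  obtain ⟨y, rfl⟩ := QuotientAddGroup.mk'_surjective (HSp.CoS H p (RS j M)) x
  rw [← map_nsmul]
  refine (QuotientAddGroup.eq_zero_iff _).2 (AddSubgroup.subset_closure (Or.inr ⟨y, ?_⟩))
  exact (natCast_zsmul y p).symm

/-- The augmentation modulo `p`. -/
private noncomputable def FinAB_aug : HSp.CoV H p (RS j (ZG G)) →+ ZMod p :=
  QuotientAddGroup.lift (HSp.CoS H p (RS j (ZG G)))
    (MonoidAlgebra.lift ℤ (ZMod p) G 1 : ZG G →ₐ[ℤ] ZMod p).toRingHom.toAddMonoidHom (by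
      unfold HSp.CoS
      rw [AddSubgroup.closure_le]
      rintro x (⟨g, y, rfl⟩ | ⟨y, rfl⟩)
      · rw [SetLike.mem_coe, AddMonoidHom.mem_ker, RS_of_smul]
        change (MonoidAlgebra.lift ℤ (ZMod p) G 1 : ZG G →ₐ[ℤ] ZMod p)
          (MonoidAlgebra.of ℤ G (j g) * (show ZG G from y) - (show ZG G from y)) = 0
        rw [map_sub, map_mul, MonoidAlgebra.lift_of]
        simp
      · rw [SetLike.mem_coe, AddMonoidHom.mem_ker]
        change (MonoidAlgebra.lift ℤ (ZMod p) G 1 : ZG G →ₐ[ℤ] ZMod p)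
          ((p : ℤ) • (show ZG G from y)) = 0
        rw [map_zsmul]
        simp)

private theorem FinAB_q (hp : p.Prime) [Finite (HSp.CoV H p (RS j (ZG G)))] :
    1 < FinAB_N p j (ZG G) := by
  have : Fact p.Prime := ⟨hp⟩
  have h1 : FinAB_aug p j (FinAB_mk p j (1 : ZG G)) = 1 := by
    change (MonoidAlgebra.lift ℤ (ZMod p) G 1 : ZG G →ₐ[ℤ] ZMod p) 1 = 1
    exact map_one _
  have h2 : Nontrivial (HSp.CoV H p (RS j (ZG G))) := by
    refine ⟨⟨FinAB_mk p j (1 : ZG G), 0, fun h => ?_⟩⟩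
    rw [h, map_zero] at h1
    exact zero_ne_one h1
  exact Finite.one_lt_card

private theorem FinAB_altsum (c b r : ℕ → ℕ) (h0 : c 0 = b 0 + r 0)
    (h : ∀ i, c (i + 1) = b (i + 1) + r (i + 1) + r i) (m : ℕ) :
    ∑ i ∈ Finset.range (m + 1), (-1 : ℤ) ^ i * (c i : ℤ) =
      ∑ i ∈ Finset.range (m + 1), (-1 : ℤ) ^ i * (b i : ℤ) + (-1 : ℤ) ^ m * (r m : ℤ) := by
  induction m with
  | zero =>
    simp [h0]
  | succ m ih =>
    rw [Finset.sum_range_succ, ih, Finset.sum_range_succ _ (m + 1), h m]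
    push_cast
    ring

private theorem FinAB_split (f : ℕ → ℤ) (K : ℕ) :
    ∑ i ∈ Finset.range (2 * K), (-1 : ℤ) ^ i * f i =
      ∑ i ∈ Finset.range K, f (2 * i) - ∑ i ∈ Finset.range K, f (2 * i + 1) := by
  induction K with
  | zero => simp
  | succ K ih =>
    rw [Nat.mul_succ, Finset.sum_range_succ, Finset.sum_range_succ, ih, Finset.sum_range_succ _ K,
      Finset.sum_range_succ _ K, pow_succ, pow_mul]
    norm_num
    ring

private theorem FinAB_main (hBSum : HEp.S_BSum) (hRSfp : HEp.S_RSfp) [Finite G]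
    (hj : Function.Injective j) (g : H) (hg : ∀ x, x ∈ Subgroup.zpowers g) (hp : p.Prime)
    (hc : Nat.card H = p) (X : HPx.AX G) (hN : X.PN) (K : ℕ)
    (hK : ∀ i, 2 * K ≤ i → Subsingleton (X.P i)) (a b : ℕ)
    (e : ((∀ k : Fin K, X.P (2 * k)) × (Fin a → ZG G)) ≃ₗ[ZG G]
      ((∀ k : Fin K, X.P (2 * k + 1)) × (Fin b → ZG G))) : a = b := by
  have hfH : Finite H := Finite.of_injective j hj
  have hfp := hRSfp H G j hj
  have hfi : ∀ i, Module.Finite (ZG H) (RS j (X.P i)) := fun i => (hfp.2 (X.P i)).1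
  have hpr : ∀ i, Module.Projective (ZG H) (RS j (X.P i)) := fun i => (hfp.2 (X.P i)).2
  have hfg : Module.Finite (ZG H) (RS j (ZG G)) := (hfp.2 (ZG G)).1
  have hV : ∀ i, Finite (HSp.CoV H p (RS j (X.P i))) := fun i =>
    HSp.finite_coV H p hp.pos (RS j (X.P i))
  have hVg : Finite (HSp.CoV H p (RS j (ZG G))) := HSp.finite_coV H p hp.pos (RS j (ZG G))
  -- the numbers
  have hc1 : ∀ i, ∃ n : ℕ, Nat.card (HSp.CoV H p (RS j (X.P i))) = p ^ n := fun i =>
    FinAB_card hp fun x => FinAB_kill p j (X.P i) x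
  have hr1 : ∀ i, ∃ n : ℕ, Nat.card (HSp.coMap H p (RSmap j (X.d i))).range = p ^ n := fun i =>
    FinAB_card hp fun x => Subtype.ext (FinAB_kill p j (X.P i) _)
  have hk1 : ∀ i, ∃ n : ℕ, Nat.card (HSp.coMap H p (RSmap j (X.d i))).ker = p ^ n := fun i =>
    FinAB_card hp fun x => Subtype.ext (FinAB_kill p j (X.P (i + 1)) _)
  choose c hc using hc1
  choose r hr using hr1
  choose k hk using hk1
  have hck : ∀ i, c (i + 1) = k i + r i := by
    intro i
    have h1 := AddSubgroup.card_eq_card_quotient_mul_card_addSubgroup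
      (HSp.coMap H p (RSmap j (X.d i))).ker
    rw [Nat.card_congr (QuotientAddGroup.quotientKerEquivRange
      (HSp.coMap H p (RSmap j (X.d i)))).toEquiv, hr, hk, hc, ← pow_add] at h1
    have h2 := Nat.pow_right_injective hp.two_le h1
    omega
  have hrk : ∀ i, r (i + 1) ≤ k i := by
    intro i
    have hle : (HSp.coMap H p (RSmap j (X.d (i + 1)))).range ≤
        (HSp.coMap H p (RSmap j (X.d i))).ker := by
      rintro y ⟨x, rfl⟩
      obtain ⟨x, rfl⟩ := FinAB_surj p j x
      rw [AddMonoidHom.mem_ker]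
      change FinAB_mk p j (X.d i (X.d (i + 1) x)) = 0
      rw [X.dd]
      exact map_zero (QuotientAddGroup.mk' (HSp.CoS H p (RS j (X.P i))))
    have hd := AddSubgroup.card_dvd_of_le hle
    rw [hr, hk] at hd
    exact (Nat.pow_dvd_pow_iff_le_right hp.one_lt).1 hd
  have hr0 : r 0 ≤ c 0 := by
    have hd := AddSubgroup.card_addSubgroup_dvd_card (HSp.coMap H p (RSmap j (X.d 0))).range
    rw [hr, hc] at hd
    exact (Nat.pow_dvd_pow_iff_le_right hp.one_lt).1 hd
  let bt : ℕ → ℕ := fun i => match i with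
    | 0 => c 0 - r 0
    | i + 1 => k i - r (i + 1)
  have hb0 : c 0 = bt 0 + r 0 := (Nat.sub_add_cancel hr0).symm
  have hb1 : ∀ i, c (i + 1) = bt (i + 1) + r (i + 1) + r i := by
    intro i
    have h1 : bt (i + 1) + r (i + 1) = k i := Nat.sub_add_cancel (hrk i)
    rw [h1, hck]
  have hB : HSp.IsBettiP H p (fun i => RS j (X.P i)) (fun i => RSmap j (X.d i)) bt := by
    constructor
    · change Nat.card (HSp.CoV H p (RS j (X.P 0))) =
        p ^ bt 0 * Nat.card (HSp.coMap H p (RSmap j (X.d 0))).range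
      rw [hc, hr, ← pow_add, ← hb0]
    · intro i
      change Nat.card (HSp.coMap H p (RSmap j (X.d i))).ker =
        p ^ bt (i + 1) * Nat.card (HSp.coMap H p (RSmap j (X.d (i + 1)))).range
      rw [hk, hr, ← pow_add]
      congr 1
      exact (Nat.sub_add_cancel (hrk i)).symm
  -- the Euler characteristic is zero
  obtain ⟨h, hh0, hh⟩ := hN (j g)
  have hsum : ∑ i ∈ Finset.range (2 * K), (-1 : ℤ) ^ i * (bt i : ℤ) = 0 := by
    refine hBSum H ⟨g, hg⟩ (by rw [‹Nat.card H = p›]; exact hp.one_lt) g hg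
      (fun i => RS j (X.P i)) (fun i => RSmap j (X.d i)) (fun i => RSmap j (h i)) ?_ ?_ ?_ K hK p hp
      (by rw [‹Nat.card H = p›]) bt hB
    · intro i x
      exact X.dd i x
    · intro x
      rw [sub_smul, one_smul, RS_of_smul]
      exact hh0 x
    · intro i x
      rw [sub_smul, one_smul, RS_of_smul]
      exact hh i x
  have hsc : ∑ i ∈ Finset.range (2 * K), (-1 : ℤ) ^ i * (c i : ℤ) = 0 := by
    rcases Nat.eq_zero_or_pos K with hK0 | hK0
    · subst hK0
      simp
    · obtain ⟨m, hm⟩ : ∃ m, 2 * K = m + 1 := ⟨2 * K - 1, by omega⟩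
      have hrm : r m = 0 := by
        have h1 : Subsingleton (X.P (m + 1)) := hK (m + 1) (by omega)
        have h2 : Nat.card (HSp.coMap H p (RSmap j (X.d m))).range = 1 := by
          have h3 : Subsingleton (HSp.coMap H p (RSmap j (X.d m))).range := by
            constructor
            rintro ⟨y, x, rfl⟩ ⟨y', x', rfl⟩
            obtain ⟨x, rfl⟩ := FinAB_surj p j x
            obtain ⟨x', rfl⟩ := FinAB_surj p j x'
            rw [Subsingleton.elim x x']
          exact Nat.card_of_subsingleton ⟨0, 0, map_zero _⟩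
        rw [hr, ← pow_zero p] at h2
        exact Nat.pow_right_injective hp.two_le h2
      rw [hm, FinAB_altsum c bt r hb0 hb1 m, hrm, ← hm, hsum]
      simp
  rw [FinAB_split] at hsc
  have hcc : ∑ i : Fin K, c (2 * i) = ∑ i : Fin K, c (2 * i + 1) := by
    rw [← Finset.sum_range (fun i => c (2 * i)), ← Finset.sum_range (fun i => c (2 * i + 1))]
    exact_mod_cast sub_eq_zero.1 hsc
  -- comparison
  have hE := FinAB_N_congr p j e
  rw [FinAB_N_prod, FinAB_N_prod, FinAB_N_pi p j (fun k : Fin K => X.P (2 * k)),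
    FinAB_N_pi p j (fun k : Fin K => X.P (2 * k + 1)), FinAB_N_pi p j (fun _ : Fin a => ZG G),
    FinAB_N_pi p j (fun _ : Fin b => ZG G)] at hE
  have h1 : ∏ k : Fin K, FinAB_N p j (X.P (2 * k)) = p ^ ∑ i : Fin K, c (2 * i) := by
    rw [← Finset.prod_pow_eq_pow_sum]
    exact Finset.prod_congr rfl fun i _ => hc (2 * i)
  have h2 : ∏ k : Fin K, FinAB_N p j (X.P (2 * k + 1)) = p ^ ∑ i : Fin K, c (2 * i) := by
    rw [hcc, ← Finset.prod_pow_eq_pow_sum]
    exact Finset.prod_congr rfl fun i _ => hc (2 * i + 1)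
  rw [h1, h2, Finset.prod_const, Finset.prod_const, Finset.card_univ, Finset.card_univ,
    Fintype.card_fin, Fintype.card_fin] at hE
  have h3 := Nat.eq_of_mul_eq_mul_left (Nat.pow_pos hp.pos) hE
  exact Nat.pow_right_injective (FinAB_q p j hp) h3

end

theorem sFinAB (hBSum : HEp.S_BSum) (hRSfp : HEp.S_RSfp) : S_FinAB := by
  intro G _ _ hG X hN K hK a b e
  obtain ⟨e⟩ := e
  have hp : (Nat.card G).minFac.Prime := Nat.minFac_prime (by omega)
  have : Fact (Nat.card G).minFac.Prime := ⟨hp⟩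
  obtain ⟨g, hg⟩ := exists_prime_orderOf_dvd_card' (Nat.card G).minFac (Nat.minFac_dvd (Nat.card G))
  have hc : Nat.card (Subgroup.zpowers g) = (Nat.card G).minFac := by
    rw [Nat.card_zpowers, hg]
  refine FinAB_main (Nat.card G).minFac (Subgroup.zpowers g).subtype hBSum hRSfp
    (Subgroup.subtype_injective _) ⟨g, Subgroup.mem_zpowers g⟩ ?_ hp hc X hN K hK a b e
  rintro ⟨x, n, rfl⟩
  exact ⟨n, rfl⟩

end HAx
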