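import Pool.Agent.Lib.MP_181146_gt.HA.SpecA4

set_option autoImplicit false

/-!
# Project HA, module FlatL: a field of characteristic zero is flat over `F`

`K = F[1/n, n ≠ 0]` is reduced and artinian, so it is semisimple and all its modules are flat.
-/

namespace HAx

open scoped nonZeroDivisors

private theorem FlatL_art (F : Type) [CommRing F] [Module.Finite ℤ F] :
    IsArtinianRing (Localization (Algebra.algebraMapSubmonoid F ℤ⁰)) := by
  have h1 : IsArtinianRing (FractionRing ℤ) := inferInstance
  have h2 : Module.Finite (Localization ℤ⁰)
      (Localization (Algebra.algebraMapSubmonoid F ℤ⁰)) :=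
    Module.Finite.of_isLocalization ℤ F ℤ⁰
  exact IsArtinianRing.of_finite (FractionRing ℤ) _

theorem sFlatL : S_FlatL := by
  intro F _ _ _ L _ _ e
  letI : Algebra F L := e.toAlgebra
  change Module.Flat F L
  let M := Algebra.algebraMapSubmonoid F ℤ⁰
  let K := Localization M
  have hart : IsArtinianRing K := FlatL_art F
  have hred : IsReduced K := isReduced_localizationPreserves M K inferInstance
  have hss : IsSemisimpleRing K := IsArtinianRing.isSemisimpleRing_of_isReduced K
  have hu : ∀ y : M, IsUnit (e y) := by
    rintro ⟨y, n, hn, rfl⟩
    have hn0 : n ≠ 0 := nonZeroDivisors.ne_zero hn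
    change IsUnit (e (algebraMap ℤ F n))
    rw [eq_intCast, map_intCast]
    exact isUnit_iff_ne_zero.2 (Int.cast_ne_zero.2 hn0)
  letI : Algebra K L := (IsLocalization.lift (S := K) hu).toAlgebra
  have hst : IsScalarTower F K L := IsScalarTower.of_algebraMap_eq' (by
    change e = (IsLocalization.lift (S := K) hu).comp (algebraMap F K)
    exact (IsLocalization.lift_comp hu).symm)
  have hpr : Module.Projective K L := Module.projective_of_isSemisimpleRing K L
  have hfl : Module.Flat F K := IsLocalization.flat K M
  exact Module.Flat.trans F K L

end HAx
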