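import Pool.Agent.Lib.MP_181146_gt.HA.GDx
import Pool.Agent.Lib.MP_181146_gt.HX.All

set_option autoImplicit false

/-!
# Project HA, module GDxA: `S_GDx` from the final statement of part V
-/

namespace HAx

theorem pRelV : HTx.S_RelV :=
  HTx.sRelV HPx.pMuA HPx.pCapD HPx.pT1 HPx.pTwD HPx.pTw3 HPx.pTw4 HPx.pTwG HPx.pVtx HPx.pUnB

theorem pGDx (hVF : HVx.S_VF) : S_GDx := sGDx hVF pRelV HXx.pBcX HXx.pXChY

end HAx
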