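import Pool.Agent.Lib.MP_181146_gt.HA.DefsA2
import Pool.Agent.Lib.MP_181146_gt.HR.DefsQ
import Pool.Agent.Lib.MP_181146_gt.HM.DefsE

/-!
# Project HA (part A): the operator `κ(Y)` and the operator `p(Y)` (author helper45)
-/

set_option autoImplicit false

noncomputable section

namespace HAx

open HRx

section

variable {k : Type} [CommRing k] {V : Type} [AddCommGroup V] [Module k V]

lemma Ko_add (Y : ℕ → Module.End k V) (b : ℕ) (ix : ℕ → ℕ) : ∀ (n : ℕ) (κ κ' : (ℕ → ℕ) → ℤ),
    Ko Y b ix n (fun a => κ a + κ' a) = Ko Y b ix n κ + Ko Y b ix n κ'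
  | 0, κ, κ' => by
    change (κ 0 + κ' 0) • (1 : Module.End k V) = κ 0 • 1 + κ' 0 • 1
    rw [add_smul]
  | n + 1, κ, κ' => by
    change ∑ j ∈ Finset.range (b + 1), Ko Y b ix n (fun a => κ (Function.update a (ix n) j) +
      κ' (Function.update a (ix n) j)) * Y (ix n) ^ j = _
    rw [Finset.sum_congr rfl (fun j _ => by
      rw [Ko_add Y b ix n (fun a => κ (Function.update a (ix n) j)), add_mul]),
      Finset.sum_add_distrib]
    rfl

lemma Ko_zero (Y : ℕ → Module.End k V) (b : ℕ) (ix : ℕ → ℕ) : ∀ n : ℕ,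
    Ko Y b ix n (fun _ => 0) = 0
  | 0 => zero_smul _ _
  | n + 1 => by
    change ∑ j ∈ Finset.range (b + 1), Ko Y b ix n (fun _ => 0) * Y (ix n) ^ j = 0
    rw [Ko_zero Y b ix n]
    exact Finset.sum_eq_zero fun j _ => zero_mul _

lemma Ko_sum (Y : ℕ → Module.End k V) (b : ℕ) (ix : ℕ → ℕ) (n : ℕ) {ι : Type} (s : Finset ι)
    (κ : ι → (ℕ → ℕ) → ℤ) :
    Ko Y b ix n (fun a => ∑ i ∈ s, κ i a) = ∑ i ∈ s, Ko Y b ix n (κ i) := by
  classical
  induction s using Finset.induction_on with
  | empty =>
    simp only [Finset.sum_empty]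
    exact Ko_zero Y b ix n
  | insert i s hi ih =>
    rw [Finset.sum_insert hi, ← ih, ← Ko_add]
    congr 1
    funext a
    exact Finset.sum_insert hi

/-- The operator of one monomial. -/
lemma Ko_mono (Y : ℕ → Module.End k V) (b : ℕ) (ix : ℕ → ℕ) (t : ℕ → ℕ) (ht : ∀ i, t i ≤ b)
    (c : ℤ) : ∀ (n : ℕ), (∀ i < n, ∀ j < n, ix i = ix j → i = j) →
    ∀ (κ : (ℕ → ℕ) → ℤ), (∀ a, κ a = if ∀ l < n, a (ix l) = t (ix l) then c else 0) →
    Ko Y b ix n κ = c • (List.ofFn fun l : Fin n => Y (ix l) ^ t (ix l)).prod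
  | 0, _, κ, hκ => by
    change κ 0 • (1 : Module.End k V) = _
    rw [hκ, if_pos (fun l hl => absurd hl (Nat.not_lt_zero l)), List.ofFn_zero, List.prod_nil]
  | n + 1, hix, κ, hκ => by
    change ∑ j ∈ Finset.range (b + 1), Ko Y b ix n (fun a => κ (Function.update a (ix n) j)) *
      Y (ix n) ^ j = _
    have hne : ∀ l < n, ix l ≠ ix n := fun l hl h =>
      absurd (hix l (Nat.lt_succ_of_lt hl) n (Nat.lt_succ_self n) h) (Nat.ne_of_lt hl)
    have h0 : ∀ j, j ≠ t (ix n) → Ko Y b ix n (fun a => κ (Function.update a (ix n) j)) *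
        Y (ix n) ^ j = 0 := by
      intro j hj
      have : (fun a => κ (Function.update a (ix n) j)) = fun _ => 0 := by
        funext a
        rw [hκ, if_neg]
        intro h
        have := h n (Nat.lt_succ_self n)
        rw [Function.update_self] at this
        exact hj this
      rw [this, Ko_zero, zero_mul]
    rw [Finset.sum_eq_single (t (ix n)) (fun j _ hj => h0 j hj) (fun h =>
      absurd (Finset.mem_range.2 (Nat.lt_succ_of_le (ht (ix n)))) h)]
    rw [Ko_mono Y b ix t ht c n (fun i hi j hj => hix i (Nat.lt_succ_of_lt hi) j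
      (Nat.lt_succ_of_lt hj)) _ (fun a => ?_)]
    · rw [List.ofFn_succ', List.concat_eq_append, List.prod_append, List.prod_singleton,
        smul_mul_assoc]
      rfl
    · rw [hκ]
      refine if_congr ?_ rfl rfl
      constructor
      · intro h l hl
        have := h l (Nat.lt_succ_of_lt hl)
        rwa [Function.update_of_ne (hne l hl)] at this
      · intro h l hl
        rcases Nat.lt_succ_iff_lt_or_eq.1 hl with hl | rfl
        · rw [Function.update_of_ne (hne l hl)]
          exact h l hl
        · rw [Function.update_self]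

end

section

variable {k : Type} [CommRing k] {m : ℕ}

/-- The identity on sequences. -/
def zE (D : HMx.DM k m) : (toR D).Sq ≃+ (∀ j, D.toZ.D j) := AddEquiv.refl ((toR D).Sq)

lemma zE_tY (D : HMx.DM k m) (i : Fin m) (x : (toR D).Sq) :
    zE D ((toR D).tY i x) = D.toZ.Yt i (zE D x) := by
  funext j
  exact congrArg (fun f : D.D (j + 1) →ₗ[k] D.D j => f (x (j + 1))) (toR_Y D i i.2 j)

lemma zE_pow (D : HMx.DM k m) (i : Fin m) (n : ℕ) : ∀ x : (toR D).Sq,
    zE D (((toR D).tY i ^ n) x) = (D.toZ.Yt i ^ n) (zE D x) := by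
  induction n with
  | zero => exact fun x => rfl
  | succ n ih =>
    intro x
    rw [pow_succ, pow_succ, Module.End.mul_apply, Module.End.mul_apply, ih, zE_tY]

lemma zE_list (D : HMx.DM k m) (s : Fin m →₀ ℕ) (L : List (Fin m)) : ∀ x : (toR D).Sq,
    zE D ((L.map fun i : Fin m => (toR D).tY i ^ s i).prod x) =
      (L.map fun i => D.toZ.Yt i ^ s i).prod (zE D x) := by
  induction L with
  | nil => exact fun x => rfl
  | cons a L ih =>
    intro x
    rw [List.map_cons, List.map_cons, List.prod_cons, List.prod_cons, Module.End.mul_apply,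
      Module.End.mul_apply, ← ih, zE_pow]

/-- `κ(Y)` and `p(Y)`. -/
theorem koEv (D : HMx.DM k m) (p : MvPolynomial (Fin m) ℤ) (b : ℕ)
    (hp : ∀ s ∈ p.support, ∀ i, s i ≤ b) (x : (toR D).Sq) :
    zE D (Ko (toR D).tY b (rv m) m (kcf p) x) = D.toZ.ev p (zE D x) := by
  classical
  have hrv : ∀ l < m, rv m l < m := by
    intro l hl
    unfold rv
    rw [if_pos hl]
    omega
  have hrr : ∀ l < m, rv m (rv m l) = l := by
    intro l hl
    have h1 := hrv l hl
    unfold rv at h1 ⊢
    rw [if_pos hl] at h1 ⊢
    rw [if_pos h1]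
    omega
  -- the coefficients
  have h1 : kcf p = fun a => ∑ s ∈ p.support,
      if ∀ l < m, a (rv m l) = (if h : rv m l < m then s ⟨rv m l, h⟩ else 0) then p.coeff s else 0 := by
    funext a
    unfold kcf
    have h2 : ∀ s : Fin m →₀ ℕ, (∀ l < m, a (rv m l) = (if h : rv m l < m then s ⟨rv m l, h⟩
        else 0)) ↔ s = Finsupp.equivFunOnFinite.symm (fun i : Fin m => a i) := by
      intro s
      constructor
      · intro h
        refine Finsupp.ext fun i => ?_
        have := h (rv m i) (hrv i i.2)
        rw [hrr i i.2, dif_pos i.2] at this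
        exact this.symm
      · rintro rfl l hl
        rw [dif_pos (hrv l hl)]
        rfl
    simp only [h2]
    by_cases h : Finsupp.equivFunOnFinite.symm (fun i : Fin m => a i) ∈ p.support
    · rw [Finset.sum_eq_single_of_mem _ h (fun s _ hs => if_neg hs), if_pos rfl]
    · rw [MvPolynomial.notMem_support_iff.1 h]
      refine (Finset.sum_eq_zero fun s hs => if_neg ?_).symm
      rintro rfl
      exact h hs
  have h3 : ∀ s ∈ p.support, zE D (Ko (toR D).tY b (rv m) m (fun a =>
      if ∀ l < m, a (rv m l) = (if h : rv m l < m then s ⟨rv m l, h⟩ else 0) then p.coeff s else 0) x) =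
      (p.coeff s • D.toZ.pw s) (zE D x) := by
    intro s hs
    rw [Ko_mono (toR D).tY b (rv m) (fun i => if h : i < m then s ⟨i, h⟩ else 0) ?_ (p.coeff s) m ?_ _
      (fun a => rfl), LinearMap.smul_apply, LinearMap.smul_apply, map_zsmul]
    · congr 1
      -- reverse the list
      have hl : (List.ofFn fun l : Fin m => (toR D).tY (rv m l) ^
          (if h : rv m l < m then s ⟨rv m l, h⟩ else 0)) =
          (List.ofFn fun i : Fin m => (toR D).tY i ^ s i).reverse := by
        refine List.ext_getElem ?_ ?_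
        · rw [List.length_reverse, List.length_ofFn, List.length_ofFn]
        · intro l h1 h2
          have hlm : l < m := by
            rwa [List.length_ofFn] at h1
          rw [List.getElem_reverse, List.getElem_ofFn, List.getElem_ofFn]
          have e : rv m l = m - 1 - l := if_pos hlm
          have e' : (List.ofFn fun i : Fin m => (toR D).tY i ^ s i).length - 1 - l = rv m l := by
            rw [List.length_ofFn, e]
          simp only [e', dif_pos (hrv l hlm)]
      rw [hl]
      have hc : (List.ofFn fun i : Fin m => (toR D).tY i ^ s i).Pairwise Commute := by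
        rw [List.pairwise_ofFn]
        intro i j _
        refine Commute.pow_pow ?_ _ _
        refine LinearMap.ext fun x => ?_
        funext l
        exact toR_comm D i j l _
      rw [← (List.reverse_perm _).symm.prod_eq' hc]
      unfold HMx.DM.pw
      rw [List.ofFn_eq_map, List.ofFn_eq_map]
      exact zE_list D s _ x
    · intro i
      split_ifs with h
      · exact hp s hs ⟨i, h⟩
      · exact Nat.zero_le b
    · intro i hi j hj h
      have := congrArg (rv m) h
      rwa [hrr i hi, hrr j hj] at this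
  rw [h1, Ko_sum, LinearMap.sum_apply, map_sum, HMx.DM.ev, LinearMap.sum_apply]
  exact Finset.sum_congr rfl h3

/-- The norm form acts as zero. -/
theorem ko_zero (D : HMx.DM k m) (f : Polynomial ℤ) (b : ℕ)
    (hh : (HMx.kapP f m).IsHomogeneous m) (hb : m ≤ b) (hD : HMx.DM.KL f D.toZ) :
    Ko (toR D).tY b (rv m) m (kcf (HMx.kapP f m)) = 0 := by
  refine LinearMap.ext fun x => (zE D).injective ?_
  rw [koEv D _ b ?_ x, show D.toZ.ev (HMx.kapP f m) = 0 from hD, LinearMap.zero_apply,
    LinearMap.zero_apply, map_zero]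
  intro s hs i
  have h1 : ∑ i, s i = m := by
    have := hh (MvPolynomial.mem_support_iff.1 hs)
    rw [Finsupp.weight_apply] at this
    refine Eq.trans ?_ this
    rw [Finsupp.sum_fintype _ _ (fun _ => by rfl)]
    exact Finset.sum_congr rfl fun i _ => by
      change s i = s i • 1
      rw [smul_eq_mul, mul_one]
  exact ((Finset.single_le_sum (f := fun i => s i) (fun _ _ => Nat.zero_le _)
    (Finset.mem_univ i)).trans h1.le).trans hb

end

end HAx
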