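import Pool.Agent.Lib.MP_181146_gt.HA.SpecH
import Pool.Agent.Lib.MP_181146_gt.HA.KoEv
import Pool.Agent.Lib.MP_181146_gt.HM.All

/-!
# Project HA (part A): the kernel of the norm form
-/

set_option autoImplicit false

noncomputable section

namespace HAx

open HMx HRx

private theorem kk_fin {m : ℕ} (d : ℕ) : {β : Fin m → ℕ | ∑ i, β i = d}.Finite := by
  refine (Finset.finite_toSet (Fintype.piFinset fun _ : Fin m => Finset.range (d + 1))).subset ?_
  intro β hβ
  rw [Finset.mem_coe, Fintype.mem_piFinset]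
  intro i
  have h1 : ∑ i, β i = d := hβ
  have h2 : β i ≤ ∑ i, β i := Finset.single_le_sum (fun _ _ => Nat.zero_le _) (Finset.mem_univ i)
  rw [Finset.mem_range]
  omega

/-- The functions of degree `d` as elements of the inverse system. -/
private def kk_e (m c : ℕ) (r : Fin m → Fin m → ℤ) (d : ℕ) :
    (DSt ℤ m c r ∅).toZ.D d →+ In m where
  toFun u := (Finsupp.ofSupportFinite (u : fn ℤ m ∅ d).1
    ((kk_fin d).subset fun β h => ((u : fn ℤ m ∅ d).2 β h).1) : (Fin m → ℕ) →₀ ℤ)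
  map_zero' := Finsupp.ext fun _ => rfl
  map_add' _ _ := Finsupp.ext fun _ => rfl

/-- The evaluation at an exponent. -/
private def kk_v {m : ℕ} (β : Fin m → ℕ) : In m →+ ℤ where
  toFun u := u.v β
  map_zero' := rfl
  map_add' _ _ := rfl

private theorem kk_smul {m : ℕ} (p : Lm m) (u : In m) (β : Fin m → ℕ) :
    (p • u).v β = ∑ s ∈ p.support, p.coeff s * u.v (β + s) := by
  have h1 : p • u = ∑ s ∈ p.support, (MvPolynomial.monomial s (p.coeff s) : Lm m) • u := by
    rw [← Finset.sum_smul, ← p.as_sum]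
  rw [h1]
  change kk_v β (∑ s ∈ p.support, (MvPolynomial.monomial s (p.coeff s) : Lm m) • u) = _
  rw [map_sum]
  exact Finset.sum_congr rfl fun s _ => In.smul_v s _ u β

private theorem kk_kapO (f : Polynomial ℤ) (m : ℕ) (u : (Fin m → ℕ) → ℤ) (β : Fin m → ℕ) :
    kapO f m u β = ∑ s ∈ (kapP f m).support, (kapP f m).coeff s * u (β + s) := by
  change (∑ s ∈ (kapP f m).support, (kapP f m).coeff s •
    (LinearMap.proj (β + (s : Fin m → ℕ)) : ((Fin m → ℕ) → ℤ) →ₗ[ℤ] ℤ)) u = _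
  rw [LinearMap.sum_apply]
  rfl

private theorem kk_sum {f : Polynomial ℤ} {m : ℕ} (hh : (kapP f m).IsHomogeneous m)
    (s : Fin m →₀ ℕ) (hs : s ∈ (kapP f m).support) : ∑ i, s i = m := by
  have := hh (MvPolynomial.mem_support_iff.1 hs)
  rw [Finsupp.weight_apply] at this
  refine Eq.trans ?_ this
  rw [Finsupp.sum_fintype _ _ (fun _ => by rfl)]
  exact Finset.sum_congr rfl fun i _ => by
    change s i = s i • 1
    rw [smul_eq_mul, mul_one]

private theorem kk_main (f : Polynomial ℤ) (m b c : ℕ) (r : Fin m → Fin m → ℤ) (hb : m ≤ b)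
    (hh : (kapP f m).IsHomogeneous m) (x : (toR (DSt ℤ m c r ∅)).Sq) (d : ℕ) :
    (Ko (toR (DSt ℤ m c r ∅)).tY b (rv m) m (kcf (kapP f m)) x d : fn ℤ m ∅ d).1 =
      kapO f m (x (d + m) : fn ℤ m ∅ (d + m)).1 := by
  have h1 := koEv (DSt ℤ m c r ∅) (kapP f m) b (fun s hs i =>
    ((Finset.single_le_sum (f := fun i => s i) (fun _ _ => Nat.zero_le _)
      (Finset.mem_univ i)).trans (kk_sum hh s hs).le).trans hb) x
  have h2 := aEvE m m (DSt ℤ m c r ∅).toZ (In m) (kk_e m c r) (by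
    intro a d x
    refine Finsupp.ext fun β => ?_
    exact (In.X_v a (kk_e m c r (d + 1) x) β).symm) (kapP f m) hh (zE (DSt ℤ m c r ∅) x) d
  rw [← h1] at h2
  funext β
  have h3 := congrArg (kk_v β) h2
  refine Eq.trans ?_ (h3.trans ?_)
  · rfl
  · refine (kk_smul (kapP f m) _ β).trans ?_
    rw [kk_kapO]
    rfl

theorem sKapK : S_KapK := by
  intro f m b c r hf hd hm hb hh
  have key := kk_main f m b c r hb hh
  have k0 : ∀ l (x : (toR (DSt ℤ m c r ∅)).D l) (d : ℕ), d + m ≠ l →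
      (Ko (toR (DSt ℤ m c r ∅)).tY b (rv m) m (kcf (kapP f m)) (Pi.single l x) d : fn ℤ m ∅ d) =
      0 := by
    intro l x d h
    refine Subtype.ext ?_
    rw [key, Pi.single_eq_of_ne h]
    exact map_zero (kapO f m)
  have k1 : ∀ (d : ℕ) (x : (toR (DSt ℤ m c r ∅)).D (d + m)),
      (Ko (toR (DSt ℤ m c r ∅)).tY b (rv m) m (kcf (kapP f m)) (Pi.single (d + m) x) d :
        fn ℤ m ∅ d).1 = kapO f m (x : fn ℤ m ∅ (d + m)).1 := by
    intro d x
    rw [key, Pi.single_eq_same]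
  refine ⟨⟨fun l => AddMonoidHom.mk' (fun u => (⟨(u : (fn ℤ m ∅ l ⊓ LinearMap.ker (kapO f m) :
    Submodule ℤ ((Fin m → ℕ) → ℤ))).1, (u : (fn ℤ m ∅ l ⊓ LinearMap.ker (kapO f m) :
    Submodule ℤ ((Fin m → ℕ) → ℤ))).2.1⟩ : fn ℤ m ∅ l)) (fun _ _ => rfl), fun _ _ _ => rfl,
    ?_⟩, ?_, ?_, ?_⟩
  · intro i j x
    by_cases h : i < m
    · rw [toR_Y _ i h, toR_Y _ i h]
      rfl
    · rw [toR_Y0 _ i h, toR_Y0 _ i h]
      rfl
  · intro l x h
    exact Subtype.ext (congrArg (fun u : fn ℤ m ∅ l => u.1) h)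
  · intro l x
    constructor
    · intro h
      have hx : kapO f m (x : fn ℤ m ∅ l).1 = 0 := by
        by_cases hl : m ≤ l
        · obtain ⟨d, rfl⟩ : ∃ d, l = d + m := ⟨l - m, by omega⟩
          rw [← k1, h]
          rfl
        · funext β
          rw [kk_kapO]
          refine Finset.sum_eq_zero fun s hs => ?_
          by_contra h0
          have h1 : (x : fn ℤ m ∅ l).1 (β + s) ≠ 0 := fun h2 => h0 (by rw [h2, mul_zero])
          have h2 := ((x : fn ℤ m ∅ l).2 (β + s) h1).1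
          have h3 : ∑ i, (β + (s : Fin m → ℕ)) i = ∑ i, β i + ∑ i, s i := by
            simp only [Pi.add_apply, Finset.sum_add_distrib]
          rw [kk_sum hh s hs] at h3
          omega
      exact ⟨(⟨(x : fn ℤ m ∅ l).1, (x : fn ℤ m ∅ l).2, hx⟩ :
        (fn ℤ m ∅ l ⊓ LinearMap.ker (kapO f m) : Submodule ℤ ((Fin m → ℕ) → ℤ))), rfl⟩
    · rintro ⟨y, rfl⟩
      funext d
      by_cases h : d + m = l
      · subst h
        refine Subtype.ext ?_
        rw [k1]
        exact (y : (fn ℤ m ∅ (d + m) ⊓ LinearMap.ker (kapO f m) :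
          Submodule ℤ ((Fin m → ℕ) → ℤ))).2.2
      · exact k0 _ _ d h
  · intro l y
    obtain ⟨w, hw, hwy⟩ := (aKDE f m hf hd hh).2.2.2.2.2 l (y : fn ℤ m ∅ l).1 (y : fn ℤ m ∅ l).2
    refine ⟨(⟨w, hw⟩ : fn ℤ m ∅ (l + m)), ?_⟩
    funext d
    by_cases h : d = l
    · subst h
      refine Subtype.ext ?_
      refine (k1 d _).trans ?_
      rw [Pi.single_eq_same]
      exact hwy
    · rw [Pi.single_eq_of_ne h]
      exact k0 _ _ d (fun h2 => h (Nat.add_right_cancel h2))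

end HAx
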