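import Pool.Agent.Lib.MP_181146_gt.HA.SpecA2

/-!
# Project HA, module Kt: operators which are zero on homology, and telescopes
-/

set_option autoImplicit false

namespace HAx

open HEp HRx HBy

private lemma Kt_s0 {M : Type} [AddCommMonoid M] (z : ℕ →₀ M) :
    Finsupp.mapDomain Nat.succ z 0 = 0 := by
  refine Finsupp.mapDomain_of_notMem_range z 0 ?_
  rintro ⟨n, hn⟩
  exact Nat.succ_ne_zero n hn

private lemma Kt_ss {M : Type} [AddCommMonoid M] (z : ℕ →₀ M) (k : ℕ) :
    Finsupp.mapDomain Nat.succ z (k + 1) = z k :=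
  Finsupp.mapDomain_apply Nat.succ_injective z k

private lemma Kt_ch {R : Type} [CommRing R] {T : GC R} (E : En T) (a : T.V →+ T.V)
    (ha : IsCh T T a) (hc : ∀ x, a (E.e x) = E.e (a x)) :
    IsCh (tel E) (tel E) (tm E E a) := by
  refine ⟨?_, ?_⟩
  · rintro i ⟨x, y⟩ h
    obtain ⟨h1, h2⟩ := (tel_G E i x y).1 h
    rw [tm_apply]
    refine (tel_G E i _ _).2 ⟨fun k => ?_, fun k => ?_⟩
    · rw [Finsupp.mapRange_apply]
      exact ha.1 i _ (h1 k)
    · rw [Finsupp.mapRange_apply]
      exact ha.1 (i - 1) _ (h2 k)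
  · rintro ⟨x, y⟩
    rw [tm_apply, tel_d, tel_d, tm_apply]
    refine Prod.ext ?_ ?_
    · refine Finsupp.ext fun k => ?_
      change Finsupp.mapRange a (map_zero a) _ k = _
      rw [Finsupp.mapRange_apply]
      change a ((Finsupp.mapRange.linearMap (α := ℕ) T.d x) k + y k -
          (Finsupp.lmapDomain T.V R Nat.succ (Finsupp.mapRange.linearMap (α := ℕ) E.e y)) k) =
        (Finsupp.mapRange.linearMap (α := ℕ) T.d (Finsupp.mapRange a (map_zero a) x)) k +
          Finsupp.mapRange a (map_zero a) y k -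
          (Finsupp.lmapDomain T.V R Nat.succ
            (Finsupp.mapRange.linearMap (α := ℕ) E.e (Finsupp.mapRange a (map_zero a) y))) k
      simp only [map_sub, map_add, Finsupp.mapRange.linearMap_apply, Finsupp.mapRange_apply,
        Finsupp.lmapDomain_apply, ha.2]
      congr 1
      cases k with
      | zero => rw [Kt_s0, Kt_s0, map_zero]
      | succ k =>
        rw [Kt_ss, Kt_ss, Finsupp.mapRange_apply, Finsupp.mapRange_apply, Finsupp.mapRange_apply, hc]
    · refine Finsupp.ext fun k => ?_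
      change Finsupp.mapRange a (map_zero a) _ k = _
      rw [Finsupp.mapRange_apply]
      change a (-(Finsupp.mapRange.linearMap (α := ℕ) T.d y) k) =
        -(Finsupp.mapRange.linearMap (α := ℕ) T.d (Finsupp.mapRange a (map_zero a) y)) k
      rw [map_neg, Finsupp.mapRange.linearMap_apply, Finsupp.mapRange.linearMap_apply,
        Finsupp.mapRange_apply, Finsupp.mapRange_apply, Finsupp.mapRange_apply, ha.2]

private lemma Kt_tj {R : Type} [CommRing R] {T : GC R} (E : En T) (a : T.V →+ T.V) (n : ℕ)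
    (x : T.V) : tm E E a (tj E n x) = tj E n (a x) := by
  rw [tj_apply, tj_apply, tm_apply, Finsupp.mapRange_single, Finsupp.mapRange_zero]

theorem sKt (hTelC : HBy.S_TelC) : S_Kt := by
  intro R _ T E a ha hc h0 i t ht
  obtain ⟨h1, h2, -, -⟩ := hTelC R T E
  obtain ⟨n, x, hx, u, hu, hut⟩ := h2 i t ht
  obtain ⟨y, hy, hyx⟩ := h0 i x hx
  have hch := Kt_ch E a ha hc
  refine ⟨tj E n y + tm E E a u, ?_, ?_⟩
  · exact ((tel E).G (i + 1)).add_mem ((h1 n).1 (i + 1) y hy) (hch.1 (i + 1) u hu)
  · rw [map_add]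
    have e1 : (tel E).d (tj E n y) = tj E n (a x) := by
      have e := (h1 n).2 y
      rw [hyx] at e
      exact e.symm
    have e2 : (tel E).d (tm E E a u) = tm E E a t - tj E n (a x) := by
      rw [← hch.2 u, hut, map_sub, Kt_tj]
    rw [e1, e2]
    abel

end HAx
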