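import Pool.Agent.Lib.MP_181146_gt.HA.SpecA3

/-!
# Project HA: Theorem H for telescopes (author helper45)
-/

set_option autoImplicit false

namespace HAx

open HEp HRx HBy

private lemma One_ch {S : Type} [CommRing S] (T : GC S) (a : S) : IsCh T T (smE a T) :=
  ⟨fun i x hx => (T.G i).smul_mem a hx, fun x => (T.d.map_smul a x).symm⟩

private lemma One_tm {S : Type} [CommRing S] (T : GC S) (E : En T) (a : S) :
    tm E E (smE a T) = smE a (tel E) := by
  apply AddMonoidHom.ext
  rintro ⟨x, y⟩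
  rw [tm_apply]
  refine Prod.ext ?_ ?_
  · ext n
    rfl
  · ext n
    rfl

theorem sOne (hZMain : HHx.S_ZMain) (hTelX : HBy.S_TelX) (hECt : HBy.S_ECt) (hRed : HBy.S_Red)
    (hKt : S_Kt) (hEZU : S_EZU) : S_One := by
  intro F G S _ _ _ s φ hg u hu T E hF hP Tb Eb c hc hx hcE hs hug hEZ
  have := hg.noeth
  obtain ⟨U, v, hv⟩ := hECt S T E hF hP
  have hkill : ∀ a : S, (∀ i x, T.Cyc i x → T.Bdy i (a • x)) → ∀ i x, U.Cyc i x →
      U.Bdy i (a • x) := by
    intro a ha i x hxc
    have h1 := hKt S T E (smE a T) (One_ch T a) (fun x => (E.e.map_smul a x).symm) ha i (v.f i x)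
    rw [One_tm] at h1
    have hcyc : (tel E).Cyc i (v.f i x) := ⟨v.fG i x, by
      rw [← v.fd, hxc, map_zero]⟩
    have h2 : (tel E).Bdy i (v.f i (a • x)) := by
      rw [map_smul]
      exact h1 hcyc
    refine hv.1 i (a • x) (fun j => ?_) h2
    rw [map_smul, hxc j, smul_zero]
  have hses : SES (tel E) (tel E) (tel Eb) (smE s (tel E)) (tm E Eb c) := by
    have h := hTelX S S (MonoidAlgebra F G) T T Tb E E Eb (smE s T) c
      (fun x => (E.e.map_smul s x).symm) hcE hx
    rwa [One_tm] at h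
  have hsl : ∀ (a : S) x, tm E Eb c (a • x) = φ a • tm E Eb c x := by
    rintro a ⟨x, y⟩
    refine Prod.ext ?_ ?_
    · ext n
      exact hc a (x n)
    · ext n
      exact hc a (y n)
  obtain ⟨Ub, r, ub, hub, -⟩ := hRed S (MonoidAlgebra F G) φ s hg.surj hg.ker hg.nzd (tel E)
    (tel Eb) (tm E Eb c) hsl hses U v hv
  refine ⟨Ub, ub, hub, ?_⟩
  refine hZMain F G S s φ hg u hu U Ub r (hkill s hs) ?_ ?_
  · intro g i x hxc
    have h := hkill (u g - 1) (fun i x hx => by
      rw [sub_smul, one_smul]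
      exact hug g i x hx) i x hxc
    rwa [sub_smul, one_smul] at h
  · intro L _ _ e
    exact (hEZU S U (tel E) v hv L _).2 (hEZ L e)

end HAx
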