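import Pool.Agent.Lib.MP_181146_gt.HA.SpecA5

/-!
# Project HA: one module `D_c` (author helper45)
-/

set_option autoImplicit false

namespace HAx

open HEp HRx HBy

/-- An operator `a` which is zero on the homology of `T` is zero on the homology of the telescope. -/
lemma killTel (hKt : S_Kt) {S : Type} [CommRing S] (T : GC S) (E : En T) (a : S)
    (ha : ∀ i x, T.Cyc i x → T.Bdy i (a • x)) (i : ℤ) (t : (tel E).V) (ht : (tel E).Cyc i t) :
    (tel E).Bdy i (a • t) := by
  have h1 := hKt S T E (smE a T) ⟨fun i _ hx => (T.G i).smul_mem a hx,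
    fun x => (T.d.map_smul a x).symm⟩ (fun x => (E.e.map_smul a x).symm) ha i t ht
  have h2 : tm E E (smE a T) t = a • t := by
    obtain ⟨x, y⟩ := t
    refine Prod.ext ?_ ?_
    · ext n
      rfl
    · ext n
      rfl
  rwa [h2] at h1

/-- The identity from the telescope of `T` to the telescope of the restriction of `T`. -/
lemma telRst (hTelQ : HBy.S_TelQ) {S B : Type} [CommRing S] [CommRing B] (ρ : S →+* B) (T : GC B)
    (E : En T) : IsQI (tel E) (tel (rstEn ρ E)) (tm E (rstEn ρ E) (rstI ρ T).toAddMonoidHom) :=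
  (hTelQ B S T (rst ρ T) E (rstEn ρ E) (rstI ρ T).toAddMonoidHom (fun x => rfl)).2 (rst_QI ρ T)

/-- The twisted group ring acts on the homology of the telescope through the augmentation. -/
lemma telAug (hKt : S_Kt) (hAugT : S_AugT) {F G : Type} [CommRing F] [CommGroup G]
    (c : HHx.Cocy F G) (T : GC (HHx.TW c)) (E : En T)
    (hs : ∀ i x, T.Cyc i x → T.Bdy i (HHx.TW.s c • x))
    (hu : ∀ g i x, T.Cyc i x → T.Bdy i (HHx.TW.u c g • x - x)) (i : ℤ) (b : HHx.TW c)
    (x : (tel E).V) (hx : (tel E).Cyc i x) :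
    (tel E).Bdy i (b • x - twI c (twA c b) • x) := by
  refine (hAugT F G c (tel E) (killTel hKt T E _ hs) ?_).1 b i x hx
  intro g i x hx
  have h := killTel hKt T E (HHx.TW.u c g - 1) (fun i x hx => by
    rw [sub_smul, one_smul]
    exact hu g i x hx) i x hx
  rwa [sub_smul, one_smul] at h

/-- The identity from the telescope over `TW c` to the telescope over `F` is semilinear on the
homology. -/
lemma telSem (hKt : S_Kt) (hAugT : S_AugT) (hTelQ : HBy.S_TelQ) {F G : Type} [CommRing F]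
    [CommGroup G] (c : HHx.Cocy F G) (T : GC (HHx.TW c)) (E : En T)
    (hs : ∀ i x, T.Cyc i x → T.Bdy i (HHx.TW.s c • x))
    (hu : ∀ g i x, T.Cyc i x → T.Bdy i (HHx.TW.u c g • x - x)) (i : ℤ) (b : HHx.TW c)
    (x : (tel E).V) (hx : (tel E).Cyc i x) :
    (tel (rstEn (twI c) E)).Bdy i (tm E (rstEn (twI c) E) (rstI (twI c) T).toAddMonoidHom (b • x) -
      twA c b • tm E (rstEn (twI c) E) (rstI (twI c) T).toAddMonoidHom x) := by
  obtain ⟨y, hy, hyx⟩ := telAug hKt hAugT c T E hs hu i b x hx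
  have hch := (telRst hTelQ (twI c) T E).1
  refine ⟨tm E (rstEn (twI c) E) (rstI (twI c) T).toAddMonoidHom y, hch.1 _ y hy, ?_⟩
  have h1 := hch.2 y
  have h3 : ∀ (r : F) (x : (tel E).V), tm E (rstEn (twI c) E) (rstI (twI c) T).toAddMonoidHom
      (twI c r • x) = r • tm E (rstEn (twI c) E) (rstI (twI c) T).toAddMonoidHom x := by
    rintro r ⟨x, y⟩
    refine Prod.ext ?_ ?_
    · ext n
      rfl
    · ext n
      rfl
  rw [← h1, hyx, map_sub, h3]

theorem twA_surj (hAugT : S_AugT) {F G : Type} [CommRing F] [CommGroup G] (c : HHx.Cocy F G) :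
    Function.Surjective (twA c) := by
  intro r
  refine ⟨twI c r, ?_⟩
  exact (hAugT F G c
    { V := PUnit
      d := 0
      G := fun _ => ⊤
      dG := fun _ _ _ => Submodule.mem_top
      dd := fun _ => rfl } (fun _ _ _ => ⟨0, Submodule.mem_top, rfl⟩)
    (fun _ _ _ _ => ⟨0, Submodule.mem_top, rfl⟩)).2 r

theorem sOneC (hOne : S_One) (hAugT : S_AugT) (hKt : S_Kt) (hEZs : S_EZs) (hRstT : S_RstT)
    (hTelQ : HBy.S_TelQ) (hTGood : HHx.S_TGood) : S_OneC := by
  intro F G _ _ _ _ _ _ c T E hF hP Tb Eb q hq hx hqE hs hu TZ Ez p hp hpq hpE hEZ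
  have tf : ∀ (n : ℤ) (x : F), n ≠ 0 → n • x = 0 → x = 0 := fun n x hn h =>
    (smul_eq_zero.1 h).resolve_left hn
  have hg := (hTGood F G tf c).1
  have h1 : (tel Eb).HasEC 0 := by
    refine hOne F G (HHx.TW c) (HHx.TW.s c) (HHx.TW.phi c) hg (HHx.TW.u c) (HHx.TW.phi_u c) T E hF
      hP Tb Eb q hq hx hqE hs hu (fun L _ _ e => ?_)
    exact (hEZs (HHx.TW c) F (twA c) (twA_surj hAugT c) (tel E) (tel (rstEn (twI c) E))
      (tm E (rstEn (twI c) E) (rstI (twI c) T).toAddMonoidHom) (telRst hTelQ (twI c) T E)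
      (fun i b x hx => telSem hKt hAugT hTelQ c T E hs hu i b x hx) L e).2 (hEZ L e)
  refine hRstT F G (tel Eb) (tel Ez) (tm Ez Eb p) ?_ ?_ h1
  · rintro a ⟨x, y⟩
    refine Prod.ext ?_ ?_
    · ext n
      exact hp a (x n)
    · ext n
      exact hp a (y n)
  · exact (hTelQ (ZG G) (MonoidAlgebra F G) TZ Tb Ez Eb p hpE).2 hpq

theorem sEZC1 (hEZs : S_EZs) (hTelQ : HBy.S_TelQ) : S_EZC1 := by
  intro F G _ _ c T E T1 E1 ι hι hq hE L _ e h1
  have hq' : IsQI T1 (rst (twI c) T) ((rstI (twI c) T).toAddMonoidHom.comp ι) := hq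
  have h2 := (hTelQ F F T1 (rst (twI c) T) E1 (rstEn (twI c) E)
    ((rstI (twI c) T).toAddMonoidHom.comp ι) (fun x => hE x)).2 hq'
  have h3 := hEZs F F (RingHom.id F) Function.surjective_id (tel E1) (tel (rstEn (twI c) E)) _ h2
    (fun i b x hx => by
      have : tm E1 (rstEn (twI c) E) ((rstI (twI c) T).toAddMonoidHom.comp ι) (b • x) =
          b • tm E1 (rstEn (twI c) E) ((rstI (twI c) T).toAddMonoidHom.comp ι) x := by
        obtain ⟨x, y⟩ := x
        refine Prod.ext ?_ ?_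
        · ext n
          exact hι b (x n)
        · ext n
          exact hι b (y n)
      rw [this, RingHom.id_apply, sub_self]
      exact ⟨0, Submodule.zero_mem _, map_zero _⟩) L e
  rw [RingHom.comp_id] at h3
  exact h3.1 h1

theorem sEZC2 (hEZ2 : S_EZ2) (hEZfin : S_EZfin) (hEZf : S_EZf) (hAugT : S_AugT) (hKt : S_Kt)
    (hFlatL : S_FlatL) (hECt : HBy.S_ECt) (hTelQ : HBy.S_TelQ) (hTGood : HHx.S_TGood) :
    S_EZC2 := by
  intro F G _ _ _ _ _ _ c T E hF hP hs hu X E2 a b hb hx ha hbE h0 L _ _ e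
  have tf : ∀ (n : ℤ) (x : F), n ≠ 0 → n • x = 0 → x = 0 := fun n x hn h =>
    (smul_eq_zero.1 h).resolve_left hn
  have hg := (hTGood F G tf c).1
  have := hg.noeth
  have hFn : IsNoetherianRing F := IsNoetherianRing.of_finite ℤ F
  obtain ⟨hfin, N, hN⟩ := hEZfin (HHx.TW c) (tel E) (hECt (HHx.TW c) T E hF hP)
  have key := hEZf (HHx.TW c) F (twA c) (twA_surj hAugT c) (tel E) (tel (rstEn (twI c) E))
    (tm E (rstEn (twI c) E) (rstI (twI c) T).toAddMonoidHom) (telRst hTelQ (twI c) T E)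
    (fun i b x hx => telSem hKt hAugT hTelQ c T E hs hu i b x hx)
  let b' : X.V →ₗ[F] (rst (twI c) T).V :=
    { toFun := fun x => rstI (twI c) T (b x)
      map_add' := fun x y => by rw [map_add, map_add]
      map_smul' := fun r x => hb r x }
  have hx' : SES X X (rst (twI c) T) a.toAddMonoidHom b'.toAddMonoidHom :=
    { cha := hx.cha
      chb := hx.chb
      inj := hx.inj
      ba := hx.ba
      ex := hx.ex
      sur := hx.sur }
  exact hEZ2 F X (rst (twI c) T) E2 (rstEn (twI c) E) a b' hx' ha (fun x => hbE x) h0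
    (fun i => (key i).1.1 (hfin i)) N (fun i hi => (key i).2.1 (hN i hi)) L e (hFlatL F L e)

end HAx
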