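import Pool.Agent.Lib.MP_181146_gt.HA.SpecE

/-!
# Project HA, module PSx: reduction modulo `X` of the modules of functions
-/

set_option autoImplicit false

noncomputable section

namespace HAx

open HMx

private lemma PSx_zo {F : Type} [CommRing F] {m : ℕ} (c : ℕ) (r : Fin m → Fin m → F) (a : Fin m)
    (u : (Fin m → ℕ) → PowerSeries F) (β : Fin m → ℕ) :
    PowerSeries.constantCoeff (zo (PowerSeries F) m c (rC r) a u β) =
      zo F m c r a (fun β => PowerSeries.constantCoeff (u β)) β := by
  unfold zo
  rw [LinearMap.sum_apply, LinearMap.sum_apply, Finset.sum_apply, Finset.sum_apply, map_sum]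
  refine Finset.sum_congr rfl (fun l _ => ?_)
  change PowerSeries.constantCoeff (rC r a l * u (β + Pi.single l 1)) =
    r a l * PowerSeries.constantCoeff (u (β + Pi.single l 1))
  rw [map_mul, rC, PowerSeries.constantCoeff_C]

private lemma PSx_yo {F : Type} [CommRing F] {m : ℕ} (c : ℕ) (r : Fin m → Fin m → F)
    (S : Finset (Fin m)) (a : Fin m) (u : (Fin m → ℕ) → PowerSeries F) (β : Fin m → ℕ) :
    PowerSeries.constantCoeff (yo (PowerSeries F) m c (rC r) S a u β) =
      yo F m c r S a (fun β => PowerSeries.constantCoeff (u β)) β := by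
  unfold yo
  split_ifs
  · rw [LinearMap.neg_apply, LinearMap.neg_apply, Pi.neg_apply, Pi.neg_apply, map_neg, PSx_zo]
  · rfl

/-- The reduction. -/
private def PSx_red {F : Type} [CommRing F] {m : ℕ} (S : Finset (Fin m)) (j : ℕ) :
    fn (PowerSeries F) m S j →+ fn F m S j where
  toFun u := ⟨fun β => PowerSeries.constantCoeff (u.1 β), fun β h => u.2 β (fun h0 => h (by
    change PowerSeries.constantCoeff (u.1 β) = 0
    rw [h0, map_zero]))⟩
  map_zero' := Subtype.ext (funext fun β => map_zero _)
  map_add' u v := Subtype.ext (funext fun β => map_add _ _ _)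

theorem sPSx : S_PSx := by
  intro F _ m c r S
  classical
  let a : DM.Hom (DSt (PowerSeries F) m c (rC r) S) (DSt (PowerSeries F) m c (rC r) S) :=
    { f := fun j => DistribSMul.toAddMonoidHom _ (PowerSeries.X : PowerSeries F)
      fY := fun i j x => (((DSt (PowerSeries F) m c (rC r) S).Y i j).map_smul _ x).symm }
  let b : DM.Hom (DSt (PowerSeries F) m c (rC r) S) (DSt F m c r S) :=
    { f := fun j => PSx_red S j
      fY := fun i j x => Subtype.ext (funext fun β => PSx_yo c r S i x.1 β) }
  refine ⟨a, b, ⟨?_, ?_, ?_, ?_⟩, fun j x => rfl, fun j x β => rfl, ?_⟩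
  · intro j x hx
    apply Subtype.ext
    funext β
    have h : (PowerSeries.X : PowerSeries F) * x.1 β = 0 := congrFun (congrArg Subtype.val hx) β
    apply PowerSeries.ext
    intro n
    have h1 := congrArg (PowerSeries.coeff (n + 1)) h
    rw [PowerSeries.coeff_succ_X_mul, map_zero] at h1
    rw [h1]
    rfl
  · intro j x
    apply Subtype.ext
    funext β
    change PowerSeries.constantCoeff ((PowerSeries.X : PowerSeries F) * x.1 β) = 0
    rw [map_mul, PowerSeries.constantCoeff_X, zero_mul]
  · intro j x hx
    have h : ∀ β, (PowerSeries.X : PowerSeries F) ∣ x.1 β := fun β =>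
      PowerSeries.X_dvd_iff.mpr (congrFun (congrArg Subtype.val hx) β)
    choose y hy using h
    refine ⟨⟨fun β => if x.1 β = 0 then 0 else y β, fun β hβ => x.2 β (fun h0 => hβ ?_)⟩, ?_⟩
    · change (if x.1 β = 0 then 0 else y β) = 0
      rw [if_pos h0]
    · apply Subtype.ext
      funext β
      change (PowerSeries.X : PowerSeries F) * (if x.1 β = 0 then 0 else y β) = x.1 β
      split_ifs with h0
      · rw [mul_zero, h0]
      · exact (hy β).symm
  · intro j z
    refine ⟨⟨fun β => PowerSeries.C (z.1 β), fun β hβ => z.2 β (fun h0 => hβ ?_)⟩, ?_⟩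
    · change PowerSeries.C (z.1 β) = 0
      rw [h0, map_zero]
    · apply Subtype.ext
      funext β
      exact PowerSeries.constantCoeff_C _
  · intro j g x
    apply Subtype.ext
    funext β
    exact map_mul _ _ _

end HAx
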