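import Pool.Agent.Lib.MP_181146_gt.HA.FinR
import Pool.Agent.Lib.MP_181146_gt.HR.R5c

/-!
# Project HA (part A): the class of the telescope for the functions killed by the norm form
(author helper45, from helper83's `sR5c`)
-/

set_option autoImplicit false
set_option linter.unusedVariables false

noncomputable section

namespace HAx

open HEp HPx HRx HBy

theorem sR5 (hPrG : HRx.S_PrG) (hKapK : S_KapK) (hCfU : S_CfU) : S_R5 := by
  intro G _ g U u hu f hf hd hh mw hκ o
  have hm : 1 ≤ g.m := by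
    have h1 := g.nw
    have h2 := g.n2
    omega
  have hb : g.m ≤ g.b := by
    have h1 := g.nw
    have h2 := g.nb
    omega
  obtain ⟨j, ji, jk, js⟩ := hKapK f g.m g.b 0 (fun _ _ => 0) hf hd hm hb hh
  obtain ⟨⟨C⟩, e, he⟩ := hCfU ℤ g.m 0 (fun _ _ => 0)
  have hk : g.kY (DU ℤ g.m) = Ko (DU ℤ g.m).tY g.b (rv g.m) g.m (kcf (HMx.kapP f g.m)) := by
    unfold GD.kY
    rw [hκ]
  refine sR5c hPrG g j ⟨⟨o.h, o.p⟩, o.c, o.e⟩ (toR_comm _) ji ?_ ?_ C e he U.EC ⟨U, u, hu, rfl⟩
  · intro l x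
    rw [hk]
    exact jk l x
  · intro l y
    rw [hk, ← mw]
    exact js l y

end HAx
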