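import Pool.Agent.Lib.MP_181146_gt.HA.SpecA2

set_option autoImplicit false

/-!
# Project HA, module RsF: `F[G]` is free over `ℤ[G]`
-/

namespace HAx

open HEp HRx

/-- `F[G]` is free over `ℤ[G]`. -/
theorem sRsF : S_RsF := by
  intro F _ _ _ G _
  let B := Module.finBasis ℤ F
  let c : Fin (Module.finrank ℤ F) → F →+ ℤ := fun l => (B.coord l).toAddMonoidHom
  let s : Fin (Module.finrank ℤ F) → ℤ →+ F := fun l =>
    (LinearMap.toSpanSingleton ℤ F (B l)).toAddMonoidHom
  have hc : ∀ l (f : F), c l f = B.repr f l := fun l f => rfl
  have hs : ∀ l (z : ℤ), s l z = z • B l := fun l z => rfl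
  have hcs : ∀ l l' (z : ℤ), l ≠ l' → c l (s l' z) = 0 := by
    intro l l' z h
    rw [hc, hs, map_smul, Finsupp.smul_apply, B.repr_self, Finsupp.single_eq_of_ne h, smul_zero]
  have hcs' : ∀ l (z : ℤ), c l (s l z) = z := by
    intro l z
    rw [hc, hs, map_smul, Finsupp.smul_apply, B.repr_self, Finsupp.single_eq_same, smul_eq_mul,
      mul_one]
  have hsc : ∀ f : F, ∑ l, s l (c l f) = f := by
    intro f
    have h := B.sum_repr f
    simpa only [hc, hs] using h
  let b : MonoidAlgebra F G ≃+ (Fin (Module.finrank ℤ F) → ZG G) :=
    { toFun := fun x l => MonoidAlgebra.map (c l) x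
      invFun := fun y => ∑ l, MonoidAlgebra.map (s l) (y l)
      left_inv := by
        intro x
        induction x using MonoidAlgebra.induction_linear with
        | zero => simp
        | add x y hx hy =>
          simp only [MonoidAlgebra.map_add, Finset.sum_add_distrib] at hx hy ⊢
          rw [hx, hy]
        | single m r =>
          simp only [MonoidAlgebra.map_single]
          have h := map_sum (MonoidAlgebra.singleAddHom (R := F) m) (fun l => s l (c l r))
            Finset.univ
          rw [hsc] at h
          exact h.symm
      right_inv := by
        intro y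
        funext l
        change MonoidAlgebra.map (c l) (∑ l', MonoidAlgebra.map (s l') (y l')) = y l
        rw [MonoidAlgebra.map_sum, Finset.sum_eq_single l]
        · rw [MonoidAlgebra.map_map]
          have h : (c l).comp (s l) = AddMonoidHom.id ℤ := by
            ext
            exact hcs' l 1
          rw [h, MonoidAlgebra.map_id]
        · intro l' _ hl
          rw [MonoidAlgebra.map_map]
          have h : (c l).comp (s l') = 0 := by
            ext
            exact hcs l l' 1 (Ne.symm hl)
          rw [h]
          ext m
          simp
        · intro h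
          exact absurd (Finset.mem_univ l) h
      map_add' := by
        intro x y
        funext l
        exact MonoidAlgebra.map_add (c l) x y }
  have hb : ∀ x l, b x l = MonoidAlgebra.map (c l) x := fun x l => rfl
  refine ⟨Module.finrank ℤ F, b, ?_⟩
  intro a x
  change b (MonoidAlgebra.mapRingHom G (algebraMap ℤ F) a * x) = a • b x
  funext l
  rw [Pi.smul_apply, smul_eq_mul, hb, hb]
  induction a using MonoidAlgebra.induction_linear with
  | zero => simp
  | add a a' ha ha' =>
    rw [map_add, add_mul, MonoidAlgebra.map_add, ha, ha', add_mul]
  | single g z =>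
    induction x using MonoidAlgebra.induction_linear with
    | zero => simp
    | add x y hx hy =>
      rw [mul_add, MonoidAlgebra.map_add, hx, hy, MonoidAlgebra.map_add, mul_add]
    | single h r =>
      rw [MonoidAlgebra.mapRingHom_single, MonoidAlgebra.single_mul_single,
        MonoidAlgebra.map_single, MonoidAlgebra.map_single, MonoidAlgebra.single_mul_single]
      congr 1
      change B.repr (algebraMap ℤ F z * r) l = z * B.repr r l
      rw [← Algebra.smul_def, map_smul, Finsupp.smul_apply, smul_eq_mul]

end HAx
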