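import Pool.Agent.Lib.MP_181146_gt.HA.SpecA4

/-!
# Project HA: restriction from `F[G]` to `ℤ[G]` (author helper45)
-/

set_option autoImplicit false

namespace HAx

open HEp HRx HBy

theorem sRstT (hRst : HBy.S_Rst) (hRsF : S_RsF) : S_RstT := by
  intro F _ _ _ G _ T T' q hq h h0
  obtain ⟨n, b, hb⟩ := hRsF F G
  obtain ⟨r, hr⟩ := hRst (ZG G) (MonoidAlgebra F G) _ n b hb
  have := hr T T' q hq h 0 h0
  rwa [map_zero] at this

end HAx
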