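import Pool.Agent.Lib.MP_181146_gt.HA.SpecH
import Pool.Agent.Lib.MP_181146_gt.HM.All

/-!
# Project HA (part A), module Shp (helper87): the section of `Y i`, `i` outside `S`
-/

set_option autoImplicit false

noncomputable section

namespace HAx

open HMx HRx

private lemma Shp_sf {F : Type} [CommRing F] {m : ℕ} {S : Finset (Fin m)} (l : Fin m)
    {u : (Fin m → ℕ) → F} (hu : u ∈ fn F m S 0) : sf F m l u = 0 := by
  funext β
  change u (β + Pi.single l 1) = 0
  by_contra h
  have h1 := (hu _ h).1
  rw [Finset.sum_eq_zero_iff] at h1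
  have h2 := h1 l (Finset.mem_univ l)
  rw [Pi.add_apply, Pi.single_eq_same] at h2
  omega

private lemma Shp_zo {F : Type} [CommRing F] {m c : ℕ} {r : Fin m → Fin m → F}
    {S : Finset (Fin m)} (a : Fin m) {u : (Fin m → ℕ) → F} (hu : u ∈ fn F m S 0) :
    zo F m c r a u = 0 := by
  rw [zo, LinearMap.sum_apply]
  refine Finset.sum_eq_zero fun l _ => ?_
  rw [LinearMap.smul_apply, Shp_sf l hu, smul_zero]

private lemma Shp_yo {F : Type} [CommRing F] {m c : ℕ} {r : Fin m → Fin m → F}
    {S : Finset (Fin m)} (a : Fin m) {u : (Fin m → ℕ) → F} (hu : u ∈ fn F m S 0) :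
    yo F m c r S a u = 0 := by
  unfold yo
  split_ifs
  · rw [LinearMap.neg_apply, Shp_zo a hu, neg_zero]
  · exact Shp_sf a hu

/-- **Shp.** The section of `Y i`, `i` outside `S`. -/
theorem sShp : S_Shp := by
  intro F _ m c r S i hi hc
  obtain ⟨h1, h2, h3, -⟩ := aSec F m c r S i hi hc
  refine ⟨fun l => (tu F m i).restrict (fun u hu => h1 l u hu), ?_, ?_⟩
  · intro l x
    rw [toR_Y _ _ i.2]
    apply Subtype.ext
    change yo F m c r S i (tu F m i x.1) = x.1
    unfold yo
    rw [if_neg hi]
    exact h2 x.1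
  · intro a ha x
    by_cases h : a < m
    · funext j
      cases j with
      | zero =>
        change (toR (DSt F m c r S)).Y a 0 ((tu F m i).restrict (fun u hu => h1 0 u hu) (x 0)) = 0
        rw [toR_Y _ _ h]
        apply Subtype.ext
        change yo F m c r S ⟨a, h⟩ (tu F m i (x 0).1) = 0
        rw [h3 ⟨a, h⟩ (fun e => ha (congrArg Fin.val e)), Shp_yo _ (x 0).2, map_zero]
      | succ j =>
        change (toR (DSt F m c r S)).Y a (j + 1)
            ((tu F m i).restrict (fun u hu => h1 (j + 1) u hu) (x (j + 1))) =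
          (tu F m i).restrict (fun u hu => h1 j u hu)
            ((toR (DSt F m c r S)).Y a j (x (j + 1)))
        rw [toR_Y _ _ h, toR_Y _ _ h]
        apply Subtype.ext
        exact h3 ⟨a, h⟩ (fun e => ha (congrArg Fin.val e)) (x (j + 1)).1
    · have h0 : ∀ y, (toR (DSt F m c r S)).tY a y = 0 := by
        intro y
        funext j
        change (toR (DSt F m c r S)).Y a j (y (j + 1)) = 0
        rw [toR_Y0 _ _ h]
        rfl
      rw [h0, h0, map_zero]

end HAx
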