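import Pool.Agent.Lib.MP_181146_gt.HA.Fin
import Pool.Agent.Lib.MP_181146_gt.HA.R5
import Pool.Agent.Lib.MP_181146_gt.HA.GDxA
import Pool.Agent.Lib.MP_181146_gt.HA.KapK
import Pool.Agent.Lib.MP_181146_gt.HA.Eeq
import Pool.Agent.Lib.MP_181146_gt.HR.SMQ
import Pool.Agent.Lib.MP_181146_gt.HA.FinAB
import Pool.Agent.Lib.MP_181146_gt.HA.EZs
import Pool.Agent.Lib.MP_181146_gt.HA.EZU
import Pool.Agent.Lib.MP_181146_gt.HA.EZfin
import Pool.Agent.Lib.MP_181146_gt.HA.EZt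
import Pool.Agent.Lib.MP_181146_gt.HA.EZf
import Pool.Agent.Lib.MP_181146_gt.HA.Kt
import Pool.Agent.Lib.MP_181146_gt.HA.RsF
import Pool.Agent.Lib.MP_181146_gt.HA.EZ2
import Pool.Agent.Lib.MP_181146_gt.HA.One
import Pool.Agent.Lib.MP_181146_gt.HA.AugT
import Pool.Agent.Lib.MP_181146_gt.HA.FlatL
import Pool.Agent.Lib.MP_181146_gt.HA.RstT
import Pool.Agent.Lib.MP_181146_gt.HA.OneC
import Pool.Agent.Lib.MP_181146_gt.HA.EvH
import Pool.Agent.Lib.MP_181146_gt.HA.KLp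
import Pool.Agent.Lib.MP_181146_gt.HA.PSx
import Pool.Agent.Lib.MP_181146_gt.HA.CfU
import Pool.Agent.Lib.MP_181146_gt.HA.Shp
import Pool.Agent.Lib.MP_181146_gt.HA.Chn
import Pool.Agent.Lib.MP_181146_gt.HB.All
import Pool.Agent.Lib.MP_181146_gt.HH.All
import Pool.Agent.Lib.MP_181146_gt.HX.All
import Pool.Agent.Lib.MP_181146_gt.HV.All
import Pool.Agent.Lib.MP_181146_gt.HT.RelV
import Pool.Agent.Lib.MP_181146_gt.HR.Prj
import Pool.Agent.Lib.MP_181146_gt.HR.PrG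
import Pool.Agent.Lib.MP_181146_gt.HR.PfS
import Pool.Agent.Lib.MP_181146_gt.HR.CFo
import Pool.Agent.Lib.MP_181146_gt.HR.ExJ
import Pool.Agent.Lib.MP_181146_gt.HR.PfK
import Pool.Agent.Lib.MP_181146_gt.HR.IoQ
import Pool.Agent.Lib.MP_181146_gt.HR.V0d
import Pool.Agent.Lib.MP_181146_gt.HR.OutI

/-!
# Project HA (part A): all modules, the theorem `CoreX` (author helper45)
-/

set_option autoImplicit false
set_option linter.unusedVariables false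

noncomputable section

namespace HAx

open HEp HPx HRx HBy

theorem aEZs : S_EZs := sEZs sEeq
theorem aEZU : S_EZU := sEZU sEeq
theorem aKt : S_Kt := sKt sTelC
theorem aEZ2 : S_EZ2 := sEZ2 sEZt aKt sTelX
theorem aOne : S_One := sOne HHx.zMain sTelX sECt sRed aKt aEZU
theorem aRstT : S_RstT := sRstT sRst sRsF
theorem aOneC : S_OneC := sOneC aOne sAugT aKt aEZs aRstT sTelQ HHx.tGood
theorem aEZC1 : S_EZC1 := sEZC1 aEZs sTelQ
theorem aEZC2 : S_EZC2 := sEZC2 aEZ2 sEZfin sEZf sAugT aKt sFlatL sECt sTelQ HHx.tGood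
theorem aKLp : S_KLp := sKLp sEvH
theorem aFinAB : S_FinAB := sFinAB pBSum pRSfp

theorem rCFo : HRx.S_CFo := HRx.sCFo
theorem rPrj : HRx.S_Prj := HRx.sPrj
theorem rSMQ : HRx.S_SMQ := HRx.sSMQ
theorem rPrG : HRx.S_PrG := HRx.sPrG rPrj rCFo
theorem rPfS : HRx.S_PfS := HRx.sPfS rSMQ
theorem rPfK : HRx.S_PfK := HRx.sPfK HRx.sExJ
theorem rOutI : HRx.S_OutI := HRx.sOutI (HRx.sIoQ rCFo) (HRx.sV0d rCFo) rPrj rSMQ

theorem aPfT : S_PfT := sPfT sPSx rPfK rPrG rPfS sChn sCfU sShp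
theorem aIoF : S_IoF := sIoF sPSx rOutI sChn sCfU sShp
theorem aR0 : S_R0 := sR0 rPrG sCfU

theorem aGDx : S_GDx := pGDx HVx.vVF

theorem aCoreX : HTx.S_CoreX := by
  intro e he G _ _ hG E _ _ D X K hK hN Λ n hn hn1 hX hE Q
  obtain ⟨g, hg⟩ := aGDx e he G hG E D X K hK hN Λ n hn hn1 hX hE Q
  obtain ⟨U, u, hu, hEC⟩ := hg.perfZ
  have h0 : U.EC = 0 := by
    obtain ⟨p, hp, h | h⟩ := hg.kap
    · obtain ⟨q, j, hq, hj, -, hpq⟩ := h
      rw [hpq] at hp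
      exact caseK g sEvH sPSx aKLp aOneC aEZC1 aEZC2 aIoF aPfT (sR5 rPrG sKapK sCfU) pOpN pMCm
        pMitA pExB pExI pExS pDifF pGPM pCLM pNulZ pNulA sClF sTelQ sECq sTelX sECx sECu hg q j hq
        hj hp U u hu
    · rw [h] at hp
      exact case0 g aR0 pDifF pGPM pCLM sCl0 hp U u hu
  obtain ⟨a, b, hab⟩ := hEC h0
  have hcard : 1 < Nat.card G := by
    by_contra hc
    have h1 : Nat.card G = 1 := le_antisymm (not_lt.1 hc) Nat.card_pos
    have : Subsingleton G := (Nat.card_eq_one_iff_unique.1 h1).1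
    refine hG 2 Nat.prime_two ?_ ?_
    · exact IsPGroup.of_card (n := 0) (by rw [h1, pow_zero])
    · infer_instance
  obtain rfl := aFinAB G hcard X hN K hK a b hab
  exact ⟨a, hab⟩

end HAx
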