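import Pool.Agent.Lib.MP_181146_gt.HB.DefsB
import Pool.Agent.Lib.MP_181146_gt.HR.DefsC

/-!
# Project HA (part A: bookkeeping): the Euler characteristic of a big complex

`Zi`, `Bi`, `Hi`: cycles, boundaries and homology of a big complex `HRx.GC` as modules; `EZ ε T`: the
homology of `T` is finitely generated and bounded, and its Euler characteristic over the field `L` is
zero (`ε : R →+* L`).
-/

set_option autoImplicit false

namespace HAx

open HEp HRx

section

variable {R : Type} [CommRing R]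

/-- The cycles of degree `i`. -/
def Zi (T : GC R) (i : ℤ) : Submodule R T.V := T.G i ⊓ LinearMap.ker T.d

/-- The boundaries of degree `i`, as a submodule of the cycles. -/
def Bi (T : GC R) (i : ℤ) : Submodule R (Zi T i) := ((T.G (i + 1)).map T.d).comap (Zi T i).subtype

/-- The homology in degree `i`. -/
abbrev Hi (T : GC R) (i : ℤ) : Type := Zi T i ⧸ Bi T i

/-- The homology of `T` is finitely generated over `R` and bounded, and
`∑ (-1)^i dim_L (L ⊗ H_i(T)) = 0`. -/
def EZ {L : Type} [Field L] (ε : R →+* L) (T : GC R) : Prop :=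
  (∀ i, Module.Finite R (Hi T i)) ∧ ∃ N : ℕ, (∀ i : ℤ, (N : ℤ) < |i| → Subsingleton (Hi T i)) ∧
    ∑ i ∈ Finset.Icc (-(N : ℤ)) N, (i.negOnePow : ℤ) * (HBx.hrk ε (Hi T i) : ℤ) = 0

lemma mem_Zi (T : GC R) (i : ℤ) (x : T.V) : x ∈ Zi T i ↔ T.Cyc i x := Iff.rfl

lemma mem_Bi (T : GC R) (i : ℤ) (x : Zi T i) : x ∈ Bi T i ↔ T.Bdy i x := by
  change (x : T.V) ∈ (T.G (i + 1)).map T.d ↔ _
  rw [Submodule.mem_map]
  rfl

/-- The class of a cycle. -/
def hmk (T : GC R) (i : ℤ) : Zi T i →ₗ[R] Hi T i := (Bi T i).mkQ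

lemma hmk_surj (T : GC R) (i : ℤ) : Function.Surjective (hmk T i) := (Bi T i).mkQ_surjective

lemma hmk_eq_zero (T : GC R) (i : ℤ) (x : Zi T i) : hmk T i x = 0 ↔ T.Bdy i x := by
  rw [← mem_Bi]
  exact Submodule.Quotient.mk_eq_zero _

end

end HAx
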