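import Pool.Agent.Lib.MP_181146_gt.HR.DefsR
import Pool.Agent.Lib.MP_181146_gt.HM.DefsM
import Pool.Agent.Lib.MP_181146_gt.HB.DefsY

/-!
# Project HA (part A: bookkeeping): from the graded modules of part E (HMx) to those of part R (HRx)

`toR D`: the graded module `D` with operators indexed by `ℕ`; `kcf p`: the coefficients of the
polynomial `p` as a function on `ℕ → ℕ`.
-/

set_option autoImplicit false

namespace HAx

section

variable {k : Type} [CommRing k] {m : ℕ}

/-- The graded module `D` with operators indexed by `ℕ` (`Y i = 0` for `i ≥ m`). -/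
def toR (D : HMx.DM k m) : HRx.DM k where
  D := D.D
  Y i j := if h : i < m then D.Y ⟨i, h⟩ j else 0

lemma toR_Y (D : HMx.DM k m) (i : ℕ) (h : i < m) (j : ℕ) : (toR D).Y i j = D.Y ⟨i, h⟩ j :=
  dif_pos h

lemma toR_Y0 (D : HMx.DM k m) (i : ℕ) (h : ¬ i < m) (j : ℕ) : (toR D).Y i j = 0 :=
  dif_neg h

lemma toR_comm (D : HMx.DM k m) : (toR D).Comm := by
  intro i i' j x
  by_cases h : i < m
  · by_cases h' : i' < m
    · rw [toR_Y D i h, toR_Y D i' h', toR_Y D i h, toR_Y D i' h']
      exact D.comm _ _ j x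
    · rw [toR_Y0 D i' h', toR_Y0 D i' h', LinearMap.zero_apply, LinearMap.zero_apply, map_zero]
  · rw [toR_Y0 D i h, toR_Y0 D i h, LinearMap.zero_apply, LinearMap.zero_apply, map_zero]

/-- The coefficients of `p`, as a function on `ℕ → ℕ` (only the values on `i < m` are used). -/
noncomputable def kcf (p : MvPolynomial (Fin m) ℤ) (a : ℕ → ℕ) : ℤ :=
  p.coeff (Finsupp.equivFunOnFinite.symm (fun i : Fin m => a i))

end

end HAx
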