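import Pool.Agent.Lib.MP_181146_gt.HR.DefsR
import Pool.Agent.Lib.MP_181146_gt.HB.DefsY

/-!
# Project HA (part A): big complexes with an action of a group, the chains with values in a ring

`Ac T G`: an action of the group `G` on the big complex `T` over `k`; `gcG T A`: the complex `T` over the
group ring `MonoidAlgebra k G`.  `CF K k α`: the chains of the simplicial set `K` with values in `k`, as a
complex over the group ring, `α` the action.
-/

set_option autoImplicit false

noncomputable section

namespace HAx

open HEp HPx HRx HBy

section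

variable {k : Type} [CommRing k] {G : Type} [CommGroup G]

/-- An action of `G` on the big complex `T` (of degree `0`, commuting with `d`). -/
structure Ac (T : GC k) (G : Type) [CommGroup G] where
  v : G →* Module.End k T.V
  vG : ∀ g i, ∀ x ∈ T.G i, v g x ∈ T.G i
  vd : ∀ g x, v g (T.d x) = T.d (v g x)

/-- The module structure over the group ring. -/
@[reducible] def gmo (V : Type) [AddCommGroup V] [Module k V] (v : G →* Module.End k V) :
    Module (MonoidAlgebra k G) V :=
  Module.compHom V ((MonoidAlgebra.lift k (Module.End k V) G v).toRingHom)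

lemma gmo_smul (V : Type) [AddCommGroup V] [Module k V] (v : G →* Module.End k V)
    (a : MonoidAlgebra k G) (x : V) :
    letI := gmo V v
    a • x = MonoidAlgebra.lift k (Module.End k V) G v a x := rfl

lemma gmo_ind {V : Type} [AddCommGroup V] [Module k V] (v : G →* Module.End k V)
    (p : Module.End k V → Prop) (h0 : p 0) (ha : ∀ a b, p a → p b → p (a + b))
    (hg : ∀ (g : G) (r : k), p (r • v g)) (a : MonoidAlgebra k G) :
    p (MonoidAlgebra.lift k (Module.End k V) G v a) := by
  induction a using MonoidAlgebra.induction_linear with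
  | zero => rw [map_zero]; exact h0
  | add a b h1 h2 => rw [map_add]; exact ha _ _ h1 h2
  | single g r =>
    rw [MonoidAlgebra.lift_single]
    exact hg g r

/-- The complex `T` with the action `A`, over the group ring. -/
def gcG (T : GC k) (A : Ac T G) : GC (MonoidAlgebra k G) :=
  letI : Module (MonoidAlgebra k G) T.V := gmo T.V A.v
  { V := T.V
    d :=
      { toFun := T.d
        map_add' := T.d.map_add
        map_smul' := fun a x => by
          change T.d (MonoidAlgebra.lift k (Module.End k T.V) G A.v a x) =
            MonoidAlgebra.lift k (Module.End k T.V) G A.v a (T.d x)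
          refine gmo_ind A.v (fun f => T.d (f x) = f (T.d x)) ?_ ?_ ?_ a
          · exact map_zero _
          · intro a b h1 h2
            rw [LinearMap.add_apply, map_add, h1, h2, LinearMap.add_apply]
          · intro g r
            rw [LinearMap.smul_apply, map_smul, ← A.vd, LinearMap.smul_apply] }
    G := fun i =>
      { carrier := {x | x ∈ T.G i}
        add_mem' := fun hx hy => (T.G i).add_mem hx hy
        zero_mem' := (T.G i).zero_mem
        smul_mem' := fun a x hx => by
          change MonoidAlgebra.lift k (Module.End k T.V) G A.v a x ∈ T.G i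
          refine gmo_ind A.v (fun f => f x ∈ T.G i) ?_ ?_ ?_ a
          · exact (T.G i).zero_mem
          · intro a b h1 h2
            exact (T.G i).add_mem h1 h2
          · intro g r
            exact (T.G i).smul_mem r (A.vG g i x hx) }
    dG := fun i x hx => T.dG i x hx
    dd := fun x => T.dd x }

/-- The identity `T → gcG T A`. -/
def gcI (T : GC k) (A : Ac T G) : T.V ≃+ (gcG T A).V := AddEquiv.refl T.V

lemma gcI_of (T : GC k) (A : Ac T G) (g : G) (x : T.V) :
    MonoidAlgebra.of k G g • gcI T A x = gcI T A (A.v g x) := by
  change MonoidAlgebra.lift k (Module.End k T.V) G A.v (MonoidAlgebra.of k G g) x = A.v g x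
  rw [MonoidAlgebra.lift_of]

lemma gcI_alg (T : GC k) (A : Ac T G) (r : k) (x : T.V) :
    algebraMap k (MonoidAlgebra k G) r • gcI T A x = gcI T A (r • x) := by
  change MonoidAlgebra.lift k (Module.End k T.V) G A.v (algebraMap k (MonoidAlgebra k G) r) x = r • x
  rw [AlgHom.commutes]
  rfl

lemma gcI_single (T : GC k) (A : Ac T G) (g : G) (r : k) (x : T.V) :
    (MonoidAlgebra.single g r : MonoidAlgebra k G) • gcI T A x = gcI T A (r • A.v g x) := by
  change MonoidAlgebra.lift k (Module.End k T.V) G A.v (MonoidAlgebra.single g r) x = r • A.v g x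
  rw [MonoidAlgebra.lift_single]
  rfl

end

/-! ## The chains with values in a ring -/

section

variable (K : SS) (k : Type) [CommRing k]

private lemma CF_sx {n : ℕ} (x : K.K n) : ∀ y, (bd k K (sx k x)) y ≠ 0 → (y.1 : ℤ) = n - 1 := by
  intro y hy
  cases n with
  | zero =>
    rw [bd_sx_zero] at hy
    exact absurd rfl hy
  | succ n =>
    rw [bd_sx, Finsupp.finsetSum_apply] at hy
    obtain ⟨i, -, hi⟩ := Finset.exists_ne_zero_of_sum_ne_zero hy
    rw [Finsupp.smul_apply] at hi
    have h1 : (sx k (K.act i.succAbove x)) y ≠ 0 := fun h => hi (by rw [h, smul_zero])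
    have h2 : (⟨n, K.act i.succAbove x⟩ : Σ n, K.K n) = y := by
      by_contra hne
      exact h1 (Finsupp.single_eq_of_ne (fun h => hne h.symm))
    rw [← h2]
    push_cast
    ring

/-- The chains of `K` with values in `k`, as a big complex. -/
def CF : GC k where
  V := Ch k K
  d := bd k K
  G i := Finsupp.supported k k {x | (x.1 : ℤ) = i}
  dG := by
    intro i x hx
    rw [Finsupp.mem_supported'] at hx ⊢
    intro y hy
    by_contra hne
    have h1 : x = ∑ z ∈ x.support, x z • sx k z.2 := by
      conv_lhs => rw [← Finsupp.sum_single x]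
      refine Finset.sum_congr rfl fun z _ => ?_
      rw [sx, Finsupp.smul_single, smul_eq_mul, mul_one]
    rw [h1, map_sum, Finsupp.finsetSum_apply] at hne
    obtain ⟨z, hz, hz'⟩ := Finset.exists_ne_zero_of_sum_ne_zero hne
    rw [map_smul, Finsupp.smul_apply] at hz'
    have h2 := CF_sx K k z.2 y (fun h => hz' (by rw [h, smul_zero]))
    have h3 : (z.1 : ℤ) = i := by
      by_contra h
      exact (Finsupp.mem_support_iff.1 hz) (hx z h)
    exact hy (by
      change (y.1 : ℤ) = i - 1
      rw [h2, h3])
  dd := fun x => bd_bd k x

variable {K}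

/-- The action on the chains. -/
def cfA {G : Type} [CommGroup G] (α : G → SSHom K K) (h1 : α 1 = SSHom.id K)
    (hα : ∀ a b, α (a * b) = (α a).comp (α b)) : Ac (CF K k) G where
  v :=
    { toFun := fun g => cmap k (α g)
      map_one' := by
        rw [h1]
        exact LinearMap.ext fun x => cmap_id k x
      map_mul' := fun a b => by
        rw [hα]
        exact LinearMap.ext fun x => cmap_comp k _ _ x }
  vG := by
    intro g i (x : Ch k K) (hx : x ∈ Finsupp.supported k k {x : Σ n, K.K n | (x.1 : ℤ) = i})
    classical
    change Finsupp.mapDomain _ x ∈ Finsupp.supported k k {x : Σ n, K.K n | (x.1 : ℤ) = i}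
    rw [Finsupp.mem_supported] at hx ⊢
    intro y hy
    obtain ⟨z, hz, rfl⟩ := Finset.mem_image.1 (Finsupp.mapDomain_support hy)
    have h := hx (Finset.mem_coe.2 hz)
    exact h
  vd := fun g x => cmap_bd k (α g) x

end

end HAx
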