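import Pool.Agent.Lib.MP_181146_gt.HB.DefsY
import Pool.Agent.Lib.MP_181146_gt.HA.DefsA

/-!
# Project HA (part A): restriction of scalars of endomorphisms

`rstEn ρ E`: the endomorphism `E` of the restricted complex; `eqI`: an additive isomorphism compatible
with everything is a quasi-isomorphism.
-/

set_option autoImplicit false

namespace HAx

open HEp HRx HBy

section

variable {S B : Type} [CommRing S] [CommRing B]

/-- The endomorphism `E` of the restricted complex. -/
def rstEn (ρ : S →+* B) {T : GC B} (E : En T) : En (rst ρ T) where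
  e :=
    { toFun := fun x => rstI ρ T (E.e ((rstI ρ T).symm x))
      map_add' := fun x y => by
        rw [map_add, map_add, map_add]
      map_smul' := fun a x => E.e.map_smul (ρ a) x }
  he := fun i x hx => E.he i x hx
  hed := fun x => E.hed x

lemma rstEn_e (ρ : S →+* B) {T : GC B} (E : En T) (x : T.V) :
    (rstEn ρ E).e (rstI ρ T x) = rstI ρ T (E.e x) := rfl

/-- An additive isomorphism which preserves degrees in both directions and commutes with the
differentials is a quasi-isomorphism. -/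
lemma eqI (T : GC S) (T' : GC B) (f : T.V ≃+ T'.V) (hG : ∀ i x, f x ∈ T'.G i ↔ x ∈ T.G i)
    (hd : ∀ x, f (T.d x) = T'.d (f x)) : IsQI T T' f.toAddMonoidHom := by
  refine ⟨⟨fun i x hx => (hG i x).2 hx, hd⟩, ?_, ?_⟩
  · rintro i x - ⟨y, hy, hyx⟩
    obtain ⟨y', rfl⟩ := f.surjective y
    refine ⟨y', (hG _ _).1 hy, f.injective ?_⟩
    rw [hd]
    exact hyx
  · rintro i y ⟨hy, hdy⟩
    obtain ⟨x, rfl⟩ := f.surjective y
    refine ⟨x, ⟨(hG _ _).1 hy, f.injective ?_⟩, ?_⟩
    · rw [hd, hdy, map_zero]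
    · refine ⟨0, (T'.G _).zero_mem, ?_⟩
      rw [map_zero]
      exact (sub_self _).symm

lemma rst_QI (ρ : S →+* B) (T : GC B) : IsQI T (rst ρ T) (rstI ρ T).toAddMonoidHom :=
  eqI T (rst ρ T) (rstI ρ T) (fun _ _ => Iff.rfl) (fun _ => rfl)

lemma rst_QI' (ρ : S →+* B) (T : GC B) : IsQI (rst ρ T) T (rstI ρ T).symm.toAddMonoidHom :=
  eqI (rst ρ T) T (rstI ρ T).symm (fun _ _ => Iff.rfl) (fun _ => rfl)

end

end HAx
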