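import Pool.Agent.Lib.MP_181146_gt.HA.SpecA2

/-!
# Project HA, module EZh: `EZ` of telescopes, compatibility on the level of homology
-/

set_option autoImplicit false

namespace HAx

open HEp HRx HBy

/-- A bijective semilinear map which commutes with the endomorphisms induces a bijective semilinear map
of the direct limits. -/
private theorem EZh_dl {R R' : Type} [CommRing R] [CommRing R'] (σ : R →+* R')
    (hσ : Function.Surjective σ) {M M' : Type} [AddCommGroup M] [Module R M] [AddCommGroup M']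
    [Module R' M'] (e : Module.End R M) (e' : Module.End R' M') (Φ : M →ₛₗ[σ] M')
    (hΦ : Function.Bijective Φ) (hc : ∀ x, Φ (e x) = e' (Φ x)) :
    ∃ ψ : HBx.DL e ≃+ HBx.DL e', ∀ (b : R) (x : HBx.DL e), ψ (b • x) = σ b • ψ x := by
  have : RingHomSurjective σ := ⟨hσ⟩
  let F : (ℕ →₀ M) →ₛₗ[σ] (ℕ →₀ M') := Finsupp.mapRange.linearMap Φ
  have hF : ∀ n x, F (Finsupp.single n x) = Finsupp.single n (Φ x) := fun n x =>
    Finsupp.mapRange_single (f := Φ) (hf := map_zero Φ)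
  have hFi : Function.Injective F := Finsupp.mapRange_injective Φ (map_zero Φ) hΦ.1
  have hFs : Function.Surjective F := Finsupp.mapRange_surjective Φ (map_zero Φ) hΦ.2
  have h1 : HBx.dlRel e ≤ LinearMap.ker ((HBx.dlRel e').mkQ.comp F) := by
    unfold HBx.dlRel
    rw [Submodule.span_le]
    rintro _ ⟨n, x, rfl⟩
    change (HBx.dlRel e').mkQ (F _) = 0
    refine (Submodule.Quotient.mk_eq_zero _).2 (Submodule.subset_span ⟨n, Φ x, ?_⟩)
    rw [map_sub, hF, hF, hc]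
  have h2 : HBx.dlRel e' ≤ (HBx.dlRel e).map F := by
    conv_lhs => unfold HBx.dlRel
    rw [Submodule.span_le]
    rintro _ ⟨n, y, rfl⟩
    obtain ⟨x, rfl⟩ := hΦ.2 y
    refine ⟨_, Submodule.subset_span ⟨n, x, rfl⟩, ?_⟩
    rw [map_sub, hF, hF, hc]
  let ψ : HBx.DL e →ₛₗ[σ] HBx.DL e' := (HBx.dlRel e).liftQ ((HBx.dlRel e').mkQ.comp F) h1
  have hψ : ∀ x, ψ (Submodule.Quotient.mk x) = Submodule.Quotient.mk (F x) := fun x => rfl
  have hi : Function.Injective ψ := by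
    rw [injective_iff_map_eq_zero]
    intro t ht
    obtain ⟨x, rfl⟩ := Submodule.Quotient.mk_surjective _ t
    rw [hψ] at ht
    obtain ⟨x', hx', hxx⟩ := h2 ((Submodule.Quotient.mk_eq_zero _).1 ht)
    rw [← hFi hxx]
    exact (Submodule.Quotient.mk_eq_zero _).2 hx'
  have hs : Function.Surjective ψ := by
    intro t
    obtain ⟨y, rfl⟩ := Submodule.Quotient.mk_surjective _ t
    obtain ⟨x, rfl⟩ := hFs y
    exact ⟨Submodule.Quotient.mk x, rfl⟩
  exact ⟨AddEquiv.ofBijective ψ.toAddMonoidHom ⟨hi, hs⟩, fun b x => ψ.map_smulₛₗ b x⟩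

/-- The map on the cycles with values in the homology. -/
private def EZh_map {R R' : Type} [CommRing R] [CommRing R'] (σ : R →+* R') (T : GC R) (T' : GC R')
    (f : T.V →+ T'.V) (hf : IsQI T T' f)
    (hl : ∀ i b x, T.Cyc i x → T'.Bdy i (f (b • x) - σ b • f x)) (i : ℤ) :
    Zi T i →ₛₗ[σ] Hi T' i where
  toFun x := hmk T' i ⟨f x, (mem_Zi T' i _).2 ⟨hf.1.1 i x x.2.1, by
    rw [← hf.1.2, (x.2.2 : T.d x = 0), map_zero]⟩⟩
  map_add' x y := by
    rw [← map_add]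
    congr 1
    exact Subtype.ext (map_add f (x : T.V) y)
  map_smul' b x := by
    rw [← map_smul, ← sub_eq_zero, ← map_sub, hmk_eq_zero]
    exact hl i b x x.2

/-- The homology of the two complexes, with the endomorphisms. -/
private theorem EZh_hom {R R' : Type} [CommRing R] [CommRing R'] (σ : R →+* R') (T : GC R)
    (T' : GC R') (E : En T) (E' : En T') (f : T.V →+ T'.V) (hf : IsQI T T' f)
    (hl : ∀ i b x, T.Cyc i x → T'.Bdy i (f (b • x) - σ b • f x))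
    (hc : ∀ i x, T.Cyc i x → T'.Bdy i (f (E.e x) - E'.e (f x))) (i : ℤ) :
    ∃ Φ : Hi T i →ₛₗ[σ] Hi T' i, Function.Bijective Φ ∧ ∀ x, Φ (hE E i x) = hE E' i (Φ x) := by
  have hker : Bi T i ≤ LinearMap.ker (EZh_map σ T T' f hf hl i) := by
    intro x hx
    obtain ⟨y, hy, hyx⟩ := (mem_Bi T i x).1 hx
    change hmk T' i _ = 0
    rw [hmk_eq_zero]
    refine ⟨f y, hf.1.1 _ y hy, ?_⟩
    rw [← hf.1.2, hyx]
  let Φ : Hi T i →ₛₗ[σ] Hi T' i := (Bi T i).liftQ (EZh_map σ T T' f hf hl i) hker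
  have hΦ : ∀ x : Zi T i, Φ (hmk T i x) = EZh_map σ T T' f hf hl i x := fun x => rfl
  refine ⟨Φ, ⟨?_, ?_⟩, ?_⟩
  · rw [injective_iff_map_eq_zero]
    intro a ha
    obtain ⟨x, rfl⟩ := hmk_surj T i a
    rw [hΦ] at ha
    have ha' : hmk T' i _ = 0 := ha
    rw [hmk_eq_zero] at ha' ⊢
    exact hf.2.1 i x x.2 ha'
  · intro b
    obtain ⟨y, rfl⟩ := hmk_surj T' i b
    obtain ⟨x, hx, hxy⟩ := hf.2.2 i y y.2
    refine ⟨hmk T i ⟨x, hx⟩, ?_⟩
    rw [hΦ]
    symm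
    change hmk T' i y = hmk T' i _
    rw [← sub_eq_zero, ← map_sub, hmk_eq_zero]
    exact hxy
  · intro a
    obtain ⟨x, rfl⟩ := hmk_surj T i a
    have hx1 : T.Cyc i (E.e x) := by
      refine ⟨E.he i _ x.2.1, ?_⟩
      have h2 : T.d (x : T.V) = 0 := x.2.2
      rw [← E.hed, h2, map_zero]
    have hx2 : T'.Cyc i (f x) := by
      refine ⟨hf.1.1 i x x.2.1, ?_⟩
      have h2 : T.d (x : T.V) = 0 := x.2.2
      rw [← hf.1.2, h2, map_zero]
    have hx3 : T'.Cyc i (E'.e (f x)) := by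
      refine ⟨E'.he i _ hx2.1, ?_⟩
      rw [← E'.hed, hx2.2, map_zero]
    rw [hE_hmk E i x ⟨E.e x, hx1⟩ rfl, hΦ, hΦ]
    have h1 : EZh_map σ T T' f hf hl i x = hmk T' i ⟨f x, hx2⟩ := rfl
    rw [h1, hE_hmk E' i ⟨f x, hx2⟩ ⟨E'.e (f x), hx3⟩ rfl]
    change hmk T' i _ = hmk T' i _
    rw [← sub_eq_zero, ← map_sub, hmk_eq_zero]
    exact hc i x x.2

theorem sEZh (hTelD : S_TelD) (hEeq : S_Eeq) : S_EZh := by
  intro R R' _ _ σ hσ T T' E E' f hf hl hc L _ ε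
  have key : ∀ i, (Module.Finite R (Hi (tel E) i) ↔ Module.Finite R' (Hi (tel E') i)) ∧
      HBx.hrk (ε.comp σ) (Hi (tel E) i) = HBx.hrk ε (Hi (tel E') i) ∧
      (Subsingleton (Hi (tel E) i) ↔ Subsingleton (Hi (tel E') i)) := by
    intro i
    obtain ⟨Φ, hΦ, hΦc⟩ := EZh_hom σ T T' E E' f hf hl hc i
    obtain ⟨ψ, hψ⟩ := EZh_dl σ hσ (hE E i) (hE E' i) Φ hΦ hΦc
    obtain ⟨φ, -⟩ := hTelD R T E i
    obtain ⟨φ', -⟩ := hTelD R' T' E' i
    let e : Hi (tel E) i ≃+ Hi (tel E') i :=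
      (φ.symm.toAddEquiv.trans ψ).trans φ'.toAddEquiv
    have he : ∀ (b : R) (x : Hi (tel E) i), e (b • x) = σ b • e x := by
      intro b x
      change φ' (ψ (φ.symm (b • x))) = σ b • φ' (ψ (φ.symm x))
      rw [map_smul, hψ, map_smul]
    obtain ⟨h1, h2⟩ := hEeq R R' σ hσ (Hi (tel E) i) (Hi (tel E') i) e he L ε
    exact ⟨h1, h2, e.toEquiv.subsingleton_congr⟩
  unfold EZ
  constructor
  · rintro ⟨h1, N, h2, h3⟩
    refine ⟨fun i => (key i).1.1 (h1 i), N, fun i hi => (key i).2.2.1 (h2 i hi), ?_⟩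
    simp only [← (key _).2.1]
    exact h3
  · rintro ⟨h1, N, h2, h3⟩
    refine ⟨fun i => (key i).1.2 (h1 i), N, fun i hi => (key i).2.2.2 (h2 i hi), ?_⟩
    simp only [(key _).2.1]
    exact h3

end HAx
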