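import Pool.Agent.Lib.MP_181146_gt.HA.SpecA

/-!
# Project HA, module EZt: the Euler characteristic is zero, from the second parameter
-/

set_option autoImplicit false

namespace HAx

open scoped TensorProduct
open HEp HRx

/-- Additivity of the dimension of `L ⊗ M`, `L` flat. -/
private theorem EZt_rk {F : Type} [CommRing F] {A B C : Type} [AddCommGroup A] [Module F A]
    [AddCommGroup B] [Module F B] [AddCommGroup C] [Module F C] [Module.Finite F B]
    (f : A →ₗ[F] B) (g : B →ₗ[F] C) (hf : Function.Injective f) (hg : Function.Surjective g)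
    (hfg : Function.Exact f g) {L : Type} [Field L] (ε : F →+* L)
    (hflat : letI := ε.toAlgebra; Module.Flat F L) :
    HBx.hrk ε B = HBx.hrk ε A + HBx.hrk ε C := by
  letI : Algebra F L := ε.toAlgebra
  have : Module.Flat F L := hflat
  change Module.finrank L (L ⊗[F] B) = Module.finrank L (L ⊗[F] A) + Module.finrank L (L ⊗[F] C)
  have h1 : Function.Injective (f.baseChange L) :=
    Module.Flat.lTensor_preserves_injective_linearMap f hf
  have h2 : Function.Surjective (g.baseChange L) := LinearMap.lTensor_surjective L hg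
  have h3 : Function.Exact (f.baseChange L) (g.baseChange L) := lTensor_exact L hfg hg
  have h4 : LinearMap.ker (g.baseChange L) = LinearMap.range (f.baseChange L) :=
    LinearMap.exact_iff.1 h3
  have h5 := LinearMap.finrank_range_add_finrank_ker (g.baseChange L)
  rw [h4, LinearMap.finrank_range_of_inj h1, LinearMap.range_eq_top.2 h2, finrank_top] at h5
  omega

/-- Telescoping. -/
private theorem EZt_tel (t : ℤ → ℤ) (M : ℕ) :
    ∑ i ∈ Finset.Icc (-(M : ℤ)) M, (t i - t (i - 1)) = t M - t (-(M : ℤ) - 1) := by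
  induction M with
  | zero => simp
  | succ M ih =>
    have h1 : Finset.Icc (-((M + 1 : ℕ) : ℤ)) ((M + 1 : ℕ) : ℤ) =
        insert ((M : ℤ) + 1) (insert (-(M : ℤ) - 1) (Finset.Icc (-(M : ℤ)) M)) := by
      ext i
      simp only [Finset.mem_Icc, Finset.mem_insert]
      push_cast
      omega
    rw [h1, Finset.sum_insert, Finset.sum_insert, ih]
    · push_cast
      have e1 : (M : ℤ) + 1 - 1 = M := by ring
      have e2 : -((M : ℤ) + 1) - 1 = -(M : ℤ) - 1 - 1 := by ring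
      rw [e1, e2]
      ring
    · simp only [Finset.mem_Icc]
      omega
    · simp only [Finset.mem_Icc, Finset.mem_insert]
      omega

/-- The exact sequence `0 → H_i(X) → H_i(Y) → H_(i-1)(X) → 0`. -/
private theorem EZt_ex {F : Type} [CommRing F] {X Y : GC F} (a : X.V →ₗ[F] X.V)
    (b : X.V →ₗ[F] Y.V) (h : SES X X Y a.toAddMonoidHom b.toAddMonoidHom)
    (h0 : ∀ i x, X.Cyc i x → X.Bdy i (a x)) (i : ℤ) :
    ∃ (f : Hi X i →ₗ[F] Hi Y i) (g : Hi Y i →ₗ[F] Hi X (i - 1)), Function.Injective f ∧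
      Function.Surjective g ∧ Function.Exact f g := by
  have haG : ∀ j, ∀ x ∈ X.G j, a x ∈ X.G j := h.cha.1
  have had : ∀ x, a (X.d x) = X.d (a x) := h.cha.2
  have hbG : ∀ j, ∀ x ∈ X.G j, b x ∈ Y.G j := h.chb.1
  have hbd : ∀ x, b (X.d x) = Y.d (b x) := h.chb.2
  have hinj : ∀ x, a x = 0 → x = 0 := h.inj
  have hba : ∀ x, b (a x) = 0 := h.ba
  have hex : ∀ j, ∀ x ∈ X.G j, b x = 0 → ∃ y ∈ X.G j, a y = x := h.ex
  have hsur : ∀ j, ∀ z ∈ Y.G j, ∃ x ∈ X.G j, b x = z := h.sur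
  have hai : Function.Injective a := (injective_iff_map_eq_zero a).2 hinj
  have hdG : ∀ j, ∀ x ∈ X.G (j + 1), X.d x ∈ X.G j := by
    intro j x hx
    have := X.dG (j + 1) x hx
    rwa [add_sub_cancel_right] at this
  have hi1 : i - 1 + 1 = i := sub_add_cancel i 1
  -- the first map
  have hZ : ∀ x ∈ Zi X i, b x ∈ Zi Y i := by
    intro x hx
    refine ⟨hbG i x hx.1, ?_⟩
    have h1 : X.d x = 0 := hx.2
    change Y.d (b x) = 0
    rw [← hbd, h1, map_zero]
  let bZ : Zi X i →ₗ[F] Zi Y i := LinearMap.restrict b hZ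
  have hB : Bi X i ≤ LinearMap.ker (hmk Y i ∘ₗ bZ) := by
    intro x hx
    rw [mem_Bi] at hx
    obtain ⟨y, hy, hyx⟩ := hx
    rw [LinearMap.mem_ker, LinearMap.comp_apply, hmk_eq_zero]
    refine ⟨b y, hbG _ y hy, ?_⟩
    rw [← hbd, hyx]
    rfl
  let f : Hi X i →ₗ[F] Hi Y i := (Bi X i).liftQ (hmk Y i ∘ₗ bZ) hB
  have hf : ∀ x : Zi X i, f (hmk X i x) = hmk Y i (bZ x) := fun x => rfl
  -- the correspondence
  let Q : Submodule F X.V := X.G i ⊓ ((X.G (i - 1)).map a).comap X.d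
  have hQ : ∀ y ∈ Q, X.d y ∈ LinearMap.range a := by
    intro y hy
    obtain ⟨w, _, hw⟩ := hy.2
    exact ⟨w, hw⟩
  let e := LinearEquiv.ofInjective a hai
  let wV : Q →ₗ[F] X.V := e.symm.toLinearMap ∘ₗ (LinearMap.restrict X.d hQ)
  have hw : ∀ y : Q, a (wV y) = X.d (y : X.V) := by
    intro y
    have h1 : (e (e.symm (LinearMap.restrict X.d hQ y)) : X.V) = X.d (y : X.V) := by
      rw [LinearEquiv.apply_symm_apply]
      rfl
    exact h1
  have hwG : ∀ y : Q, wV y ∈ X.G (i - 1) := by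
    intro y
    obtain ⟨w, hw1, hw2⟩ := y.2.2
    have h1 : wV y = w := hai (by rw [hw]; exact hw2.symm)
    rw [h1]
    exact hw1
  have hwZ : ∀ y : Q, wV y ∈ Zi X (i - 1) := by
    intro y
    refine ⟨hwG y, ?_⟩
    change X.d (wV y) = 0
    apply hinj
    rw [had, hw, X.dd]
  let w : Q →ₗ[F] Zi X (i - 1) := wV.codRestrict (Zi X (i - 1)) hwZ
  let ρ : Q →ₗ[F] Hi X (i - 1) := hmk X (i - 1) ∘ₗ w
  have hQZ : ∀ y ∈ Q, b y ∈ Zi Y i := by
    intro y hy
    refine ⟨hbG i y hy.1, ?_⟩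
    obtain ⟨u, _, hu⟩ := hy.2
    change Y.d (b y) = 0
    have h1 : a u = X.d y := hu
    rw [← hbd, ← h1, hba]
  let bQ : Q →ₗ[F] Zi Y i := LinearMap.restrict b hQZ
  let π : Q →ₗ[F] Hi Y i := hmk Y i ∘ₗ bQ
  have hπ : Function.Surjective π := by
    intro t
    obtain ⟨y', rfl⟩ := hmk_surj Y i t
    obtain ⟨y, hy, hyy⟩ := hsur i (y' : Y.V) y'.2.1
    have h1 : b (X.d y) = 0 := by
      rw [hbd, hyy]
      exact y'.2.2
    obtain ⟨u, hu, huy⟩ := hex (i - 1) (X.d y) (X.dG i y hy) h1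
    refine ⟨⟨y, hy, ⟨u, hu, huy⟩⟩, ?_⟩
    change hmk Y i (bQ ⟨y, _⟩) = hmk Y i y'
    congr 1
    exact Subtype.ext hyy
  have hρ : Function.Surjective ρ := by
    intro t
    obtain ⟨x, rfl⟩ := hmk_surj X (i - 1) t
    obtain ⟨v, hv, hvx⟩ := h0 (i - 1) x x.2
    rw [hi1] at hv
    refine ⟨⟨v, hv, ⟨x, x.2.1, hvx.symm⟩⟩, ?_⟩
    change hmk X (i - 1) (w ⟨v, _⟩) = hmk X (i - 1) x
    congr 1
    apply Subtype.ext
    apply hai
    change a (wV ⟨v, _⟩) = a x
    rw [hw]
    exact hvx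
  have hle : LinearMap.ker π ≤ LinearMap.ker ρ := by
    intro y hy
    rw [LinearMap.mem_ker] at hy ⊢
    have h1 : hmk Y i (bQ y) = 0 := hy
    rw [hmk_eq_zero] at h1
    obtain ⟨z', hz', hzy⟩ := h1
    obtain ⟨z, hz, hzz⟩ := hsur (i + 1) z' hz'
    have h2 : b ((y : X.V) - X.d z) = 0 := by
      rw [map_sub, hbd, hzz, hzy]
      exact sub_self _
    obtain ⟨u, hu, huy⟩ := hex i _ (Submodule.sub_mem _ y.2.1 (hdG i z hz)) h2
    change hmk X (i - 1) (w y) = 0
    rw [hmk_eq_zero]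
    refine ⟨u, by rw [hi1]; exact hu, ?_⟩
    apply hai
    change a (X.d u) = a (wV y)
    rw [hw, had, huy, map_sub, X.dd, sub_zero]
  let g : Hi Y i →ₗ[F] Hi X (i - 1) :=
    ((LinearMap.ker π).liftQ ρ hle) ∘ₗ (LinearMap.quotKerEquivOfSurjective π hπ).symm.toLinearMap
  have hg : ∀ y : Q, g (π y) = ρ y := by
    intro y
    have h1 : (LinearMap.quotKerEquivOfSurjective π hπ).symm (π y) =
        Submodule.Quotient.mk y := by
      rw [LinearEquiv.symm_apply_eq]
      rfl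
    change ((LinearMap.ker π).liftQ ρ hle) ((LinearMap.quotKerEquivOfSurjective π hπ).symm (π y)) =
      ρ y
    rw [h1]
    rfl
  refine ⟨f, g, ?_, ?_, ?_⟩
  · rw [injective_iff_map_eq_zero]
    intro t ht
    obtain ⟨x, rfl⟩ := hmk_surj X i t
    rw [hf, hmk_eq_zero] at ht
    obtain ⟨y', hy', hyx⟩ := ht
    obtain ⟨y, hy, hyy⟩ := hsur (i + 1) y' hy'
    have h2 : b ((x : X.V) - X.d y) = 0 := by
      rw [map_sub, hbd, hyy, hyx]
      exact sub_self _
    obtain ⟨u, hu, huy⟩ := hex i _ (Submodule.sub_mem _ x.2.1 (hdG i y hy)) h2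
    have h3 : X.d u = 0 := by
      apply hinj
      have h4 : X.d (x : X.V) = 0 := x.2.2
      rw [had, huy, map_sub, h4, X.dd, sub_zero]
    obtain ⟨v, hv, hvu⟩ := h0 i u ⟨hu, h3⟩
    rw [hmk_eq_zero]
    refine ⟨y + v, Submodule.add_mem _ hy hv, ?_⟩
    rw [map_add, hvu, huy]
    abel
  · intro t
    obtain ⟨y, rfl⟩ := hρ t
    exact ⟨π y, hg y⟩
  · intro t
    obtain ⟨y, rfl⟩ := hπ t
    rw [hg]
    constructor
    · intro hy
      have h1 : hmk X (i - 1) (w y) = 0 := hy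
      rw [hmk_eq_zero] at h1
      obtain ⟨u, hu, huy⟩ := h1
      rw [hi1] at hu
      have huy' : X.d u = wV y := huy
      have h2 : (y : X.V) - a u ∈ Zi X i := by
        refine ⟨Submodule.sub_mem _ y.2.1 (haG i u hu), ?_⟩
        change X.d ((y : X.V) - a u) = 0
        rw [map_sub, ← had, huy', hw, sub_self]
      refine ⟨hmk X i ⟨_, h2⟩, ?_⟩
      rw [hf]
      change hmk Y i _ = hmk Y i _
      congr 1
      apply Subtype.ext
      change b ((y : X.V) - a u) = b y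
      rw [map_sub, hba, sub_zero]
    · rintro ⟨s, hs⟩
      obtain ⟨x, rfl⟩ := hmk_surj X i s
      have hx : (x : X.V) ∈ Q := by
        refine ⟨x.2.1, ⟨0, Submodule.zero_mem _, ?_⟩⟩
        have h4 : X.d (x : X.V) = 0 := x.2.2
        rw [map_zero, h4]
      have h5 : f (hmk X i x) = π ⟨x, hx⟩ := rfl
      rw [h5] at hs
      have h6 : ρ y = ρ ⟨x, hx⟩ := by rw [← hg, ← hg, hs]
      rw [h6]
      change hmk X (i - 1) (w ⟨x, hx⟩) = 0
      have h7 : w ⟨x, hx⟩ = 0 := by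
        apply Subtype.ext
        apply hinj
        change a (wV ⟨x, hx⟩) = 0
        rw [hw]
        exact x.2.2
      rw [h7, map_zero]

/-- The Euler characteristic of `Y` is zero. -/
theorem sEZt : S_EZt := by
  intro F _ _ X Y a b h h0 hfin N hN L _ ε hflat
  choose f g hf hg hfg using EZt_ex a b h h0
  have hadd : ∀ i, HBx.hrk ε (Hi Y i) = HBx.hrk ε (Hi X i) + HBx.hrk ε (Hi X (i - 1)) := by
    intro i
    have := hfin i
    exact EZt_rk (f i) (g i) (hf i) (hg i) (hfg i) ε hflat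
  have hz : ∀ i : ℤ, (N : ℤ) < |i| → HBx.hrk ε (Hi X i) = 0 := by
    intro i hi
    have := hN i hi
    have : Subsingleton (Hi X i) := (hf i).subsingleton
    letI : Algebra F L := ε.toAlgebra
    change Module.finrank L (L ⊗[F] (Hi X i)) = 0
    exact Module.finrank_zero_of_subsingleton
  refine ⟨hfin, N + 1, ?_, ?_⟩
  · intro i hi
    apply hN
    push_cast at hi
    omega
  · have h1 := EZt_tel (fun i => (i.negOnePow : ℤ) * (HBx.hrk ε (Hi X i) : ℤ)) (N + 1)
    have h2 : ∀ i : ℤ, ((i.negOnePow : ℤ) * (HBx.hrk ε (Hi X i) : ℤ)) -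
        (((i - 1).negOnePow : ℤ) * (HBx.hrk ε (Hi X (i - 1)) : ℤ)) =
        (i.negOnePow : ℤ) * (HBx.hrk ε (Hi Y i) : ℤ) := by
      intro i
      rw [hadd i]
      have h3 : (((i - 1).negOnePow : ℤˣ) : ℤ) = -((i.negOnePow : ℤˣ) : ℤ) := by
        rw [Int.negOnePow_sub, Int.negOnePow_one]
        push_cast
        ring
      rw [h3]
      push_cast
      ring
    simp only [h2] at h1
    rw [h1, hz _ (by push_cast; rw [abs_of_nonneg (by positivity)]; omega),
      hz _ (by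
        push_cast
        rw [abs_of_nonpos (by omega)]
        omega)]
    simp

end HAx
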