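import Pool.Agent.Lib.MP_181146_gt.HA.SpecF
import Pool.Agent.Lib.MP_181146_gt.HM.All

/-!
# Project HA (part A): final assembly (author helper45)
-/

set_option autoImplicit false
set_option linter.unusedVariables false

noncomputable section

namespace HAx

open HEp HPx HRx HBy

/-- The identity as a morphism. -/
def idZ {m : ℕ} (D : HMx.DM ℤ m) : HMx.DM.Hom D.toZ D where
  f j := AddMonoidHom.id (D.D j)
  fY _ _ _ := rfl

/-- The norm form acts as zero, transport along injective morphisms. -/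
theorem KL_inj (hEvH : S_EvH) {m : ℕ} {D D' : HMx.DM ℤ m} (e : HMx.DM.Hom D D')
    (he : ∀ d, Function.Injective (e.f d)) (f : Polynomial ℤ) (h : HMx.DM.KL f D') :
    HMx.DM.KL f D := by
  unfold HMx.DM.KL at h ⊢
  refine DFunLike.ext _ _ ?_
  intro x
  funext j
  apply he j
  rw [hEvH m D D' e (HMx.kapP f m) x j, h]
  exact (map_zero _).symm

theorem KL_toZ (hEvH : S_EvH) {m : ℕ} (D : HMx.DM ℤ m) (f : Polynomial ℤ)
    (h : HMx.DM.KL f D) : HMx.DM.KL f D.toZ :=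
  KL_inj hEvH (idZ D) (fun d => Function.injective_id) f h

section

variable {G : Type} [CommGroup G] (g : GD G)

theorem caseK (hEvH : S_EvH) (hPSx : S_PSx) (hKLp : S_KLp) (hOneC : S_OneC) (hEZC1 : S_EZC1)
    (hEZC2 : S_EZC2) (hIoF : S_IoF) (hPfT : S_PfT) (hR5 : S_R5)
    (hOpN : S_OpN) (hMCm : S_MCm) (hMitA : S_MitA) (hExB : S_ExB) (hExI : S_ExI)
    (hExS : S_ExS) (hDifF : S_DifF) (hGPM : S_GPM) (hCLM : S_CLM) (hNulZ : S_NulZ)
    (hNulA : S_NulA) (hClF : HBy.S_ClF) (hTelQ : HBy.S_TelQ) (hECq : HBy.S_ECq)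
    (hTelX : HBy.S_TelX) (hECx : HBy.S_ECx) (hECu : HBy.S_ECu) [Finite G]
    {X : AX G} {K : ℕ} (hg : GDG g X K) (q j : ℕ) (hq : q.Prime) (hj : 1 ≤ j)
    (hκ : g.κ = kcf (HMx.kapP (Polynomial.X ^ g.m - Polynomial.C (q : ℤ)) g.m))
    (U : ZCx (ZG G)) (u : FMap U (gcG (CF g.K ℤ) (cfA ℤ g.al g.al1 g.alm))) (hu : u.QI) :
    U.EC = 0 := by
  have hm1 := hg.m1
  have hm0 : 0 < g.m := by omega
  have hmb : g.m ≤ g.b := by
    have h1 := g.nw
    have h2 := g.nb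
    have h3 := hg.mw
    omega
  have hh : (HMx.kapP (HMx.fq q g.m) g.m).IsHomogeneous g.m := HMx.nHom _ _
  have hf := HMx.fq_monic q hm0
  have hd := HMx.fq_deg q g.m
  have hκ' : g.κ = kcf (HMx.kapP (HMx.fq q g.m) g.m) := hκ
  have hKLk := HMx.aKLk (HMx.fq q g.m) g.m
  have qo : ∀ D : HMx.DM ℤ g.m, HMx.DM.KL (HMx.fq q g.m) D → QOK g (toR D) := fun D hD =>
    qokDc g hDifF hGPM hCLM (HMx.fq q g.m) hmb hh hκ' D (KL_toZ hEvH D _ hD)
  have main : HMx.DM.KL (HMx.fq q g.m) (HMx.Dkap (HMx.fq q g.m) g.m) →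
      PE g (toR (HMx.Dkap (HMx.fq q g.m) g.m)) := by
    refine HMx.fq_pri q g.m hm0 (fun D => HMx.DM.KL (HMx.fq q g.m) D → PE g (toR D)) ?_ ?_ ?_
    · intro D D' e he h hKL
      have h1 : HMx.DM.KL (HMx.fq q g.m) D := KL_inj hEvH e (fun d => (he d).1) _ hKL
      exact PE_iso g hOpN hMCm hExB hExI hExS hDifF hTelQ hECq (toHZ e) he (qo D h1) (h h1)
    · intro D' D D'' a b hab h1 h2 h3 p1 p2 _
      exact PE_ex g hOpN hMCm hExB hExI hExS hTelX hECx (toHZ a) (toHZ b) hab.inj hab.zer hab.ex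
        hab.sur (qo D' h1) (qo D h2) (p1 h1) (p2 h2)
    · intro c hc hcm hKL
      obtain ⟨i1, i2, i3, -⟩ := HMx.fq_ring q g.m c hm0 hq.pos
      have o : TOK g (zDc g c (HMx.rr (HMx.fq q g.m) g.m c) hm0) (zX_cc _)
          (DX g c (HMx.rr (HMx.fq q g.m) g.m c)) :=
        tokDc g c _ hDifF hGPM hCLM hKLp (HMx.fq q g.m) hm0 hc hmb hh hκ' hKL
      have o1 : QOK g (toR (HMx.DSt (HMx.FF (HMx.fq q g.m) c) g.m c
          (HMx.rr (HMx.fq q g.m) g.m c) (HMx.Lt g.m c))) :=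
        qokDc g hDifF hGPM hCLM (HMx.fq q g.m) hmb hh hκ' _ hKL
      have kc : KoC g c (HMx.rr (HMx.fq q g.m) g.m c) := by
        refine ⟨?_, ?_, ?_⟩
        · rw [hκ']
          exact ko_zero _ _ g.b hh hmb (hKLp _ g.m c _ (HMx.Lt g.m c) _ hKL)
        · rw [hκ']
          exact ko_zero _ _ g.b hh hmb hKL
        · rw [hκ']
          exact ko_zero _ _ g.b hh hmb (KL_toZ hEvH _ _ hKL)
      have hPerf : (TG g o).Perf := hPfT G g _ (hg.perfF _) c _ hm0 hc kc o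
      refine peDc g c (HMx.rr (HMx.fq q g.m) g.m c) hOpN hMCm hMitA hExB hExI hExS hDifF hGPM
        hCLM hNulZ hNulA hPSx hClF hOneC hm0 o o1 hPerf ?_
      intro L _ _ e
      rcases Nat.lt_or_ge 1 c with hc1 | hc1
      · exact ezc2 g c _ hOpN hMCm hMitA hExB hExI hExS hDifF hCLM hNulZ hNulA hPSx hKLp hClF
          hEZC2 (HMx.fq q g.m) hm0 (by omega) hc1 hmb hh hκ' hKL o hPerf L e
      · obtain rfl : c = 1 := le_antisymm hc1 hc
        obtain ⟨E1, ι, h1, h2, h3, h4⟩ := hIoF G g _ (HMx.rr (HMx.fq q g.m) g.m 1) hm0 kc o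
        exact hEZC1 _ G _ (TG g o) (cE (TC g o)) (CF g.K _) E1 ι h1 h2 h3 L e
          (hg.ez _ L e E1 h4)
  have hKL := (hKLk 1 hf hd hh).2
  exact (hECu _ _ _ _ (main hKL (qo _ hKL)) (hR5 G g U u hu (HMx.fq q g.m) hf hd hh hg.mw hκ'
    (qo _ hKL))).symm

theorem kcf_zero (m : ℕ) : kcf (0 : MvPolynomial (Fin m) ℤ) = fun _ => 0 := by
  funext a
  exact MvPolynomial.coeff_zero _

theorem case0 (hR0 : S_R0) (hDifF : S_DifF) (hGPM : S_GPM) (hCLM : S_CLM) (hCl0 : HBy.S_Cl0)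
    [Finite G] (hκ : g.κ = kcf (0 : MvPolynomial (Fin g.m) ℤ))
    (U : ZCx (ZG G)) (u : FMap U (gcG (CF g.K ℤ) (cfA ℤ g.al g.al1 g.alm))) (hu : u.QI) :
    U.EC = 0 := by
  have o : QOK g (DU ℤ g.m) := by
    refine qok g hDifF hGPM hCLM _ (toR_comm _) ?_
    rw [hκ, kcf_zero]
    exact Ko_zero _ _ _ _
  have h := hR0 G g U u hu o
  have hP : (QG g _ o).Perf := by
    obtain ⟨V, F, hF, -⟩ := h
    exact ⟨V, F, hF⟩
  have : IsNoetherianRing (ZG G) := by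
    have : Module.Finite ℤ (ZG G) := by
      change Module.Finite ℤ (MonoidAlgebra ℤ G)
      infer_instance
    exact IsNoetherianRing.of_finite ℤ (ZG G)
  have h0 := g.n2
  exact hCl0 (ZG G) (QG g _ o) g.n (QC g _ o) (by omega) (by exact_mod_cast g.n1)
    (perf_bdH _ hP) U.EC h

end

end HAx
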