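import Pool.Agent.Lib.MP_181146_gt.HA.Lam
import Pool.Agent.Lib.MP_181146_gt.HR.DefsQ
import Pool.Agent.Lib.MP_181146_gt.HM.DefsG

/-!
# Project HA (part A), specification H: the modules of part E in the form of part R

`toR`, `kcf`, `lamF` of `HA/DefsA2.lean`, `HA/Lam.lean`; `DSt F m c r ∅` is the module of all functions.
-/

set_option linter.unusedVariables false
set_option autoImplicit false

noncomputable section

namespace HAx

open HMx HRx

/-- The coefficients of the linear form of index `i0`, indexed by `ℕ`. -/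
def lamN {F : Type} [CommRing F] {m : ℕ} (c : ℕ) (r : Fin m → Fin m → F) (i0 : Fin m) (i : ℕ) : F :=
  if h : i < m then lamF c r i0 ⟨i, h⟩ else 0

/-- **CfU** (from HMx.pSec).  Sections of the shifts on the functions on all exponents. -/
def S_CfU : Prop :=
  ∀ (F : Type) [CommRing F] (m c : ℕ) (r : Fin m → Fin m → F),
    Nonempty ((toR (DSt F m c r ∅)).Cf m) ∧
    ∃ e : (toR (DSt F m c r ∅)).D 0 →ₗ[F] F, Function.Bijective e

/-- **Shp** (from HMx.pSec).  The section of `Y i`, `i` outside `S`. -/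
def S_Shp : Prop :=
  ∀ (F : Type) [CommRing F] (m c : ℕ) (r : Fin m → Fin m → F) (S : Finset (Fin m)) (i : Fin m)
    (hi : i ∉ S) (hc : S.Nonempty → i.val < c),
    ∃ τ : ∀ l, (toR (DSt F m c r S)).D l →ₗ[F] (toR (DSt F m c r S)).D (l + 1),
      (∀ l x, (toR (DSt F m c r S)).Y i l (τ l x) = x) ∧
      ∀ a : ℕ, a ≠ i → ∀ x, (toR (DSt F m c r S)).tY a ((toR (DSt F m c r S)).up τ x) =
        (toR (DSt F m c r S)).up τ ((toR (DSt F m c r S)).tY a x)

/-- **Chn** (from HMx.aDs).  The module for `insert i S` is the kernel of the linear form of index `i` on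
the module for `S`; the linear form is onto. -/
def S_Chn : Prop :=
  ∀ (F : Type) [CommRing F] (m c : ℕ) (r : Fin m → Fin m → F) (S : Finset (Fin m)) (i : Fin m)
    (hi : i ∉ S) (hic : i.val < c) (hS : ∀ a ∈ S, a.val < c),
    ∃ j : DHom (RingHom.id F) (toR (DSt F m c r (insert i S))) (toR (DSt F m c r S)),
      (∀ l x, j.f l x = 0 → x = 0) ∧
      (∀ l x, (∑ a ∈ Finset.range m, lamN c r i a • (toR (DSt F m c r S)).tY a) (Pi.single l x) = 0 ↔
        ∃ y, j.f l y = x) ∧
      ∀ l y, ∃ x, (∑ a ∈ Finset.range m, lamN c r i a • (toR (DSt F m c r S)).tY a)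
        (Pi.single (l + 1) x) = Pi.single l y

/-- **KapK** (from koEv, HMx.aEvE, HMx.aKDE).  The functions killed by the norm form are the kernel of
`κ(Y)` on all functions; `κ(Y)` is onto. -/
def S_KapK : Prop :=
  ∀ (f : Polynomial ℤ) (m b c : ℕ) (r : Fin m → Fin m → ℤ) (hf : f.Monic) (hd : f.natDegree = m)
    (hm : 1 ≤ m) (hb : m ≤ b) (hh : (kapP f m).IsHomogeneous m),
    ∃ j : DHom (RingHom.id ℤ) (toR (Dkap f m)) (toR (DSt ℤ m c r ∅)),
      (∀ l x, j.f l x = 0 → x = 0) ∧
      (∀ l x, Ko (toR (DSt ℤ m c r ∅)).tY b (rv m) m (kcf (kapP f m)) (Pi.single l x) = 0 ↔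
        ∃ y, j.f l y = x) ∧
      ∀ l y, ∃ x, Ko (toR (DSt ℤ m c r ∅)).tY b (rv m) m (kcf (kapP f m)) (Pi.single (l + m) x) =
        Pi.single l y

end HAx
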