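import Pool.Agent.Lib.MP_181146_gt.HA.SpecF
import Pool.Agent.Lib.MP_181146_gt.HA.SpecH
import Pool.Agent.Lib.MP_181146_gt.HR.SpecC

/-!
# Project HA (part A): the inputs of the final assembly from part R (author helper45)
-/

set_option autoImplicit false
set_option linter.unusedVariables false

noncomputable section

namespace HAx

open HEp HPx HRx HBy

section

variable {G : Type} [CommGroup G] (g : GD G) {F : Type} [CommRing F] (c : ℕ)
  (r : Fin g.m → Fin g.m → F)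

lemma shp_insert (hm : 0 < g.m) (hc : 1 ≤ c) :
    insert (i0 g hm) ((HMx.Lt g.m c).erase (i0 g hm)) = HMx.Lt g.m c :=
  Finset.insert_erase ((mem_Lt g c _).2 hc)

lemma shp_lt (hm : 0 < g.m) (a : Fin g.m) (ha : a ∈ (HMx.Lt g.m c).erase (i0 g hm)) : a.val < c :=
  (mem_Lt g c a).1 (Finset.mem_of_mem_erase ha)

/-- Reduction modulo `X`. -/
theorem redX (hPSx : S_PSx) : ∃ b : DHom (PowerSeries.constantCoeff (R := F)) (DX g c r)
    (toR (HMx.DSt F g.m c r (HMx.Lt g.m c))), (∀ l y, ∃ x, b.f l x = y) ∧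
    (∀ l x, b.f l x = 0 → ∃ y, x = (PowerSeries.X : PowerSeries F) • y) ∧
    ∀ l (x : (DX g c r).D l), (PowerSeries.X : PowerSeries F) • x = 0 → x = 0 := by
  obtain ⟨a, b, hab, ha, -, hbs⟩ := hPSx F g.m c r (HMx.Lt g.m c)
  refine ⟨toH _ b hbs, hab.sur, fun l x hx => ?_, fun l x hx => ?_⟩
  · obtain ⟨y, hy⟩ := hab.ex l x hx
    exact ⟨y, hy.symm.trans (ha l y)⟩
  · exact hab.inj l x ((ha l x).trans hx)

/-- The modules for one `c`. -/
def hpk (hm : 0 < g.m) (hc : 1 ≤ c) (kc : KoC g c r) (S : Finset (Fin g.m))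
    (b : DHom (PowerSeries.constantCoeff (R := F)) (DX g c r)
      (toR (HMx.DSt F g.m c r (HMx.Lt g.m c)))) (rs : ∀ l y, ∃ x, b.f l x = y)
    (rk : ∀ l x, b.f l x = 0 → ∃ y, x = (PowerSeries.X : PowerSeries F) • y)
    (sx : ∀ l (x : (DX g c r).D l), (PowerSeries.X : PowerSeries F) • x = 0 → x = 0)
    (j : DHom (RingHom.id F) (toR (HMx.DSt F g.m c r (HMx.Lt g.m c))) (toR (HMx.DSt F g.m c r S)))
    (ji : ∀ l x, j.f l x = 0 → x = 0)
    (jk : ∀ l x, (∑ a ∈ Finset.range g.m, lamN c r (i0 g hm) a •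
      (toR (HMx.DSt F g.m c r S)).tY a) (Pi.single l x) = 0 ↔ ∃ y, j.f l y = x)
    (τ : ∀ l, (toR (HMx.DSt F g.m c r S)).D l →ₗ[F] (toR (HMx.DSt F g.m c r S)).D (l + 1))
    (ts : ∀ l x, (toR (HMx.DSt F g.m c r S)).Y (i0 g hm) l (τ l x) = x)
    (tc : ∀ a : ℕ, a ≠ i0 g hm → ∀ x, (toR (HMx.DSt F g.m c r S)).tY a
      ((toR (HMx.DSt F g.m c r S)).up τ x) =
      (toR (HMx.DSt F g.m c r S)).up τ ((toR (HMx.DSt F g.m c r S)).tY a x)) : HPk g F where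
  DS := DX g c r
  D := toR (HMx.DSt F g.m c r (HMx.Lt g.m c))
  Du := toR (HMx.DSt F g.m c r S)
  DZ := toR (HMx.DSt F g.m c r (HMx.Lt g.m c)).toZ
  z := zDc g c r hm
  z0 := zDc_zero g c r hm
  zc := zX_cc _
  fl := flX c r _ (fun a ha => (mem_Lt g c a).1 ha) (i0 g hm) ((mem_Lt g c _).2 hc)
  cD := toR_comm _
  cDu := toR_comm _
  cDZ := toR_comm _
  kS := kc.kS
  kD := kc.kD
  kZ := kc.kZ
  r := b
  rs := rs
  rk := rk
  sx := sx
  j := j
  ji := ji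
  lam := lamN c r (i0 g hm)
  l0 := by
    unfold lamN lamF
    rw [dif_pos hm, if_pos rfl]
  jk := jk
  τ := τ
  ts := ts
  tc := fun a ha _ => tc a (by
    change a ≠ 0
    omega)
  i := toZH F _
  ib := fun _ => Function.bijective_id

/-- The complexes for the sets `S` are perfect. -/
theorem pfS (hPfK : HRx.S_PfK) (hPrG : HRx.S_PrG) (hChn : S_Chn) (hCfU : S_CfU)
    (hP : (gcG (CF g.K F) (cfA F g.al g.al1 g.alm)).Perf) (S : Finset (Fin g.m))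
    (hS : ∀ a ∈ S, a.val < c) (h : g.P0 (toR (HMx.DSt F g.m c r S))) :
    (g.Qc (toR (HMx.DSt F g.m c r S)) h).Perf := by
  classical
  induction S using Finset.induction_on with
  | empty =>
    obtain ⟨⟨C⟩, e, he⟩ := hCfU F g.m c r
    obtain ⟨V, u, hu⟩ := hP
    obtain ⟨V', u', hu', -⟩ := ((hPrG G g F _ (toR_comm _) C e he h).2 V.EC).2 ⟨V, u, hu, rfl⟩
    exact ⟨V', u', hu'⟩
  | insert i S hi ih =>
    have hS' : ∀ a ∈ S, a.val < c := fun a ha => hS a (Finset.mem_insert_of_mem ha)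
    have h0 : g.P0 (toR (HMx.DSt F g.m c r S)) := g.p0 (toR_comm _)
    obtain ⟨j, ji, jk, js⟩ := hChn F g.m c r S i hi (hS i (Finset.mem_insert_self i S)) hS'
    obtain ⟨o1, o2, o3, -⟩ := pOpL g.K F (toR (HMx.DSt F g.m c r S)) (toR_comm _) g.m
      (lamN c r i)
    refine hPfK G g F _ _ j ji _ o1 1 ?_ ?_ js jk h h0 (ih hS' h0)
    · intro l hl x
      obtain rfl : l = 0 := by omega
      exact o2 x
    · intro l x
      exact ⟨_, o3 l x⟩

theorem sPfT (hPSx : S_PSx) (hPfK : HRx.S_PfK) (hPrG : HRx.S_PrG) (hPfS : HRx.S_PfS)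
    (hChn : S_Chn) (hCfU : S_CfU) (hShp : S_Shp) : S_PfT := by
  intro G _ g F _ _ _ _ _ hP c r hm hc kc o
  obtain ⟨b, rs, rk, sx⟩ := redX g c r hPSx
  have hn : i0 g hm ∉ (HMx.Lt g.m c).erase (i0 g hm) := Finset.notMem_erase _ _
  have h1 := hChn F g.m c r ((HMx.Lt g.m c).erase (i0 g hm)) (i0 g hm) hn hc (shp_lt g c hm)
  rw [shp_insert g c hm hc] at h1
  obtain ⟨j, ji, jk, -⟩ := h1
  obtain ⟨τ, ts, tc⟩ := hShp F g.m c r ((HMx.Lt g.m c).erase (i0 g hm)) (i0 g hm) hn (fun _ => hc)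
  exact hPfS G g F (hpk g c r hm hc kc _ b rs rk sx j ji jk τ ts tc) hm
    (pfS g c r hPfK hPrG hChn hCfU hP _ (shp_lt g c hm) _)

theorem sIoF (hPSx : S_PSx) (hOutI : HRx.S_OutI) (hChn : S_Chn) (hCfU : S_CfU) (hShp : S_Shp) :
    S_IoF := by
  intro G _ g F _ r hm kc o
  obtain ⟨b, rs, rk, sx⟩ := redX g 1 r hPSx
  have h0 : (HMx.Lt g.m 1).erase (i0 g hm) = ∅ := by
    refine Finset.eq_empty_of_forall_notMem fun a ha => ?_
    have h1 := shp_lt g 1 hm a ha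
    refine Finset.ne_of_mem_erase ha (Fin.ext ?_)
    change a.val = 0
    omega
  have hn : i0 g hm ∉ (∅ : Finset (Fin g.m)) := Finset.notMem_empty _
  have h1 := hChn F g.m 1 r ∅ (i0 g hm) hn Nat.one_pos (fun a ha => absurd ha (Finset.notMem_empty a))
  have e : insert (i0 g hm) (∅ : Finset (Fin g.m)) = HMx.Lt g.m 1 := by
    rw [← h0]
    exact shp_insert g 1 hm le_rfl
  rw [e] at h1
  obtain ⟨j, ji, jk, -⟩ := h1
  obtain ⟨τ, ts, tc⟩ := hShp F g.m 1 r ∅ (i0 g hm) hn (fun h => absurd h Finset.not_nonempty_empty)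
  obtain ⟨⟨C⟩, e0, he0⟩ := hCfU F g.m 1 r
  obtain ⟨E1, ι, h2, h3, h4, h5⟩ := hOutI G g F
    (hpk g 1 r hm le_rfl kc ∅ b rs rk sx j ji jk τ ts tc) hm C e0 he0
  exact ⟨E1, ι, h3, h4, h5, h2⟩

theorem sR0 (hPrG : HRx.S_PrG) (hCfU : S_CfU) : S_R0 := by
  intro G _ g U u hu o
  obtain ⟨⟨C⟩, e, he⟩ := hCfU ℤ g.m 0 (fun _ _ => 0)
  exact ((hPrG G g ℤ _ (toR_comm _) C e he ⟨o.h, o.p⟩).2 U.EC).2 ⟨U, u, hu, rfl⟩

end

end HAx
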