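import Pool.Agent.Lib.MP_181146_gt.HA.SpecP

/-!
# Project HA: the chains with values in a ring are perfect over the group ring (PF)

`PF_abs`: base change of a homotopy equivalence along `Z → R`.
-/

set_option autoImplicit false

namespace HAx

open scoped TensorProduct
open HEp HPx HRx HBy

/-! ## A. Base change -/

section Abs

variable {Z R : Type} [CommRing Z] [CommRing R] [Algebra Z R]

/-- Linear maps which agree on `1 ⊗ x` agree. -/
private lemma PF_bext {M N : Type} [AddCommGroup M] [Module Z M] [AddCommGroup N] [Module R N]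
    {A B : R ⊗[Z] M →ₗ[R] N} (h : ∀ x : M, A (1 ⊗ₜ x) = B (1 ⊗ₜ x)) (y : R ⊗[Z] M) : A y = B y := by
  induction y with
  | zero => rw [map_zero, map_zero]
  | add x y hx hy => rw [map_add, map_add, hx, hy]
  | tmul a x =>
    have e : a ⊗ₜ[Z] x = a • ((1 : R) ⊗ₜ[Z] x) := by
      rw [TensorProduct.smul_tmul', smul_eq_mul, mul_one]
    rw [e, map_smul, map_smul, h]

/-- The differential with two indices. -/
private noncomputable def PF_d2 {P : ℕ → Type} [∀ i, AddCommGroup (P i)] [∀ i, Module R (P i)]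
    (d : ∀ i, P (i + 1) →ₗ[R] P i) (i j : ℕ) : P i →ₗ[R] P j :=
  if h : j + 1 = i then h ▸ d j else 0

private lemma PF_d2_succ {P : ℕ → Type} [∀ i, AddCommGroup (P i)] [∀ i, Module R (P i)]
    (d : ∀ i, P (i + 1) →ₗ[R] P i) (i : ℕ) : PF_d2 d (i + 1) i = d i := by
  unfold PF_d2
  rw [dif_pos rfl]

private lemma PF_d2_shape {P : ℕ → Type} [∀ i, AddCommGroup (P i)] [∀ i, Module R (P i)]
    (d : ∀ i, P (i + 1) →ₗ[R] P i) (i j : ℕ) (h : j + 1 ≠ i) : PF_d2 d i j = 0 := by
  unfold PF_d2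
  rw [dif_neg h]

private lemma PF_d2_dd {P : ℕ → Type} [∀ i, AddCommGroup (P i)] [∀ i, Module R (P i)]
    (d : ∀ i, P (i + 1) →ₗ[R] P i) (dd : ∀ i x, d i (d (i + 1) x) = 0) (i j k : ℕ) (x : P i) :
    PF_d2 d j k (PF_d2 d i j x) = 0 := by
  by_cases h1 : j + 1 = i
  · by_cases h2 : k + 1 = j
    · subst h2
      subst h1
      rw [PF_d2_succ, PF_d2_succ]
      exact dd k x
    · rw [PF_d2_shape d j k h2, LinearMap.zero_apply]
  · rw [PF_d2_shape d i j h1, LinearMap.zero_apply, map_zero]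

/-- A homotopy equivalence of a bounded complex with a big complex: the big complex is perfect. -/
private theorem PF_core (U : ℕ → Type) [∀ i, AddCommGroup (U i)] [∀ i, Module R (U i)]
    (fi : ∀ i, Module.Finite R (U i)) (pr : ∀ i, Module.Projective R (U i))
    (D : ∀ i, U (i + 1) →ₗ[R] U i) (DD : ∀ i x, D i (D (i + 1) x) = 0) (N : ℕ)
    (bdd : ∀ i, N < i → Subsingleton (U i)) (T : GC R) (hT : ∀ i : ℤ, i < 0 → ∀ x ∈ T.G i, x = 0)
    (F : ∀ i, U i →ₗ[R] T.V) (F' : ∀ i, T.V →ₗ[R] U i) (H : ∀ i, U i →ₗ[R] U (i + 1))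
    (S : T.V →ₗ[R] T.V)
    (FG : ∀ (i : ℕ) (x : U i), F i x ∈ T.G i) (Fd : ∀ i x, F i (D i x) = T.d (F (i + 1) x))
    (F'd : ∀ i c, F' i (T.d c) = D i (F' (i + 1) c))
    (H0 : ∀ x, F' 0 (F 0 x) - x = D 0 (H 0 x))
    (Hs : ∀ i x, F' (i + 1) (F (i + 1) x) - x = D (i + 1) (H (i + 1) x) + H i (D i x))
    (SG : ∀ i : ℕ, ∀ c ∈ T.G i, S c ∈ T.G ((i : ℤ) + 1))
    (HS : ∀ i : ℕ, ∀ c ∈ T.G i, F i (F' i c) - c = T.d (S c) + S (T.d c)) : T.Perf := by
  let W : ZCx R := ofNat U fi pr (PF_d2 D) (PF_d2_shape D) (PF_d2_dd D DD) N bdd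
  let f : ∀ i : ℤ, W.P i →ₗ[R] T.V := fun i => match i with
    | Int.ofNat n => F n
    | Int.negSucc _ => 0
  have fG : ∀ i x, f i x ∈ T.G i := by
    rintro (n | n) x
    · exact FG n x
    · exact (T.G _).zero_mem
  have fd : ∀ (i j : ℤ), i - 1 = j → ∀ x, f j (W.d i j x) = T.d (f i x) := by
    rintro (n | n) (m | m) h x
    · have h1 : n = m + 1 := by
        have h2 : (n : ℤ) - 1 = m := h
        omega
      subst h1
      change F m (PF_d2 D (m + 1) m x) = T.d (F (m + 1) x)
      rw [PF_d2_succ, Fd]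
    · have h1 : n = 0 := by
        have h2 : (n : ℤ) - 1 = Int.negSucc m := h
        omega
      subst h1
      change (0 : PUnit →ₗ[R] T.V) _ = T.d (F 0 x)
      have h3 : T.d (F 0 x) = 0 := hT _ (by norm_num) _ (T.dG _ _ (FG 0 x))
      rw [h3]
      rfl
    · exfalso
      have h2 : (Int.negSucc n) - 1 = (m : ℤ) := h
      omega
    · change (0 : PUnit →ₗ[R] T.V) _ = T.d ((0 : PUnit →ₗ[R] T.V) x)
      rw [LinearMap.zero_apply, LinearMap.zero_apply, map_zero]
  let Φ : FMap W T := ⟨f, fG, fun i x => fd i (i - 1) rfl x⟩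
  refine ⟨W, Φ, ?_, ?_⟩
  · rintro (n | n) x hx ⟨z, hz, hzx⟩
    · cases n with
      | zero =>
        refine ⟨Int.ofNat 1, F' 1 z - H 0 x, ?_⟩
        change PF_d2 D 1 0 (F' 1 z - H 0 x) = x
        rw [PF_d2_succ, map_sub]
        have h1 : T.d z = F 0 x := hzx
        rw [← F'd, h1, ← H0]
        exact sub_sub_cancel _ _
      | succ n =>
        refine ⟨Int.ofNat (n + 2), F' (n + 2) z - H (n + 1) x, ?_⟩
        change PF_d2 D (n + 1 + 1) (n + 1) (F' (n + 2) z - H (n + 1) x) = x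
        rw [PF_d2_succ, map_sub]
        have h1 : T.d z = F (n + 1) x := hzx
        have h2 : D n x = 0 := by
          have h3 := hx (Int.ofNat n)
          change PF_d2 D (n + 1) n x = 0 at h3
          rwa [PF_d2_succ] at h3
        have h4 := Hs n x
        rw [h2, map_zero, add_zero] at h4
        rw [← F'd, h1, ← h4]
        exact sub_sub_cancel _ _
    · exact ⟨0, 0, Subsingleton.elim (α := PUnit) _ _⟩
  · rintro (n | n) y ⟨hy, hyd⟩
    · refine ⟨F' n y, ?_, -(S y), ?_, ?_⟩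
      · rintro (m | m)
        · change PF_d2 D n m (F' n y) = 0
          by_cases h1 : m + 1 = n
          · subst h1
            rw [PF_d2_succ, ← F'd, hyd, map_zero]
          · rw [PF_d2_shape D n m h1, LinearMap.zero_apply]
        · rfl
      · exact (T.G _).neg_mem (SG n y hy)
      · change T.d (-(S y)) = y - F n (F' n y)
        have h1 := HS n y hy
        rw [hyd, map_zero, add_zero] at h1
        rw [map_neg, ← h1]
        abel
    · refine ⟨0, fun _ => map_zero _, 0, (T.G _).zero_mem, ?_⟩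
      rw [hT _ (by omega) y hy, map_zero, map_zero, sub_zero]

/-- Base change of a homotopy equivalence. -/
private theorem PF_abs (P : ℕ → Type) [∀ i, AddCommGroup (P i)] [∀ i, Module Z (P i)]
    [∀ i, Module.Finite Z (P i)] [∀ i, Module.Projective Z (P i)] (d : ∀ i, P (i + 1) →ₗ[Z] P i)
    (dd : ∀ i x, d i (d (i + 1) x) = 0) (N : ℕ) (hN : ∀ i, N < i → Subsingleton (P i))
    (V : Type) [AddCommGroup V] [Module Z V] (δ : V →ₗ[Z] V) (GV : ℕ → Submodule Z V)
    (T : GC R) [Module Z T.V] [IsScalarTower Z R T.V] (ι : V →ₗ[Z] T.V)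
    (hιd : ∀ x, ι (δ x) = T.d (ι x)) (hιG : ∀ i : ℕ, ∀ x ∈ GV i, ι x ∈ T.G i)
    (hT : ∀ i : ℤ, i < 0 → ∀ x ∈ T.G i, x = 0)
    (univ : ∀ (M : Type) [AddCommGroup M] [Module R M] [Module Z M] [IsScalarTower Z R M]
      (φ : V →ₗ[Z] M), ∃ ψ : T.V →ₗ[R] M, ∀ x, ψ (ι x) = φ x)
    (gen : ∀ x : T.V, x ∈ Submodule.span R (Set.range ι))
    (genG : ∀ i : ℕ, ∀ x ∈ T.G i, x ∈ Submodule.span R (ι '' (GV i : Set V)))
    (f : ∀ i, P i →ₗ[Z] V) (f' : ∀ i, V →ₗ[Z] P i) (h : ∀ i, P i →ₗ[Z] P (i + 1))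
    (t : V →ₗ[Z] V)
    (fG : ∀ i x, f i x ∈ GV i) (fd : ∀ i x, f i (d i x) = δ (f (i + 1) x))
    (f'd : ∀ i c, f' i (δ c) = d i (f' (i + 1) c))
    (h0 : ∀ x, f' 0 (f 0 x) - x = d 0 (h 0 x))
    (hs : ∀ i x, f' (i + 1) (f (i + 1) x) - x = d (i + 1) (h (i + 1) x) + h i (d i x))
    (tG : ∀ i, ∀ c ∈ GV i, t c ∈ GV (i + 1))
    (ht : ∀ i, ∀ c ∈ GV i, f i (f' i c) - c = δ (t c) + t (δ c)) : T.Perf := by
  have hF' := fun i => univ (R ⊗[Z] P i) ((TensorProduct.mk Z R (P i) 1) ∘ₗ f' i)
  choose F' hF' using hF'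
  obtain ⟨S, hS⟩ := univ T.V (ι ∘ₗ t)
  have e1 : ∀ i x, F' i (ι x) = (1 : R) ⊗ₜ[Z] f' i x := hF'
  have e2 : ∀ x, S (ι x) = ι (t x) := hS
  have e3 : ∀ i (x : P i), (ι ∘ₗ f i).liftBaseChange R ((1 : R) ⊗ₜ[Z] x) = ι (f i x) := by
    intro i x
    rw [LinearMap.liftBaseChange_tmul, one_smul]
    rfl
  have gext : ∀ {M : Type} [AddCommGroup M] [Module R M] (A B : T.V →ₗ[R] M)
      (_ : ∀ x, A (ι x) = B (ι x)) (y : T.V), A y = B y := by
    intro M _ _ A B hAB y
    have h1 := gen y
    induction h1 using Submodule.span_induction with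
    | mem x hx =>
      obtain ⟨x, rfl⟩ := hx
      exact hAB x
    | zero => rw [map_zero, map_zero]
    | add x y _ _ hx hy => rw [map_add, map_add, hx, hy]
    | smul a x _ hx => rw [map_smul, map_smul, hx]
  refine PF_core (fun i => R ⊗[Z] P i) (fun i => inferInstance) (fun i => inferInstance)
    (fun i => (d i).baseChange R) ?_ N ?_ T hT (fun i => (ι ∘ₗ f i).liftBaseChange R) F'
    (fun i => (h i).baseChange R) S ?_ ?_ ?_ ?_ ?_ ?_ ?_
  · intro i x
    refine PF_bext (A := (d i).baseChange R ∘ₗ (d (i + 1)).baseChange R) (B := 0) ?_ x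
    intro x
    rw [LinearMap.comp_apply, LinearMap.baseChange_tmul, LinearMap.baseChange_tmul, dd,
      TensorProduct.tmul_zero]
    rfl
  · intro i hi
    have := hN i hi
    refine ⟨fun a b => ?_⟩
    have h1 : ∀ a : R ⊗[Z] P i, a = 0 := by
      intro a
      refine PF_bext (A := LinearMap.id) (B := 0) ?_ a
      intro x
      rw [Subsingleton.elim x 0, TensorProduct.tmul_zero, map_zero, map_zero]
    rw [h1 a, h1 b]
  · intro i x
    induction x with
    | zero =>
      rw [map_zero]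
      exact (T.G i).zero_mem
    | add x y hx hy =>
      rw [map_add]
      exact (T.G i).add_mem hx hy
    | tmul a x =>
      rw [LinearMap.liftBaseChange_tmul]
      exact (T.G i).smul_mem a (hιG i _ (fG i x))
  · intro i x
    refine PF_bext (A := (ι ∘ₗ f i).liftBaseChange R ∘ₗ (d i).baseChange R)
      (B := T.d ∘ₗ (ι ∘ₗ f (i + 1)).liftBaseChange R) ?_ x
    intro x
    rw [LinearMap.comp_apply, LinearMap.comp_apply, LinearMap.baseChange_tmul, e3, e3, fd, hιd]
  · intro i c
    refine gext (F' i ∘ₗ T.d) ((d i).baseChange R ∘ₗ F' (i + 1)) ?_ c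
    intro x
    rw [LinearMap.comp_apply, LinearMap.comp_apply, ← hιd, e1, e1, LinearMap.baseChange_tmul, f'd]
  · intro x
    refine PF_bext (A := F' 0 ∘ₗ (ι ∘ₗ f 0).liftBaseChange R - LinearMap.id)
      (B := (d 0).baseChange R ∘ₗ (h 0).baseChange R) ?_ x
    intro x
    rw [LinearMap.sub_apply, LinearMap.comp_apply, LinearMap.comp_apply, LinearMap.baseChange_tmul,
      LinearMap.baseChange_tmul, e3, e1, ← h0, TensorProduct.tmul_sub]
    rfl
  · intro i x
    refine PF_bext (A := F' (i + 1) ∘ₗ (ι ∘ₗ f (i + 1)).liftBaseChange R - LinearMap.id)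
      (B := (d (i + 1)).baseChange R ∘ₗ (h (i + 1)).baseChange R +
        (h i).baseChange R ∘ₗ (d i).baseChange R) ?_ x
    intro x
    rw [LinearMap.sub_apply, LinearMap.add_apply, LinearMap.comp_apply, LinearMap.comp_apply,
      LinearMap.comp_apply, LinearMap.baseChange_tmul, LinearMap.baseChange_tmul,
      LinearMap.baseChange_tmul, LinearMap.baseChange_tmul, e3, e1, ← TensorProduct.tmul_add, ← hs,
      TensorProduct.tmul_sub]
    rfl
  · intro i c hc
    have h1 := genG i c hc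
    clear hc
    induction h1 using Submodule.span_induction with
    | mem x hx =>
      obtain ⟨x, hx, rfl⟩ := hx
      rw [e2]
      have h2 := hιG (i + 1) _ (tG i x hx)
      push_cast at h2
      exact h2
    | zero =>
      rw [map_zero]
      exact (T.G _).zero_mem
    | add x y _ _ hx hy =>
      rw [map_add]
      exact (T.G _).add_mem hx hy
    | smul a x _ hx =>
      rw [map_smul]
      exact (T.G _).smul_mem a hx
  · intro i c hc
    have h1 := genG i c hc
    clear hc
    change (ι ∘ₗ f i).liftBaseChange R (F' i c) - c = _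
    induction h1 using Submodule.span_induction with
    | mem x hx =>
      obtain ⟨x, hx, rfl⟩ := hx
      rw [e1, e3, e2, ← hιd, ← hιd, e2, ← map_sub, ← map_add, ht i x hx]
    | zero => simp only [map_zero, sub_zero, add_zero]
    | add x y _ _ hx hy =>
      simp only [map_add]
      rw [add_sub_add_comm, hx, hy]
      abel
    | smul a x _ hx =>
      simp only [map_smul]
      rw [← smul_sub, hx, smul_add]

end Abs

/-! ## B. The chains -/

section Chains

variable {G : Type} [CommGroup G]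

/-- Additive maps which commute with the elements of the group are linear. -/
private lemma PF_lin {A B : Type} [AddCommGroup A] [Module (ZG G) A] [AddCommGroup B]
    [Module (ZG G) B] (φ : A →+ B)
    (h : ∀ (g : G) x, φ (MonoidAlgebra.of ℤ G g • x) = MonoidAlgebra.of ℤ G g • φ x) (a : ZG G)
    (x : A) : φ (a • x) = a • φ x := by
  induction a using MonoidAlgebra.induction_linear with
  | zero => rw [zero_smul, zero_smul, map_zero]
  | add a b ha hb => rw [add_smul, add_smul, map_add, ha, hb]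
  | single g r =>
    have e : (MonoidAlgebra.single g r : ZG G) = r • MonoidAlgebra.of ℤ G g := by
      rw [MonoidAlgebra.of_apply, MonoidAlgebra.smul_single, smul_eq_mul, mul_one]
    rw [e, smul_assoc, smul_assoc, map_zsmul, h]

variable (F : Type) [CommRing F] {K : SS}

/-- The map of coefficients. -/
private noncomputable def PF_io (K : SS) : Ch ℤ K →+ Ch F K :=
  Finsupp.mapRange.addMonoidHom (Int.castAddHom F)

private lemma PF_io_apply (x : Ch ℤ K) (y : Σ n, K.K n) : PF_io F K x y = ((x y : ℤ) : F) := rfl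

private lemma PF_io_sx {n : ℕ} (x : K.K n) : PF_io F K (sx ℤ x) = sx F x := by
  unfold sx PF_io
  rw [Finsupp.mapRange.addMonoidHom_apply, Finsupp.mapRange_single]
  simp

private lemma PF_io_ext {M : Type} [AddCommGroup M] (A B : Ch ℤ K →+ M)
    (h : ∀ (n : ℕ) (x : K.K n), A (sx ℤ x) = B (sx ℤ x)) (x : Ch ℤ K) : A x = B x := by
  have h1 : A.toIntLinearMap = B.toIntLinearMap := ch_ext h
  exact LinearMap.congr_fun h1 x

private lemma PF_io_bd (x : Ch ℤ K) : PF_io F K (bd ℤ K x) = bd F K (PF_io F K x) := by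
  refine PF_io_ext ((PF_io F K).comp (bd ℤ K).toAddMonoidHom)
    ((bd F K).toAddMonoidHom.comp (PF_io F K)) ?_ x
  intro n x
  change PF_io F K (bd ℤ K (sx ℤ x)) = bd F K (PF_io F K (sx ℤ x))
  rw [PF_io_sx]
  cases n with
  | zero => rw [bd_sx_zero, bd_sx_zero, map_zero]
  | succ n =>
    rw [bd_sx, bd_sx, map_sum]
    refine Finset.sum_congr rfl fun i _ => ?_
    rcases neg_one_pow_eq_or ℤ (i : ℕ) with h | h
    · have h' : (-1 : F) ^ (i : ℕ) = 1 := by
        have := congrArg (Int.castRingHom F) h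
        simpa using this
      rw [h, h', one_smul, one_smul, PF_io_sx]
    · have h' : (-1 : F) ^ (i : ℕ) = -1 := by
        have := congrArg (Int.castRingHom F) h
        simpa using this
      rw [h, h', neg_one_smul, neg_one_smul, map_neg, PF_io_sx]

private lemma PF_io_cmap (a : SSHom K K) (x : Ch ℤ K) :
    PF_io F K (cmap ℤ a x) = cmap F a (PF_io F K x) := by
  refine PF_io_ext ((PF_io F K).comp (cmap ℤ a).toAddMonoidHom)
    ((cmap F a).toAddMonoidHom.comp (PF_io F K)) ?_ x
  intro n x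
  change PF_io F K (cmap ℤ a (sx ℤ x)) = cmap F a (PF_io F K (sx ℤ x))
  rw [PF_io_sx, cmap_sx, cmap_sx, PF_io_sx]

private lemma PF_gr (x : Ch ℤ K) (i : ℕ) : x ∈ gr ℤ K i ↔ x ∈ (CF K ℤ).G (i : ℤ) := by
  have e : {x : Σ n, K.K n | x.1 = i} = {x : Σ n, K.K n | (x.1 : ℤ) = (i : ℤ)} := by
    ext y
    exact (Nat.cast_inj (R := ℤ)).symm
  change x ∈ Finsupp.supported ℤ ℤ {x : Σ n, K.K n | x.1 = i} ↔
    x ∈ Finsupp.supported ℤ ℤ {x : Σ n, K.K n | (x.1 : ℤ) = (i : ℤ)}
  rw [e]

variable (α : G → SSHom K K) (h1 : α 1 = SSHom.id K)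
    (hα : ∀ a b, α (a * b) = (α a).comp (α b))

/-- The universal property. -/
private lemma PF_univ (M : Type) [AddCommGroup M] [Module (MonoidAlgebra F G) M]
    (φ : Ch ℤ K →+ M)
    (hφ : ∀ (g : G) x, φ (cmap ℤ (α g) x) = MonoidAlgebra.of F G g • φ x) :
    ∃ ψ : (gcG (CF K F) (cfA F α h1 hα)).V →ₗ[MonoidAlgebra F G] M,
      ∀ x : Ch ℤ K, ψ (PF_io F K x) = φ x := by
  let _ : Module F M := Module.compHom M (algebraMap F (MonoidAlgebra F G))
  have hsm : ∀ (r : F) (m : M), r • m = algebraMap F (MonoidAlgebra F G) r • m := fun _ _ => rfl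
  let L : Ch F K →ₗ[F] M := Finsupp.linearCombination F (fun σ => φ (sx ℤ σ.2))
  have hL : ∀ {n : ℕ} (x : K.K n), L (sx F x) = φ (sx ℤ x) := by
    intro n x
    change Finsupp.linearCombination F _ (Finsupp.single _ 1) = _
    rw [Finsupp.linearCombination_single, one_smul]
  have hcomm : ∀ (g : G) (r : F) (m : M),
      r • (MonoidAlgebra.of F G g • m) = MonoidAlgebra.of F G g • (r • m) := by
    intro g r m
    rw [hsm, hsm, smul_smul, smul_smul, mul_comm]
  have hg : ∀ (g : G) (x : Ch F K), L (cmap F (α g) x) = MonoidAlgebra.of F G g • L x := by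
    intro g x
    let Lg : Ch F K →ₗ[F] M :=
      { toFun := fun x => MonoidAlgebra.of F G g • L x
        map_add' := fun x y => by rw [map_add, smul_add]
        map_smul' := fun r x => by
          rw [map_smul, RingHom.id_apply, hcomm] }
    have h2 : L ∘ₗ cmap F (α g) = Lg := by
      refine ch_ext fun n x => ?_
      change L (cmap F (α g) (sx F x)) = MonoidAlgebra.of F G g • L (sx F x)
      rw [cmap_sx, hL, hL, ← hφ, cmap_sx]
    exact LinearMap.congr_fun h2 x
  have hadd : ∀ x y : (gcG (CF K F) (cfA F α h1 hα)).V, L (x + y) = L x + L y :=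
    fun x y => L.map_add x y
  refine ⟨{ toFun := fun x => L x, map_add' := hadd, map_smul' := ?_ }, ?_⟩
  · intro a x
    change L (a • x) = a • L x
    induction a using MonoidAlgebra.induction_linear with
    | zero =>
      rw [zero_smul, zero_smul]
      exact map_zero L
    | add a b ha hb => rw [add_smul, add_smul, hadd, ha, hb]
    | single g r =>
      have e1 : (MonoidAlgebra.single g r : MonoidAlgebra F G) • x = r • cmap F (α g) x :=
        gcI_single (CF K F) (cfA F α h1 hα) g r x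
      have e2 : (MonoidAlgebra.single g r : MonoidAlgebra F G) =
          algebraMap F (MonoidAlgebra F G) r * MonoidAlgebra.of F G g := by
        rw [← Algebra.smul_def, MonoidAlgebra.of_apply, MonoidAlgebra.smul_single, smul_eq_mul,
          mul_one]
      rw [e1, e2, mul_smul, ← hsm, ← hg]
      exact map_smul L _ _
  · intro x
    change L (PF_io F K x) = φ x
    refine PF_io_ext (L.toAddMonoidHom.comp (PF_io F K)) φ ?_ x
    intro n x
    change L (PF_io F K (sx ℤ x)) = φ (sx ℤ x)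
    rw [PF_io_sx, hL]

/-- Generation by simplices. -/
private lemma PF_gen (W : Submodule (MonoidAlgebra F G) (gcG (CF K F) (cfA F α h1 hα)).V)
    (x : Ch F K)
    (h : ∀ z ∈ x.support, gcI (CF K F) (cfA F α h1 hα) (sx F z.2) ∈ W) :
    gcI (CF K F) (cfA F α h1 hα) x ∈ W := by
  have h2 : (∑ z ∈ x.support, x z • sx F z.2 : Ch F K) = x := by
    conv_rhs => rw [← Finsupp.sum_single x]
    refine Finset.sum_congr rfl fun z _ => ?_
    rw [sx, Finsupp.smul_single, smul_eq_mul, mul_one]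
  have h3 : gcI (CF K F) (cfA F α h1 hα) (∑ z ∈ x.support, x z • sx F z.2 : Ch F K) ∈ W := by
    have h4 : gcI (CF K F) (cfA F α h1 hα) (∑ z ∈ x.support, x z • sx F z.2 : Ch F K) =
        ∑ z ∈ x.support, gcI (CF K F) (cfA F α h1 hα) (x z • sx F z.2 : Ch F K) :=
      map_sum (gcI (CF K F) (cfA F α h1 hα)) _ _
    rw [h4]
    refine Submodule.sum_mem _ fun z hz => ?_
    have h5 : gcI (CF K F) (cfA F α h1 hα) (x z • sx F z.2 : Ch F K) =
        algebraMap F (MonoidAlgebra F G) (x z) • gcI (CF K F) (cfA F α h1 hα) (sx F z.2) :=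
      (gcI_alg (CF K F) (cfA F α h1 hα) (x z) (sx F z.2)).symm
    rw [h5]
    exact W.smul_mem _ (h z hz)
  rwa [h2] at h3

end Chains

theorem sPF : S_PF := by
  intro F _ G _ E _ act X K hK Λ α h0 h1 hα
  let iA : Algebra (ZG G) (MonoidAlgebra F G) :=
    (MonoidAlgebra.mapRingHom G (Int.castRingHom F)).toAlgebra
  have hof : ∀ g : G, algebraMap (ZG G) (MonoidAlgebra F G) (MonoidAlgebra.of ℤ G g) =
      MonoidAlgebra.of F G g := by
    intro g
    change MonoidAlgebra.mapRingHom G (Int.castRingHom F) (MonoidAlgebra.of ℤ G g) = _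
    rw [MonoidAlgebra.of_apply, MonoidAlgebra.mapRingHom_single, map_one, MonoidAlgebra.of_apply]
  set T := gcG (CF (Sing E) F) (cfA F α h1 hα) with hTdef
  set TZ := gcG (CF (Sing E) ℤ) (cfA ℤ α h1 hα) with hTZdef
  let iM : Module (ZG G) T.V := Module.compHom T.V (algebraMap (ZG G) (MonoidAlgebra F G))
  have hM : ∀ (a : ZG G) (x : T.V), a • x = algebraMap (ZG G) (MonoidAlgebra F G) a • x :=
    fun _ _ => rfl
  have iS : IsScalarTower (ZG G) (MonoidAlgebra F G) T.V := by
    constructor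
    intro a b x
    rw [hM, Algebra.smul_def, mul_smul]
  have hTof : ∀ (g : G) (x : T.V), MonoidAlgebra.of F G g • x = cmap F (α g) x :=
    fun g x => gcI_of (CF (Sing E) F) (cfA F α h1 hα) g x
  have hZof : ∀ (g : G) (x : TZ.V), MonoidAlgebra.of ℤ G g • x = cmap ℤ (α g) x :=
    fun g x => gcI_of (CF (Sing E) ℤ) (cfA ℤ α h1 hα) g x
  let io : TZ.V →+ T.V := PF_io F (Sing E)
  let ι : TZ.V →ₗ[ZG G] T.V :=
    { toFun := io
      map_add' := io.map_add
      map_smul' := PF_lin io (by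
        intro g x
        rw [hZof, hM, hof, hTof]
        exact PF_io_cmap F (α g) x) }
  have hαa : ∀ g, SingMap (act g) = α g := fun g => (h0 g).symm
  have hgen : ∀ (W : Submodule (MonoidAlgebra F G) T.V) (x : Ch F (Sing E)),
      (∀ z ∈ x.support, ι (sx ℤ z.2) ∈ W) → gcI (CF (Sing E) F) (cfA F α h1 hα) x ∈ W := by
    intro W x h
    refine PF_gen F α h1 hα W x fun z hz => ?_
    have h2 := h z hz
    have h3 : ι (sx ℤ z.2) = gcI (CF (Sing E) F) (cfA F α h1 hα) (sx F z.2) :=
      PF_io_sx F z.2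
    rwa [h3] at h2
  refine PF_abs X.P X.d X.dd (2 * K) (fun i hi => hK i hi.le) TZ.V TZ.d (fun i => TZ.G (i : ℤ)) T ι
    ?_ ?_ ?_ ?_ ?_ ?_
    (fun i => { toFun := Λ.f i, map_add' := (Λ.f i).map_add,
                map_smul' := PF_lin (B := TZ.V) (Λ.f i) (by
                  intro g x
                  rw [hZof, ← hαa]
                  exact Λ.fg g i x) })
    (fun i => { toFun := Λ.f' i, map_add' := (Λ.f' i).map_add,
                map_smul' := PF_lin (A := TZ.V) (Λ.f' i) (by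
                  intro g x
                  rw [hZof, ← hαa]
                  exact Λ.f'g g i x) })
    (fun i => { toFun := Λ.h i, map_add' := (Λ.h i).map_add,
                map_smul' := PF_lin (Λ.h i) (fun g x => Λ.hg g i x) })
    { toFun := Λ.t, map_add' := Λ.t.map_add,
      map_smul' := PF_lin (A := TZ.V) (B := TZ.V) Λ.t (by
        intro g x
        rw [hZof, hZof, ← hαa]
        exact Λ.tg g x) }
    ?_ ?_ ?_ Λ.h0 Λ.hs ?_ ?_
  · exact fun x => PF_io_bd F x
  · intro i (x : Ch ℤ (Sing E))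
      (hx : x ∈ Finsupp.supported ℤ ℤ {x : Σ n, (Sing E).K n | (x.1 : ℤ) = i})
    change PF_io F (Sing E) x ∈ Finsupp.supported F F {x : Σ n, (Sing E).K n | (x.1 : ℤ) = i}
    rw [Finsupp.mem_supported'] at hx ⊢
    intro y hy
    rw [PF_io_apply, hx y hy, Int.cast_zero]
  · intro i hi (x : Ch F (Sing E))
      (hx' : x ∈ Finsupp.supported F F {x : Σ n, (Sing E).K n | (x.1 : ℤ) = i})
    rw [Finsupp.mem_supported'] at hx'
    refine Finsupp.ext fun y => ?_
    rw [hx' y (by
      change ¬ (y.1 : ℤ) = i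
      omega)]
    rfl
  · intro M _ _ _ _ φ
    refine PF_univ F α h1 hα M φ.toAddMonoidHom ?_
    intro g x
    change φ (cmap ℤ (α g) x) = _
    rw [← hZof, map_smul, ← hof, algebraMap_smul]
    rfl
  · intro x
    exact hgen _ x fun z _ => Submodule.subset_span ⟨_, rfl⟩
  · intro i (x : Ch F (Sing E))
      (hx' : x ∈ Finsupp.supported F F {x : Σ n, (Sing E).K n | (x.1 : ℤ) = i})
    rw [Finsupp.mem_supported] at hx'
    refine hgen _ x fun z hz => Submodule.subset_span ⟨_, ?_, rfl⟩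
    have h2 : (z.1 : ℤ) = i := hx' hz
    change sx ℤ z.2 ∈ Finsupp.supported ℤ ℤ {x : Σ n, (Sing E).K n | (x.1 : ℤ) = i}
    exact Finsupp.single_mem_supported ℤ 1 h2
  · intro i x
    exact (PF_gr (Λ.f i x) i).1 (Λ.f_gr i x)
  · intro i x
    exact Λ.fd i x
  · intro i c
    exact Λ.f'd i c
  · intro i c hc
    exact (PF_gr _ (i + 1)).1 (Λ.t_gr i c ((PF_gr c i).2 hc))
  · intro i c hc
    exact Λ.ht i c ((PF_gr c i).2 hc)

end HAx
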