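import Pool.Agent.Lib.MP_181146_gt.HA.SpecP
import Pool.Agent.Lib.MP_181146_gt.HA.AXZ
import Pool.Agent.Lib.MP_181146_gt.HE.ECN
import Pool.Agent.Lib.MP_181146_gt.HE.KPi

set_option autoImplicit false

/-!
# Project HA, module PZ: the complex `X` is a model of the chains of `E`, over `ℤ[G]`
-/

namespace HAx

open scoped TensorProduct
open HEp HPx HRx HBy

section

variable {G : Type} [CommGroup G] {E : Type} [TopologicalSpace E]
  {α : G → SSHom (Sing E) (Sing E)} {h1 : α 1 = SSHom.id (Sing E)}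
  {hα : ∀ a b, α (a * b) = (α a).comp (α b)}

private theorem PZ_gr (c : Ch ℤ (Sing E)) (n : ℕ) (i : ℤ) (hi : i = n) :
    (show (gcG (CF (Sing E) ℤ) (cfA ℤ α h1 hα)).V from c) ∈
      (gcG (CF (Sing E) ℤ) (cfA ℤ α h1 hα)).G i ↔ c ∈ gr ℤ (Sing E) n := by
  subst hi
  change c ∈ Finsupp.supported ℤ ℤ {x : Σ n, (Sing E).K n | (x.1 : ℤ) = (n : ℤ)} ↔
    c ∈ Finsupp.supported ℤ ℤ {x : Σ n, (Sing E).K n | x.1 = n}
  have h : {x : Σ n, (Sing E).K n | (x.1 : ℤ) = (n : ℤ)} = {x : Σ n, (Sing E).K n | x.1 = n} := by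
    ext x
    exact Nat.cast_inj
  rw [h]

private theorem PZ_neg (c : (gcG (CF (Sing E) ℤ) (cfA ℤ α h1 hα)).V) (i : ℤ) (hi : i < 0)
    (hc : c ∈ (gcG (CF (Sing E) ℤ) (cfA ℤ α h1 hα)).G i) : c = 0 := by
  have h : (show Ch ℤ (Sing E) from c) ∈
      Finsupp.supported ℤ ℤ {x : Σ n, (Sing E).K n | (x.1 : ℤ) = i} := hc
  rw [Finsupp.mem_supported'] at h
  exact Finsupp.ext fun x => h x fun hx => by
    have hx' : (x.1 : ℤ) = i := hx
    have := Int.natCast_nonneg x.1
    omega

end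

/-- The map `Λ.f n` as a linear map over the group ring. -/
private noncomputable def PZ_lin {G : Type} [CommGroup G] {E : Type} [TopologicalSpace E]
    {act : G → C(E, E)} {X : AX G} (Λ : HTx.LT X E act) {α : G → SSHom (Sing E) (Sing E)}
    (h0 : ∀ g, α g = SingMap (act g)) (h1 : α 1 = SSHom.id (Sing E))
    (hα : ∀ a b, α (a * b) = (α a).comp (α b)) (n : ℕ) :
    X.P n →ₗ[ZG G] (gcG (CF (Sing E) ℤ) (cfA ℤ α h1 hα)).V where
  toFun x := gcI (CF (Sing E) ℤ) (cfA ℤ α h1 hα) (Λ.f n x)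
  map_add' x y := by rw [map_add]; exact map_add (gcI (CF (Sing E) ℤ) (cfA ℤ α h1 hα)) _ _
  map_smul' a x := by
    rw [RingHom.id_apply]
    induction a using MonoidAlgebra.induction_linear with
    | zero =>
      rw [zero_smul, zero_smul, map_zero]
      exact map_zero (gcI (CF (Sing E) ℤ) (cfA ℤ α h1 hα))
    | add a b ha hb =>
      rw [add_smul, add_smul, map_add, ← ha, ← hb]
      exact map_add (gcI (CF (Sing E) ℤ) (cfA ℤ α h1 hα)) _ _
    | single g r =>
      have e1 : (MonoidAlgebra.single g r : ZG G) = r • MonoidAlgebra.of ℤ G g := by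
        rw [MonoidAlgebra.of_apply, MonoidAlgebra.smul_single, smul_eq_mul, mul_one]
      rw [gcI_single, e1, smul_assoc, map_zsmul, Λ.fg, ← h0]
      rfl

private theorem PZ_lin_apply {G : Type} [CommGroup G] {E : Type} [TopologicalSpace E]
    {act : G → C(E, E)} {X : AX G} (Λ : HTx.LT X E act) {α : G → SSHom (Sing E) (Sing E)}
    (h0 : ∀ g, α g = SingMap (act g)) (h1 : α 1 = SSHom.id (Sing E))
    (hα : ∀ a b, α (a * b) = (α a).comp (α b)) (n : ℕ) (x : X.P n) :
    PZ_lin Λ h0 h1 hα n x = (show (gcG (CF (Sing E) ℤ) (cfA ℤ α h1 hα)).V from Λ.f n x) := rfl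

theorem sPZ : S_PZ := by
  intro G _ E _ act X K hK Λ α h0 h1 hα
  obtain ⟨U, e, he, hneg, hEC⟩ := sAXZ (sECN sKPi) G X K hK
  let T : GC (ZG G) := gcG (CF (Sing E) ℤ) (cfA ℤ α h1 hα)
  let ff : ∀ i : ℤ, U.P i →ₗ[ZG G] T.V := fun i => match i with
    | Int.ofNat n => PZ_lin Λ h0 h1 hα n ∘ₗ (e n).toLinearMap
    | Int.negSucc _ => 0
  have ffn : ∀ (n : ℕ) (x : U.P (n : ℤ)),
      ff n x = (show T.V from Λ.f n (e n x)) := fun n x => rfl
  have hG : ∀ i x, ff i x ∈ T.G i := by
    intro i x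
    rcases lt_or_ge i 0 with hi | hi
    · have := hneg i hi
      rw [Subsingleton.elim x 0, map_zero]
      exact (T.G i).zero_mem
    · obtain ⟨n, rfl⟩ := Int.eq_ofNat_of_zero_le hi
      rw [ffn]
      exact (PZ_gr _ n n rfl).2 (Λ.f_gr n (e n x))
  have hd : ∀ (i j : ℤ), j + 1 = i → ∀ x, ff j (U.d i j x) = T.d (ff i x) := by
    intro i j hij x
    rcases lt_or_ge j 0 with hj | hj
    · have := hneg j hj
      rw [Subsingleton.elim (U.d i j x) 0, map_zero]
      symm
      refine PZ_neg _ (i - 1) (by omega) (T.dG i _ (hG i x))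
    · obtain ⟨n, rfl⟩ := Int.eq_ofNat_of_zero_le hj
      obtain rfl : i = ((n + 1 : ℕ) : ℤ) := by push_cast; omega
      rw [ffn, he]
      exact Λ.fd n (e (n + 1) x)
  let F : FMap U T := { f := ff, fG := hG, fd := fun i x => hd i (i - 1) (by ring) x }
  refine ⟨U, F, ⟨?_, ?_⟩, hEC⟩
  · intro i x hx hb
    rcases lt_or_ge i 0 with hi | hi
    · have := hneg i hi
      exact ⟨i, 0, Subsingleton.elim _ _⟩
    · obtain ⟨n, rfl⟩ := Int.eq_ofNat_of_zero_le hi
      obtain ⟨y, hy, hyb⟩ := hb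
      have hy1 : bd ℤ (Sing E) y = Λ.f n (e n x) := hyb
      have e1 : Λ.f' n (Λ.f n (e n x)) - e n x = X.d n (Λ.h n (e n x)) := by
        cases n with
        | zero => exact Λ.h0 _
        | succ m =>
          have h2 : X.d m (e (m + 1) x) = 0 := by
            rw [← he, hx, map_zero]
          have h3 := Λ.hs m (e (m + 1) x)
          rw [h2, map_zero, add_zero] at h3
          exact h3
      have e2 : Λ.f' n (Λ.f n (e n x)) = X.d n (Λ.f' (n + 1) y) := by
        rw [← hy1]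
        exact Λ.f'd n y
      refine ⟨((n + 1 : ℕ) : ℤ), (e (n + 1)).symm (Λ.f' (n + 1) y - Λ.h n (e n x)), ?_⟩
      apply (e n).injective
      rw [he, LinearEquiv.apply_symm_apply, map_sub, ← e2, ← e1]
      abel
  · intro i y hy
    rcases lt_or_ge i 0 with hi | hi
    · refine ⟨0, fun j => map_zero _, ?_⟩
      have h2 := PZ_neg y i hi hy.1
      refine ⟨0, (T.G (i + 1)).zero_mem, ?_⟩
      rw [map_zero, h2, map_zero, sub_zero]
    · obtain ⟨n, rfl⟩ := Int.eq_ofNat_of_zero_le hi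
      obtain ⟨hyG, hyd⟩ := hy
      have hyg : (show Ch ℤ (Sing E) from y) ∈ gr ℤ (Sing E) n := (PZ_gr _ n n rfl).1 hyG
      have hyd' : bd ℤ (Sing E) y = 0 := hyd
      refine ⟨(e n).symm (Λ.f' n y), ?_, ?_⟩
      · intro j
        by_cases hj : j + 1 = (n : ℤ)
        · cases n with
          | zero =>
            have := hneg j (by push_cast at hj; omega)
            exact Subsingleton.elim _ _
          | succ m =>
            obtain rfl : j = (m : ℤ) := by push_cast at hj; omega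
            apply (e m).injective
            rw [he, LinearEquiv.apply_symm_apply, map_zero]
            have h3 := Λ.f'd m y
            rw [hyd', map_zero] at h3
            exact h3.symm
        · rw [U.shape _ _ hj, LinearMap.zero_apply]
      · refine ⟨(show T.V from -(Λ.t y)), ?_, ?_⟩
        · exact (PZ_gr _ (n + 1) _ (by push_cast; rfl)).2 (Submodule.neg_mem _ (Λ.t_gr n y hyg))
        · have h3 := Λ.ht n y hyg
          rw [hyd', map_zero, add_zero] at h3
          change bd ℤ (Sing E) (-(Λ.t y)) =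
            (show Ch ℤ (Sing E) from y) - Λ.f n (e n ((e n).symm (Λ.f' n y)))
          rw [LinearEquiv.apply_symm_apply, map_neg, ← h3, neg_sub]

end HAx
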