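import Pool.Agent.Lib.MP_181146_gt.HA.GDxL
import Pool.Agent.Lib.MP_181146_gt.HA.PZ
import Pool.Agent.Lib.MP_181146_gt.HA.PF

set_option autoImplicit false

/-!
# Project HA, module GDx: the geometric data exist
-/

noncomputable section

namespace HAx

open scoped TensorProduct
open HEp HPx HRx

/-- **GDx.** The geometric data exist. -/
theorem sGDx : HVx.S_VF → HTx.S_RelV → HXx.S_BcX → HXx.S_XChY → S_GDx := by
  intro hVF hRel hBc hXCh e he G _ _ hG E _ _ D X K hK hN Λ n hn hn1 hX hE Q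
  have hq0 : NeZero (Nat.card G) := ⟨Nat.card_pos.ne'⟩
  obtain ⟨m, rfl⟩ : ∃ m, n = 2 * m - 1 := by
    obtain ⟨r, hr⟩ := hn
    exact ⟨r + 1, by omega⟩
  have hm : 1 < m := by omega
  have hnw : 2 * m - 1 + 1 = 2 * m := by omega
  have hnb : 2 * m - 1 < 2 * m := by omega
  have hn0 : 0 < 2 * m - 1 := by omega
  obtain ⟨p, hp, hpk, χ, v, vD, vP, vr, vb, vc⟩ := hVF e he G E D X hN Λ m hm hX hE Q
  -- the chain level cocycle
  obtain ⟨v0, hv0⟩ : ∃ v0 : Ch ℤ (Sing E) →ₗ[ℤ] ℤ,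
      v0 = HVx.vxE (Nat.card G) χ (rv m) m v := ⟨_, rfl⟩
  have hv0s : Sup (2 * m - 1) v0 := by
    intro i hi y hy
    have h := vx_Dg (F := fs0 (Sing E) (fun h : Gam (Nat.card G) χ => SingMap (D.act h.1.1)))
      (Nat.card G) (rv m) (rho (Nat.card G) χ) m _ v vD
    rw [hv0]
    exact h i (fun h' => hi (by exact_mod_cast h')) y hy
  have hv0b : ∀ y, v0 (bd ℤ (Sing E) y) = 0 := by
    intro y
    have h1 := vx_bd (F := fs0 (Sing E) (fun h : Gam (Nat.card G) χ => SingMap (D.act h.1.1)))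
      (Nat.card G) (rv m) (rho (Nat.card G) χ) m v
    have h2 := vx_Kf (F := fs0 (Sing E) (fun h : Gam (Nat.card G) χ => SingMap (D.act h.1.1)))
      (aug ℤ (Sing E)) (Nat.card G) (rv m) (rho (Nat.card G) χ) m (kcf p)
    have h3 : kcf p 0 = 0 := by
      by_contra h
      have h4 := kcf_ne hp 0 h
      have h5 : ∑ i ∈ Finset.range m, (0 : ℕ → ℕ) i = 0 := Finset.sum_eq_zero fun _ _ => rfl
      rw [h5] at h4
      omega
    rw [vb, h2, h3, zero_smul] at h1
    rw [hv0]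
    exact (LinearMap.congr_fun h1 y).symm
  have hv0c : v0 Q.c = 1 := by
    rw [hv0, ← vc Q.c Q.c_gr Q.c_bd, Q.x_c]
  -- the operator `a` and the relation
  obtain ⟨A, hA⟩ : ∃ A : Ch ℤ (Sing E) →ₗ[ℤ] Ch ℤ (Sing E),
      ∀ y, A y = mu ℤ e (SingMul D.m) (Q.c ⊗ₜ y) :=
    ⟨mu ℤ e (SingMul D.m) ∘ₗ TensorProduct.mk ℤ (Ch ℤ (Sing E)) (Ch ℤ (Sing E)) Q.c,
      fun _ => rfl⟩
  have hAh : ContinuousMap.Homotopic (ContinuousMap.id E)
      (D.m.comp (ContinuousMap.prodMk (ContinuousMap.id E) (ContinuousMap.const E D.v))) :=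
    ⟨{ toContinuousMap := D.A
       map_zero_left := D.A0
       map_one_left := D.A1 }⟩
  have R := fun (x : Ch ℤ (Sing E) →ₗ[ℤ] ℤ) (hx : Sup (2 * m - 1) x)
      (hxb : ∀ y, x (bd ℤ (Sing E) y) = 0) (hxc : x Q.c = 1) =>
    hRel e he ℤ E D.v D.m hAh D.B D.B0 D.B1 (2 * m - 1) hn Q.c Q.c_gr Q.c_bd x hx hxb hxc
      Q.w Q.hw
  obtain ⟨r1, -, r3, -, -, r6, -⟩ := R v0 hv0s hv0b hv0c
  have hrel : ∀ x : Ch ℤ (Sing E) →ₗ[ℤ] ℤ, Sup (2 * m - 1) x →
      (∀ y, x (bd ℤ (Sing E) y) = 0) → x Q.c = 1 →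
      ∃ c : Ch ℤ (Sing E) →ₗ[ℤ] Ch ℤ (Sing E),
        (∀ i, ∀ y ∈ gr ℤ (Sing E) i, c y ∈ gr ℤ (Sing E) (i + 1)) ∧
        ∀ y, A (cap x y) + cap x (A y) =
          y + (bd ℤ (Sing E) (c y) + c (bd ℤ (Sing E) y)) := by
    intro x hx hxb hxc
    obtain ⟨-, -, q3, q4, q5, -, κ, hκ, -⟩ := R x hx hxb hxc
    refine ⟨dg1 κ, fun i y hy => dg1_mem κ hy, fun y => ?_⟩
    refine dg1_rel κ (A ∘ₗ cap x + cap x ∘ₗ A) ?_ ?_ y
    · intro i y hy
      refine Submodule.add_mem _ ?_ ?_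
      · rw [LinearMap.comp_apply, hA]
        by_cases hi : i < 2 * m - 1
        · rw [q5 i hi y hy, TensorProduct.tmul_zero, map_zero]
          exact Submodule.zero_mem _
        · obtain ⟨j, rfl⟩ : ∃ j, i = j + (2 * m - 1) := ⟨i - (2 * m - 1), by omega⟩
          exact q3 j _ (q4 j y hy)
      · rw [LinearMap.comp_apply, hA]
        exact q4 i _ (q3 i y hy)
    · intro y
      rw [LinearMap.add_apply, LinearMap.comp_apply, LinearMap.comp_apply, hA, hA]
      exact hκ y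
  obtain ⟨s, s1, s2, s3, s4⟩ := con_ex (vtx D.v) (2 * m - 1) hE (2 * m - 1) le_rfl
  let g : GD G :=
    { K := Sing E
      al := fun t => SingMap (D.act t)
      al1 := by rw [D.act_one]; rfl
      alm := fun a b => by rw [D.act_mul]; rfl
      m := m
      q := Nat.card G
      ψ := χ
      n := 2 * m - 1
      n1 := hn
      n2 := hn1
      w := m
      nw := hnw
      b := m
      nb := hnb
      κ := kcf p
      κh := fun a ha => kcf_ne hp a ha
      a := A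
      ad := fun y => by rw [hA, hA]; exact r1 y
      ag := fun i y hy => by rw [hA]; exact r3 i y hy
      aα := fun t y => by rw [hA, hA]; exact r6 (D.act t) (fun x y => D.m2 t x y) y
      v := v
      vD := vD
      vP := vP
      vr := vr
      vb := vb
      hom := fun t => by
        obtain ⟨B, b1, b2⟩ := htp_act D t
        exact ⟨B, b2, b1⟩
      con := ⟨vtx D.v, s, s1, s2, s3 hn0, s4⟩
      rel := fun x hx hxb hxv => by
        refine hrel x hx hxb ?_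
        rw [hxv Q.c Q.c_gr Q.c_bd, ← hv0c, hv0]
        rfl }
  have hgv : g.v0 = v0 := hv0.symm
  refine ⟨g, ?_, ?_, ?_, rfl, hm, p, rfl, ?_⟩
  · exact sPZ G E D.act X K hK Λ g.al (fun _ => rfl) g.al1 g.alm
  · intro F _
    exact sPF F G E D.act X K hK Λ g.al (fun _ => rfl) g.al1 g.alm
  · intro F _ _ _ L _ _ ε E1 hE1
    let Q' : HTx.Cl E D.v (2 * m - 1) :=
      { Q with
        x := v0
        x_sup := hv0s
        x_bd := hv0b
        x_c := hv0c }
    refine hXCh e he G hG E D X (2 * K) hK hN Λ (2 * m - 1) hn hn1 hX hE Q' F L ε (CF (Sing E) F)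
      E1 LinearMap.id ?_ ?_
    · refine ⟨⟨fun i x hx => hx, fun x => rfl⟩, ?_, ?_⟩
      · rintro i x hx ⟨y, hy, hyx⟩
        exact ⟨y, hy, hyx⟩
      · intro i y hy
        refine ⟨y, ⟨hy.1, hy.2⟩, 0, Submodule.zero_mem _, ?_⟩
        change (HXx.cX F (Sing E)).d 0 = y - y
        rw [map_zero, sub_self]
    · intro i y hy
      refine ⟨0, Submodule.zero_mem _, ?_⟩
      rw [map_zero]
      refine (sub_eq_zero.2 ?_).symm
      change E1.e y = cap (HXx.xF F v0) (mu F e (SingMul D.m) (cc F Q.c ⊗ₜ[F] y))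
      rw [hE1 y, hgv]
      refine opN_eq (cap v0 ∘ₗ A) (cap (HXx.xF F v0) ∘ₗ mu F e (SingMul D.m) ∘ₗ
        TensorProduct.mk F (Ch F (Sing E)) (Ch F (Sing E)) (cc F Q.c)) (fun j σ => ?_) y
      have h := hBc F e (Sing E) (SingMul D.m) v0 Q.c (sx ℤ σ)
      rw [LinearMap.comp_apply, hA, h]
      have h2 : cc F (sx ℤ σ) = sx F σ := by
        rw [cc, sx, Finsupp.mapRange_single, map_one]
        rfl
      rw [h2]
      rfl
  · rcases hpk with h | h
    · exact Or.inl h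
    · exact Or.inr h.1

end HAx
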