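import Pool.Agent.Lib.MP_181146_gt.HA.SpecG
import Pool.Agent.Lib.MP_181146_gt.HR.NullB
import Pool.Agent.Lib.MP_181146_gt.HT.RelV
import Pool.Agent.Lib.MP_181146_gt.HR.OpN

set_option autoImplicit false

/-!
# Project HA, module GDx: lemmas

The homogeneous components of chains, operators of degree one, the contraction in the degrees `< n`, the
vertex component of functionals, the coefficients of a homogeneous polynomial, the operator with
coefficients.
-/

noncomputable section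

namespace HAx

open scoped TensorProduct
open HEp HPx HRx

/-! ## A. Homogeneous components -/

section

variable {K : SS}

/-- The component of degree `n`. -/
def gp (K : SS) (n : ℕ) : Ch ℤ K →ₗ[ℤ] Ch ℤ K :=
  Finsupp.linearCombination ℤ (fun x => if x.1 = n then Finsupp.single x 1 else 0)

lemma gp_sx (n : ℕ) {m : ℕ} (x : K.K m) : gp K n (sx ℤ x) = if m = n then sx ℤ x else 0 := by
  rw [gp, sx, Finsupp.linearCombination_single, one_smul]

lemma gp_mem (n : ℕ) (x : Ch ℤ K) : gp K n x ∈ gr ℤ K n := by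
  induction x using Finsupp.induction_linear with
  | zero => rw [map_zero]; exact Submodule.zero_mem _
  | add a b ha hb => rw [map_add]; exact Submodule.add_mem _ ha hb
  | single s r =>
    have h : (Finsupp.single s r : Ch ℤ K) = r • sx ℤ s.2 := by
      rw [sx, Finsupp.smul_single, smul_eq_mul, mul_one]
    rw [h, map_smul, gp_sx]
    refine Submodule.smul_mem _ _ ?_
    split_ifs with h1
    · subst h1
      exact sx_mem_gr ℤ _
    · exact Submodule.zero_mem _

lemma gp_gr {n : ℕ} {x : Ch ℤ K} (hx : x ∈ gr ℤ K n) : gp K n x = x :=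
  HXx.gr_eq (f := gp K n) (g := LinearMap.id) (fun σ => by
    rw [gp_sx, if_pos rfl, LinearMap.id_apply]) hx

lemma gp_bd (n : ℕ) (x : Ch ℤ K) : gp K n (bd ℤ K x) = bd ℤ K (gp K (n + 1) x) := by
  have h : gp K n ∘ₗ bd ℤ K = bd ℤ K ∘ₗ gp K (n + 1) := ch_ext fun m σ => by
    rw [LinearMap.comp_apply, LinearMap.comp_apply, gp_sx]
    cases m with
    | zero => rw [bd_sx_zero, map_zero, if_neg (by omega), map_zero]
    | succ m =>
      rw [bd_sx, map_sum]
      by_cases h : m = n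
      · rw [if_pos (by rw [h]), bd_sx]
        refine Finset.sum_congr rfl fun i _ => ?_
        rw [map_smul, gp_sx, if_pos h]
      · rw [if_neg (by omega), map_zero]
        refine Finset.sum_eq_zero fun i _ => ?_
        rw [map_smul, gp_sx, if_neg h, smul_zero]
  exact LinearMap.congr_fun h x

/-- The component of degree one of the operator `κ`. -/
def dg1 (κ : Ch ℤ K →ₗ[ℤ] Ch ℤ K) : Ch ℤ K →ₗ[ℤ] Ch ℤ K :=
  Finsupp.linearCombination ℤ (fun x => gp K (x.1 + 1) (κ (Finsupp.single x 1)))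

lemma dg1_sx (κ : Ch ℤ K →ₗ[ℤ] Ch ℤ K) {n : ℕ} (σ : K.K n) :
    dg1 κ (sx ℤ σ) = gp K (n + 1) (κ (sx ℤ σ)) := by
  rw [dg1, sx, Finsupp.linearCombination_single, one_smul]

lemma dg1_gr (κ : Ch ℤ K →ₗ[ℤ] Ch ℤ K) {n : ℕ} {x : Ch ℤ K} (hx : x ∈ gr ℤ K n) :
    dg1 κ x = gp K (n + 1) (κ x) :=
  HXx.gr_eq (f := dg1 κ) (g := gp K (n + 1) ∘ₗ κ) (fun σ => dg1_sx κ σ) hx

lemma dg1_mem (κ : Ch ℤ K →ₗ[ℤ] Ch ℤ K) {n : ℕ} {x : Ch ℤ K} (hx : x ∈ gr ℤ K n) :
    dg1 κ x ∈ gr ℤ K (n + 1) := by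
  rw [dg1_gr κ hx]
  exact gp_mem _ _

/-- A relation `T = 1 + [d, κ]` with `T` of degree zero holds for the component of degree one. -/
lemma dg1_rel (κ T : Ch ℤ K →ₗ[ℤ] Ch ℤ K) (hT : ∀ i, ∀ y ∈ gr ℤ K i, T y ∈ gr ℤ K i)
    (h : ∀ y, T y = y + (bd ℤ K (κ y) + κ (bd ℤ K y))) (y : Ch ℤ K) :
    T y = y + (bd ℤ K (dg1 κ y) + dg1 κ (bd ℤ K y)) := by
  have h' : T = LinearMap.id + (bd ℤ K ∘ₗ dg1 κ + dg1 κ ∘ₗ bd ℤ K) := ch_ext fun n σ => by
    change T (sx ℤ σ) = sx ℤ σ + (bd ℤ K (dg1 κ (sx ℤ σ)) + dg1 κ (bd ℤ K (sx ℤ σ)))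
    have hσ := sx_mem_gr (K := K) ℤ σ
    have h1 := congrArg (gp K n) (h (sx ℤ σ))
    rw [gp_gr (hT n _ hσ), map_add, map_add, gp_gr hσ, gp_bd, ← dg1_sx] at h1
    rw [h1]
    congr 2
    cases n with
    | zero => rw [bd_sx_zero, map_zero, map_zero, map_zero]
    | succ n => exact (dg1_gr κ (HXx.bd_gr hσ)).symm
  exact LinearMap.congr_fun h' y

end

/-! ## B. The contraction -/

/-- The contraction of the augmented chains in the degrees `< n`. -/
theorem con_ex {E : Type} [TopologicalSpace E] (v : (Sing E).K 0) (n : ℕ) (hE : AcE E v n) :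
    ∀ j ≤ n, ∃ s : Ch ℤ (Sing E) →ₗ[ℤ] Ch ℤ (Sing E),
      (∀ i, ∀ x ∈ gr ℤ (Sing E) i, s x ∈ gr ℤ (Sing E) (i + 1)) ∧
      (∀ i, j ≤ i → ∀ x ∈ gr ℤ (Sing E) i, s x = 0) ∧
      (0 < j → ∀ x ∈ gr ℤ (Sing E) 0, bd ℤ (Sing E) (s x) = x - aug ℤ (Sing E) x • sx ℤ v) ∧
      ∀ i, 0 < i → i < j → ∀ x ∈ gr ℤ (Sing E) i,
        bd ℤ (Sing E) (s x) + s (bd ℤ (Sing E) x) = x := by
  intro j
  induction j with
  | zero =>
    intro _
    exact ⟨0, fun i x _ => Submodule.zero_mem _, fun i _ x _ => rfl,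
      fun h => absurd h (Nat.lt_irrefl 0), fun i _ h => absurd h (Nat.not_lt_zero i)⟩
  | succ j ih =>
    intro hj
    obtain ⟨s, s1, s2, s3, s4⟩ := ih (by omega)
    -- the new values
    have key : ∀ σ : (Sing E).K j, ∃ y ∈ gr ℤ (Sing E) (j + 1), bd ℤ (Sing E) y =
        sx ℤ σ - s (bd ℤ (Sing E) (sx ℤ σ)) - (if j = 0 then sx ℤ v else 0) := by
      intro σ
      cases j with
      | zero =>
        obtain ⟨y, hy⟩ := hE.1 (sx ℤ σ) (sx_mem_gr ℤ σ)
        refine ⟨gp _ 1 y, gp_mem _ _, ?_⟩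
        rw [← gp_bd, ← hy, bd_sx_zero, map_zero, sub_zero, if_pos rfl, aug_sx_zero, one_smul]
        exact gp_gr (Submodule.sub_mem _ (sx_mem_gr ℤ σ) (sx_mem_gr ℤ v))
      | succ j =>
        have hσ := sx_mem_gr (K := Sing E) ℤ σ
        have hb := HXx.bd_gr hσ
        have hz : bd ℤ (Sing E) (sx ℤ σ - s (bd ℤ (Sing E) (sx ℤ σ))) = 0 := by
          rw [map_sub]
          cases j with
          | zero =>
            rw [s3 (by omega) _ hb, aug_bd, zero_smul, sub_zero, sub_self]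
          | succ j =>
            have h4 := s4 (j + 1) (by omega) (by omega) _ hb
            rw [bd_bd, map_zero, add_zero] at h4
            rw [h4, sub_self]
        obtain ⟨y, hy⟩ := hE.2 (j + 1) (by omega) (by omega) _
          (Submodule.sub_mem _ hσ (s1 _ _ hb)) hz
        refine ⟨gp _ (j + 2) y, gp_mem _ _, ?_⟩
        rw [← gp_bd, ← hy, if_neg (by omega), sub_zero]
        exact gp_gr (Submodule.sub_mem _ hσ (s1 _ _ hb))
    choose y hy1 hy2 using key
    let t : Ch ℤ (Sing E) →ₗ[ℤ] Ch ℤ (Sing E) :=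
      Finsupp.linearCombination ℤ (fun x => if h : x.1 = j then y (h ▸ x.2) else 0)
    have t1 : ∀ (σ : (Sing E).K j), t (sx ℤ σ) = y σ := by
      intro σ
      change Finsupp.linearCombination ℤ _ (Finsupp.single _ _) = _
      rw [Finsupp.linearCombination_single, one_smul, dif_pos rfl]
    have t2 : ∀ (i : ℕ) (σ : (Sing E).K i), i ≠ j → t (sx ℤ σ) = 0 := by
      intro i σ hi
      change Finsupp.linearCombination ℤ _ (Finsupp.single _ _) = _
      rw [Finsupp.linearCombination_single, one_smul, dif_neg hi]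
    have t3 : ∀ (i : ℕ), i ≠ j → ∀ x ∈ gr ℤ (Sing E) i, t x = 0 := fun i hi x hx =>
      HXx.gr_eq (f := t) (g := 0) (fun σ => t2 i σ hi) hx
    refine ⟨s + t, ?_, ?_, ?_, ?_⟩
    · intro i x hx
      refine Submodule.add_mem _ (s1 i x hx) ?_
      by_cases h : i = j
      · subst h
        exact HXx.gr_ind (f := t) (fun σ => by rw [t1]; exact hy1 σ) hx
      · rw [t3 i h x hx]
        exact Submodule.zero_mem _
    · intro i hi x hx
      rw [LinearMap.add_apply, s2 i (by omega) x hx, t3 i (by omega) x hx, add_zero]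
    · intro _ x hx
      by_cases h : j = 0
      · subst h
        have e := HXx.gr_eq (f := bd ℤ (Sing E) ∘ₗ t) (g := LinearMap.id -
          (LinearMap.toSpanSingleton ℤ (Ch ℤ (Sing E)) (sx ℤ v)) ∘ₗ aug ℤ (Sing E)) (m := 0)
          (fun σ => by
            rw [LinearMap.comp_apply, t1, hy2, bd_sx_zero, map_zero, sub_zero, if_pos rfl,
              LinearMap.sub_apply, LinearMap.comp_apply, aug_sx_zero, LinearMap.id_apply,
              LinearMap.toSpanSingleton_apply, one_smul]) hx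
        rw [LinearMap.add_apply, s2 0 le_rfl x hx, zero_add]
        exact e
      · rw [LinearMap.add_apply, t3 0 (by omega) x hx, add_zero]
        exact s3 (by omega) x hx
    · intro i hi hij x hx
      obtain ⟨i, rfl⟩ : ∃ i', i = i' + 1 := ⟨i - 1, by omega⟩
      by_cases h : i + 1 = j
      · subst h
        have e := HXx.gr_eq (f := bd ℤ (Sing E) ∘ₗ t) (g := LinearMap.id - s ∘ₗ bd ℤ (Sing E))
          (m := i + 1) (fun σ => by
            rw [LinearMap.comp_apply, t1, hy2, if_neg (by omega), sub_zero, LinearMap.sub_apply,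
              LinearMap.comp_apply, LinearMap.id_apply]) hx
        have e' : bd ℤ (Sing E) (t x) = x - s (bd ℤ (Sing E) x) := e
        rw [LinearMap.add_apply, LinearMap.add_apply, s2 (i + 1) le_rfl x hx, zero_add, e',
          t3 i (by omega) _ (HXx.bd_gr hx), add_zero, sub_add_cancel]
      · rw [LinearMap.add_apply, LinearMap.add_apply, t3 (i + 1) h x hx, add_zero,
          t3 i (by omega) _ (HXx.bd_gr hx), add_zero]
        exact s4 (i + 1) (by omega) (by omega) x hx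

/-! ## C. The vertex component -/

section

variable {H : Type} {F : FS H}

lemma vx_bd (q : ℕ) (ix : ℕ → ℕ) (ρ : ℕ → H → ℤ) (n : ℕ) (φ : (fit F q ix ρ n).Φ) :
    vx (F := F) q ix ρ n ((fit F q ix ρ n).bd φ) = F.bd (vx q ix ρ n φ) := by
  induction n with
  | zero => rfl
  | succ n ih =>
    change vx q ix ρ n ((fit F q ix ρ n).bd (φ.1 0 0) + 0) = F.bd (vx q ix ρ n (φ.1 0 0))
    rw [add_zero, ih]

lemma vx_Kf (ε : F.Φ) (q : ℕ) (ix : ℕ → ℕ) (ρ : ℕ → H → ℤ) (n : ℕ) (κ : (ℕ → ℕ) → ℤ) :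
    vx (F := F) q ix ρ n (Kf ε q ix ρ n κ) = κ 0 • ε := by
  induction n generalizing κ with
  | zero => rfl
  | succ n ih =>
    change vx q ix ρ n (Kf ε q ix ρ n (fun a => κ (Function.update a (ix n) 0))) = κ 0 • ε
    rw [ih]
    congr 2
    funext i
    by_cases h : i = ix n
    · subst h
      rw [Function.update_self]
      rfl
    · rw [Function.update_of_ne h]

lemma vx_Dg (q : ℕ) (ix : ℕ → ℕ) (ρ : ℕ → H → ℤ) (n : ℕ) (d : ℤ) (φ : (fit F q ix ρ n).Φ)
    (hφ : φ ∈ (fit F q ix ρ n).Dg d) : vx (F := F) q ix ρ n φ ∈ F.Dg d := by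
  induction n with
  | zero => exact hφ
  | succ n ih =>
    have h : φ.1 0 0 ∈ (fit F q ix ρ n).Dg (d - 2 * ((0 : ℕ) : ℤ)) := (hφ 0 0).1
    rw [Nat.cast_zero, mul_zero, sub_zero] at h
    exact ih (φ.1 0 0) h

end

/-! ## D. The coefficients -/

lemma kcf_ne {m : ℕ} {p : MvPolynomial (Fin m) ℤ} {w : ℕ} (hp : p.IsHomogeneous w) (a : ℕ → ℕ)
    (ha : kcf p a ≠ 0) : ∑ i ∈ Finset.range m, a i = w := by
  have h := hp.coeff_eq_zero (d := Finsupp.equivFunOnFinite.symm (fun i : Fin m => a i))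
  by_contra hne
  apply ha
  apply h
  rw [Finsupp.degree_eq_sum]
  rw [Finset.sum_range] at hne
  exact hne

/-! ## E. The operator with coefficients -/

section

variable {F : Type} [CommRing F] {K : SS}

lemma opN_sx (A : Ch ℤ K →ₗ[ℤ] Ch ℤ K) {n : ℕ} (σ : K.K n) :
    (opN F A : ChN K F →ₗ[F] ChN K F) (sx F σ) = cc F (A (sx ℤ σ)) := by
  have h := (sOpN K ℤ ℤ).2.2.2.2.2.2 F F (Int.castAddHom F) A (sx ℤ σ)
  have e1 : Finsupp.mapRange (Int.castAddHom F) (Int.castAddHom F).map_zero (sx ℤ σ) = sx F σ := by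
    rw [sx, Finsupp.mapRange_single]
    change Finsupp.single _ ((1 : ℤ) : F) = _
    rw [Int.cast_one]
    rfl
  have e2 : (opN ℤ A : ChN K ℤ →ₗ[ℤ] ChN K ℤ) (sx ℤ σ) = A (sx ℤ σ) := by
    change Finsupp.lsum ℤ _ (Finsupp.single _ _) = _
    rw [Finsupp.lsum_single]
    change ((A (sx ℤ σ)).sum fun y r => r • Finsupp.lsingle (R := ℤ) y) 1 = _
    rw [Finsupp.sum, LinearMap.sum_apply]
    conv_rhs => rw [← Finsupp.sum_single (A (sx ℤ σ)), Finsupp.sum]
    refine Finset.sum_congr rfl fun z _ => ?_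
    rw [LinearMap.smul_apply, Finsupp.lsingle_apply, Finsupp.smul_single, smul_eq_mul, mul_one]
  rw [e1, e2] at h
  exact h.symm

lemma opN_eq (A : Ch ℤ K →ₗ[ℤ] Ch ℤ K) (B : Ch F K →ₗ[F] Ch F K)
    (h : ∀ (n : ℕ) (σ : K.K n), cc F (A (sx ℤ σ)) = B (sx F σ)) (y : Ch F K) :
    (opN F A : ChN K F →ₗ[F] ChN K F) y = B y := by
  have e : (opN F A : ChN K F →ₗ[F] ChN K F) = B := ch_ext fun n σ => by
    rw [opN_sx, h]
  exact LinearMap.congr_fun e y

lemma cF_mem (i : ℤ) (x : Ch F K) : x ∈ (cF K F).G i ↔ x ∈ (HXx.cX F K).G i := by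
  change (∀ s, (s.1 : ℤ) ≠ i → x s = 0) ↔
    x ∈ Finsupp.supported F F {s : Σ n, K.K n | (s.1 : ℤ) = i}
  rw [Finsupp.mem_supported']
  rfl

end

end HAx
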