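import Pool.Agent.Lib.MP_181146_gt.HA.SpecE

/-!
# HA/KLp: the norm form on the functions with values in power series
-/

set_option autoImplicit false

noncomputable section

namespace HAx

open HMx

variable {F : Type} [CommRing F] {m : ℕ}

private lemma KLp_sf (n : ℕ) (a : Fin m) (u : (Fin m → ℕ) → PowerSeries F) (β : Fin m → ℕ) :
    PowerSeries.coeff n (sf (PowerSeries F) m a u β) =
      sf F m a (fun β => PowerSeries.coeff n (u β)) β := rfl

private lemma KLp_zo (n c : ℕ) (r : Fin m → Fin m → F) (a : Fin m)
    (u : (Fin m → ℕ) → PowerSeries F) (β : Fin m → ℕ) :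
    PowerSeries.coeff n (zo (PowerSeries F) m c (rC r) a u β) =
      zo F m c r a (fun β => PowerSeries.coeff n (u β)) β := by
  rw [zo, zo, LinearMap.sum_apply, LinearMap.sum_apply, Finset.sum_apply, Finset.sum_apply, map_sum]
  refine Finset.sum_congr rfl fun l _ => ?_
  rw [LinearMap.smul_apply, LinearMap.smul_apply, Pi.smul_apply, Pi.smul_apply, smul_eq_mul,
    smul_eq_mul, rC, PowerSeries.coeff_C_mul, KLp_sf]

private lemma KLp_yo (n c : ℕ) (r : Fin m → Fin m → F) (S : Finset (Fin m)) (a : Fin m)
    (u : (Fin m → ℕ) → PowerSeries F) (β : Fin m → ℕ) :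
    PowerSeries.coeff n (yo (PowerSeries F) m c (rC r) S a u β) =
      yo F m c r S a (fun β => PowerSeries.coeff n (u β)) β := by
  unfold yo
  split_ifs
  · rw [LinearMap.neg_apply, LinearMap.neg_apply, Pi.neg_apply, Pi.neg_apply, map_neg, KLp_zo]
  · exact KLp_sf n a u β

/-- The coefficient of index `n` as a morphism. -/
private def KLp_e (n c : ℕ) (r : Fin m → Fin m → F) (S : Finset (Fin m)) :
    DM.Hom (DSt (PowerSeries F) m c (rC r) S).toZ (DSt F m c r S).toZ where
  f j :=
    { toFun := fun u => (⟨fun β => PowerSeries.coeff n ((show fn (PowerSeries F) m S j from u).1 β),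
        fun β h => (show fn (PowerSeries F) m S j from u).2 β (fun h' => h (by
          change PowerSeries.coeff n _ = 0
          rw [h', map_zero]))⟩ : fn F m S j)
      map_zero' := Subtype.ext (funext fun β => map_zero _)
      map_add' := fun u v => Subtype.ext (funext fun β => map_add _ _ _) }
  fY i j x := Subtype.ext (funext fun β => KLp_yo n c r S i (show fn (PowerSeries F) m S (j + 1) from x).1 β)

theorem sKLp (hEvH : S_EvH) : S_KLp := by
  intro F _ m c r S f h
  refine LinearMap.ext fun x => funext fun j => ?_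
  refine Subtype.ext (funext fun β => PowerSeries.ext fun n => ?_)
  have h1 := hEvH m _ _ (KLp_e n c r S) (kapP f m) x j
  rw [show DM.ev (DSt F m c r S).toZ (kapP f m) = 0 from h] at h1
  exact congrArg (fun v : fn F m S j => v.1 β) h1

end HAx
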