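import Pool.Agent.Lib.MP_181146_gt.HA.SpecE

/-!
# Project HA (part A): the linear forms (author helper45)
-/

set_option autoImplicit false

noncomputable section

namespace HAx

open HMx

/-- The coefficients of the linear form of index `i0`. -/
def lamF {F : Type} [CommRing F] {m : ℕ} (c : ℕ) (r : Fin m → Fin m → F) (i0 i : Fin m) : F :=
  if i = i0 then 1 else if c ≤ i.val then r i0 i else 0

/-- The linear form of index `i0` acts as zero if `i0 ∈ S`. -/
theorem lamF_zero {F : Type} [CommRing F] {m c : ℕ} (r : Fin m → Fin m → F) (S : Finset (Fin m))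
    (hS : ∀ a ∈ S, a.val < c) (i0 : Fin m) (hi : i0 ∈ S) (u : (Fin m → ℕ) → F) :
    ∑ i : Fin m, lamF c r i0 i • yo F m c r S i u = 0 := by
  have h1 : ∀ i : Fin m, lamF c r i0 i • yo F m c r S i u =
      (if i = i0 then yo F m c r S i u else 0) +
        if c ≤ i.val then r i0 i • sf F m i u else 0 := by
    intro i
    unfold lamF
    by_cases h : i = i0
    · have hc : ¬ c ≤ i.val := by
        rw [h]
        exact not_le.2 (hS i0 hi)
      rw [if_pos h, if_pos h, if_neg hc, one_smul, add_zero]
    · rw [if_neg h, if_neg h, zero_add]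
      by_cases hc : c ≤ i.val
      · rw [if_pos hc, if_pos hc]
        have : i ∉ S := fun hs => absurd (hS i hs) (not_lt.2 hc)
        unfold yo
        rw [if_neg this]
      · rw [if_neg hc, if_neg hc, zero_smul]
  rw [Finset.sum_congr rfl (fun i _ => h1 i), Finset.sum_add_distrib, Finset.sum_ite_eq' Finset.univ
    i0 (fun i => yo F m c r S i u), if_pos (Finset.mem_univ _)]
  have h2 : yo F m c r S i0 u = -zo F m c r i0 u := by
    unfold yo
    rw [if_pos hi]
    rfl
  have h3 : zo F m c r i0 u = ∑ i : Fin m, if c ≤ i.val then r i0 i • sf F m i u else 0 := by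
    rw [zo, LinearMap.sum_apply, Finset.sum_filter]
    rfl
  rw [h2, h3, neg_add_cancel]

end HAx
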