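import Pool.Agent.Lib.MP_181146_gt.HA.PDc

/-!
# Project HA (part A): the second parameter, `c ≥ 2` (author helper45)
-/

set_option autoImplicit false
set_option linter.unusedVariables false

noncomputable section

namespace HAx

open HEp HPx HRx HBy

section

variable {F : Type} [CommRing F] {m : ℕ}

/-- The numbers `z i = 1 + X λ i + X' λ' i`. -/
def z2X (l l' : Fin m → F) (i : ℕ) : PowerSeries (PowerSeries F) :=
  if h : i < m then PowerSeries.C (zX l i) +
    PowerSeries.X * PowerSeries.C (PowerSeries.C (l' ⟨i, h⟩)) else 1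

lemma z2X_cc (l l' : Fin m → F) (i : ℕ) : PowerSeries.constantCoeff (z2X l l' i) = zX l i := by
  unfold z2X
  split_ifs with h
  · rw [map_add, PowerSeries.constantCoeff_C, map_mul, PowerSeries.constantCoeff_X, zero_mul,
      add_zero]
  · unfold zX
    rw [map_one, dif_neg h]

lemma z2X_unit (l l' : Fin m → F) (i : ℕ) : IsUnit (z2X l l' i) := by
  rw [PowerSeries.isUnit_iff_constantCoeff, z2X_cc]
  exact zX_unit l i

/-- The curvature vanishes. -/
theorem fl2X (c : ℕ) (r : Fin m → Fin m → F) (S : Finset (Fin m)) (hS : ∀ a ∈ S, a.val < c)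
    (a0 a1 : Fin m) (h0 : a0 ∈ S) (h1 : a1 ∈ S) :
    (toR (HMx.DSt (PowerSeries (PowerSeries F)) m c (rC (rC r)) S)).Fl m
      (z2X (lamF c r a0) (lamF c r a1)) := by
  refine ⟨toR_comm _, fun j x => ?_⟩
  obtain ⟨t0, ht0⟩ : ∃ t0 : ℕ → PowerSeries (PowerSeries F), ∀ i : Fin m,
      t0 i = PowerSeries.C PowerSeries.X * lamF c (rC (rC r)) a0 i :=
    ⟨fun i => if h : i < m then PowerSeries.C PowerSeries.X * lamF c (rC (rC r)) a0 ⟨i, h⟩ else 0,
      fun i => dif_pos i.2⟩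
  obtain ⟨t1, ht1⟩ : ∃ t1 : ℕ → PowerSeries (PowerSeries F), ∀ i : Fin m,
      t1 i = PowerSeries.X * lamF c (rC (rC r)) a1 i :=
    ⟨fun i => if h : i < m then PowerSeries.X * lamF c (rC (rC r)) a1 ⟨i, h⟩ else 0,
      fun i => dif_pos i.2⟩
  have e : ∀ i ∈ Finset.range m, (z2X (lamF c r a0) (lamF c r a1) i - 1) •
      (toR (HMx.DSt (PowerSeries (PowerSeries F)) m c (rC (rC r)) S)).Y i j x =
      t0 i • (toR (HMx.DSt (PowerSeries (PowerSeries F)) m c (rC (rC r)) S)).Y i j x +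
      t1 i • (toR (HMx.DSt (PowerSeries (PowerSeries F)) m c (rC (rC r)) S)).Y i j x := by
    intro i hi
    have hi' : i < m := Finset.mem_range.1 hi
    rw [← add_smul]
    congr 1
    rw [ht0 ⟨i, hi'⟩, ht1 ⟨i, hi'⟩, lamF_C, lamF_C, lamF_C, lamF_C]
    unfold z2X zX
    rw [dif_pos hi', dif_pos hi', map_add, map_one, map_mul]
    ring
  rw [Finset.sum_congr rfl e, Finset.sum_add_distrib,
    sum_zero c (rC (rC r)) S hS a0 h0 t0 _ ht0 j x, sum_zero c (rC (rC r)) S hS a1 h1 t1 _ ht1 j x,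
    add_zero]

end

section

variable {G : Type} [CommGroup G] (g : GD G) {F : Type} [CommRing F] (c : ℕ)
  (r : Fin g.m → Fin g.m → F)

/-- The module over the power series in two variables. -/
abbrev DXX : HRx.DM (PowerSeries (PowerSeries F)) :=
  toR (HMx.DSt (PowerSeries (PowerSeries F)) g.m c (rC (rC r)) (HMx.Lt g.m c))

/-- The place `1`. -/
abbrev i1 (hm : 1 < g.m) : Fin g.m := ⟨1, hm⟩

/-- The numbers `z` in two variables. -/
abbrev z2D (hm0 : 0 < g.m) (hm : 1 < g.m) : ℕ → PowerSeries (PowerSeries F) :=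
  z2X (lamF c r (i0 g hm0)) (lamF c r (i1 g hm))

lemma z2D_one (hm0 : 0 < g.m) (hm : 1 < g.m) (hc : 2 ≤ c) : z2D g c r hm0 hm 1 =
    1 + PowerSeries.X := by
  unfold z2D z2X zX
  rw [dif_pos hm, dif_pos hm]
  have h1 : lamF c r (i0 g hm0) (i1 g hm) = 0 := by
    unfold lamF
    rw [if_neg, if_neg]
    · change ¬ c ≤ 1
      omega
    · intro h
      have := congrArg Fin.val h
      change 1 = 0 at this
      omega
  have h2 : lamF c r (i1 g hm) (i1 g hm) = 1 := by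
    unfold lamF
    rw [if_pos rfl]
  rw [h1, h2, map_zero, mul_zero, add_zero, map_one, map_one, map_one, mul_one]

/-- The case `c ≥ 2`. -/
theorem ezc2 (hOpN : S_OpN) (hMCm : S_MCm) (hMitA : S_MitA) (hExB : S_ExB) (hExI : S_ExI)
    (hExS : S_ExS) (hDifF : S_DifF) (hCLM : S_CLM) (hNulZ : S_NulZ) (hNulA : S_NulA)
    (hPSx : S_PSx) (hKLp : S_KLp) (hClF : HBy.S_ClF) (hEZC2 : S_EZC2)
    [Module.Finite ℤ F] [Module.Free ℤ F] [IsReduced F] [Finite G] (f : Polynomial ℤ)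
    (hm0 : 0 < g.m) (hm : 1 < g.m) (hc : 2 ≤ c) (hmb : g.m ≤ g.b)
    (hh : (HMx.kapP f g.m).IsHomogeneous g.m) (hκ : g.κ = kcf (HMx.kapP f g.m))
    (hKL : HMx.DM.KL f (HMx.DSt F g.m c r (HMx.Lt g.m c)).toZ)
    (o : TOK g (zDc g c r hm0) (zX_cc _) (DX g c r)) (hPerf : (TG g o).Perf)
    (L : Type) [Field L] [CharZero L] (e : F →+* L) :
    EZ e (tel (rstEn (twI (cc0 g (zDc g c r hm0) (zX_cc _))) (cE (TC g o)))) := by
  have hS : ∀ a ∈ HMx.Lt g.m c, a.val < c := fun a ha => (mem_Lt g c a).1 ha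
  have hfl := fl2X c r (HMx.Lt g.m c) hS (i0 g hm0) (i1 g hm)
    ((mem_Lt g c _).2 (by change 0 < c; omega)) ((mem_Lt g c _).2 (by change 1 < c; omega))
  have hko : Ko (DXX g c r).tY g.b (rv g.m) g.m g.κ = 0 := by
    rw [hκ]
    exact ko_zero _ f g.b hh hmb (hKLp _ g.m c (rC r) (HMx.Lt g.m c) f
      (hKLp F g.m c r (HMx.Lt g.m c) f hKL))
  have h2 : Dif (g.M (z2D g c r hm0 hm) (DXX g c r)) := hDifF G g _ _ _ hfl
  have c2 : (g.M (z2D g c r hm0 hm) (DXX g c r)).CL g.V g.n := hCLM G g _ _ _ hfl hko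
  obtain ⟨a, b, hab, ha, hb, hbs⟩ := hPSx (PowerSeries F) g.m c (rC r) (HMx.Lt g.m c)
  obtain ⟨a', ha'⟩ : ∃ a' : DHom (RingHom.id (PowerSeries (PowerSeries F))) (DXX g c r)
      (DXX g c r), a'.f = a.f := ⟨toH (RingHom.id _) a (fun j t x => by
        rw [ha, ha, RingHom.id_apply, smul_comm]), rfl⟩
  obtain ⟨b', hb'⟩ : ∃ b' : DHom (PowerSeries.constantCoeff (R := PowerSeries F)) (DXX g c r)
      (DX g c r), b'.f = b.f := ⟨toH _ b hbs, rfl⟩
  have hses := exQ g hOpN hMCm hExB hExI hExS a' b' (by rw [ha']; exact hab.inj)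
    (by rw [ha', hb']; exact hab.zer) (by rw [ha', hb']; exact hab.ex)
    (by rw [hb']; exact hab.sur) (z' := z2D g c r hm0 hm) (z := z2D g c r hm0 hm)
    (z'' := zDc g c r hm0) (fun _ => rfl) (z2X_cc _ _) (z2X_unit _ _) (zX_unit _) h2 h2 o.h
  -- the complex over `F`
  let ρ : F →+* PowerSeries (PowerSeries F) :=
    (PowerSeries.C (R := PowerSeries F)).comp (PowerSeries.C (R := F))
  let X := rst ρ ((g.M (z2D g c r hm0 hm) (DXX g c r)).gc h2)
  let aX : X.V →ₗ[F] X.V :=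
    { toFun := fun x => rstI ρ _ ((PowerSeries.X : PowerSeries (PowerSeries F)) •
        (rstI ρ _).symm x)
      map_add' := fun x y => by rw [map_add, smul_add, map_add]
      map_smul' := fun t x => by
        change (rstI ρ _) ((PowerSeries.X : PowerSeries (PowerSeries F)) • (ρ t •
          (rstI ρ _).symm x)) = (rstI ρ _) (ρ t • ((PowerSeries.X : PowerSeries (PowerSeries F)) •
          (rstI ρ _).symm x))
        rw [smul_comm] }
  have hqa : ∀ x, qh g a' hOpN hMCm (fun _ => rfl) h2 h2 x =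
      (PowerSeries.X : PowerSeries (PowerSeries F)) • x := by
    intro x
    refine Subtype.ext ?_
    refine mF_scal g hMitA PowerSeries.X a' (fun j y => ?_) g.m x.1
    rw [ha']
    exact ha j y
  have hX : SES X X (TG g o) aX.toAddMonoidHom
      (qh g b' hOpN hMCm (z2X_cc _ _) h2 o.h) := by
    refine ⟨⟨fun i x hx => ?_, fun x => ?_⟩, hses.chb, fun x hx => ?_, fun x => ?_,
      fun i x hx hbx => ?_, hses.sur⟩
    · exact ((((g.M (z2D g c r hm0 hm) (DXX g c r)).gc h2).G i).smul_mem _ hx)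
    · exact (((g.M (z2D g c r hm0 hm) (DXX g c r)).gc h2).d.map_smul _ _).symm
    · exact hses.inj x ((hqa x).trans hx)
    · exact (congrArg (qh g b' hOpN hMCm (z2X_cc _ _) h2 o.h) (hqa x).symm).trans (hses.ba x)
    · obtain ⟨y, hy, hyx⟩ := hses.ex i x hx hbx
      exact ⟨y, hy, (hqa y).symm.trans hyx⟩
  refine hEZC2 F G (cc0 g (zDc g c r hm0) (zX_cc _)) (TG g o) (cE (TC g o))
    (perf_fit hClF _ _ _ ?_ hPerf) hPerf (TG_s g hNulZ (toR_comm _) hm0 (zDc_zero g c r hm0) o)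
    (TG_u g hNulA (toR_comm _) o) X
    (rstEn ρ (cE ((g.M (z2D g c r hm0 hm) (DXX g c r)).clf h2 c2))) aX
    (qh g b' hOpN hMCm (z2X_cc _ _) h2 o.h) ?_ hX ?_ ?_ ?_ L e
  · have := g.n2
    omega
  · intro t x
    refine (qh_smul g b' hOpN hMCm (z2X_cc _ _) h2 o.h (ρ t) x).trans ?_
    rw [show PowerSeries.constantCoeff (ρ t) = PowerSeries.C t from PowerSeries.constantCoeff_C _]
    exact (TG_alg g o (PowerSeries.C t) _).symm
  · intro x
    exact ((cE ((g.M (z2D g c r hm0 hm) (DXX g c r)).clf h2 c2)).e.map_smul _ _).symm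
  · intro x
    exact (qh_X g b' hOpN hMCm (z2X_cc _ _) h2 o.h c2 o.c _).trans
      (congrArg ((TC g o).X) (qh_W g b' hOpN hMCm (z2X_cc _ _) h2 o.h c2 o.c x))
  · intro i x hx
    obtain ⟨E, hE⟩ := hNulZ G g _ (z2D g c r hm0 hm) (DXX g c r) (toR_comm _) g.m (g.m - 2)
      (Nat.sub_lt hm0 (by decide))
    obtain ⟨y, hy, hyx⟩ := nul_bdy hE h2 i x hx
    refine ⟨y, hy, Subtype.ext ?_⟩
    refine hyx.trans ?_
    have e1 : rv g.m (g.m - 2) = 1 := by
      unfold rv
      rw [if_pos (Nat.sub_lt hm0 (by decide))]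
      omega
    rw [e1, z2D_one g c r hm0 hm hc, add_sub_cancel_left]
    rfl

end

end HAx
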