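import Pool.Agent.Lib.MP_181146_gt.HA.QDc

/-!
# Project HA (part A): the class of the telescope for the modules `D_c` (author helper45)
-/

set_option autoImplicit false
set_option linter.unusedVariables false

noncomputable section

namespace HAx

open HEp HPx HRx HBy

/-- A perfect complex has bounded homology. -/
theorem perf_bdH {R : Type} [CommRing R] (T : GC R) (h : T.Perf) : BdH T := by
  obtain ⟨U, F, hF⟩ := h
  refine ⟨U.N, fun i x hi hx => ?_⟩
  obtain ⟨y, hy, hb⟩ := hF.2 i x hx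
  have := U.bdd i hi
  rw [Subsingleton.elim y 0, map_zero, sub_zero] at hb
  exact hb

/-- The telescope of a perfect complex with a Clifford pair satisfies the Fitting condition. -/
theorem perf_fit (hClF : HBy.S_ClF) {R : Type} [CommRing R] (T : GC R) (n : ℤ) (c : Clf T n)
    (hn : 0 < n) (h : T.Perf) : (cE c).Fit := hClF R T n c hn (perf_bdH T h)

section

variable {G : Type} [CommGroup G] (g : GD G) {F : Type} [CommRing F] (c : ℕ)
  (r : Fin g.m → Fin g.m → F)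

/-- The place `0`. -/
abbrev i0 (hm : 0 < g.m) : Fin g.m := ⟨0, hm⟩

/-- The numbers `z` for `D_c`. -/
abbrev zDc (hm : 0 < g.m) : ℕ → PowerSeries F := zX (lamF c r (i0 g hm))

/-- The module over the power series. -/
abbrev DX : HRx.DM (PowerSeries F) :=
  toR (HMx.DSt (PowerSeries F) g.m c (rC r) (HMx.Lt g.m c))

lemma mem_Lt (a : Fin g.m) : a ∈ HMx.Lt g.m c ↔ a.val < c := by
  simp [HMx.Lt]

lemma zDc_zero (hm : 0 < g.m) : zDc g c r hm 0 = 1 + PowerSeries.X := by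
  unfold zDc zX lamF
  rw [dif_pos hm, if_pos rfl, map_one, mul_one]

theorem tokDc (hDifF : S_DifF) (hGPM : S_GPM) (hCLM : S_CLM) (hKLp : S_KLp) (f : Polynomial ℤ)
    (hm : 0 < g.m) (hc : 1 ≤ c) (hmb : g.m ≤ g.b) (hh : (HMx.kapP f g.m).IsHomogeneous g.m)
    (hκ : g.κ = kcf (HMx.kapP f g.m))
    (hKL : HMx.DM.KL f (HMx.DSt F g.m c r (HMx.Lt g.m c)).toZ) :
    TOK g (zDc g c r hm) (zX_cc _) (DX g c r) := by
  refine tok g hDifF hGPM hCLM (flX c r _ (fun a ha => (mem_Lt g c a).1 ha) (i0 g hm)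
    ((mem_Lt g c _).2 hc)) ?_
  rw [hκ]
  exact ko_zero _ f g.b hh hmb (hKLp F g.m c r (HMx.Lt g.m c) f hKL)

theorem qokDc (hDifF : S_DifF) (hGPM : S_GPM) (hCLM : S_CLM) (f : Polynomial ℤ)
    (hmb : g.m ≤ g.b) (hh : (HMx.kapP f g.m).IsHomogeneous g.m)
    (hκ : g.κ = kcf (HMx.kapP f g.m)) {k : Type} [CommRing k] (D : HMx.DM k g.m)
    (hKL : HMx.DM.KL f D.toZ) : QOK g (toR D) := by
  refine qok g hDifF hGPM hCLM _ (toR_comm _) ?_
  rw [hκ]
  exact ko_zero _ f g.b hh hmb hKL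

/-- The class of the telescope for `D_c` is zero. -/
theorem peDc (hOpN : S_OpN) (hMCm : S_MCm) (hMitA : S_MitA) (hExB : S_ExB) (hExI : S_ExI)
    (hExS : S_ExS) (hDifF : S_DifF) (hGPM : S_GPM) (hCLM : S_CLM) (hNulZ : S_NulZ)
    (hNulA : S_NulA) (hPSx : S_PSx) (hClF : HBy.S_ClF) (hOneC : S_OneC)
    [Module.Finite ℤ F] [Module.Free ℤ F] [IsReduced F] [Finite G] (hm : 0 < g.m)
    (o : TOK g (zDc g c r hm) (zX_cc _) (DX g c r))
    (o1 : QOK g (toR (HMx.DSt F g.m c r (HMx.Lt g.m c)))) (hPerf : (TG g o).Perf)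
    (hEZ : ∀ (L : Type) [Field L] [CharZero L] (e : F →+* L),
      EZ e (tel (rstEn (twI (cc0 g (zDc g c r hm) (zX_cc _))) (cE (TC g o))))) :
    PE g (toR (HMx.DSt F g.m c r (HMx.Lt g.m c)).toZ) := by
  intro o0
  obtain ⟨a, b, hab, ha, hb, hbs⟩ := hPSx F g.m c r (HMx.Lt g.m c)
  obtain ⟨a', ha'⟩ : ∃ a' : DHom (RingHom.id (PowerSeries F)) (DX g c r) (DX g c r),
      a'.f = a.f := ⟨toH (RingHom.id _) a (fun j t x => by
        rw [ha, ha, RingHom.id_apply, smul_comm]), rfl⟩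
  obtain ⟨b', hb'⟩ : ∃ b' : DHom (PowerSeries.constantCoeff (R := F)) (DX g c r)
      (toR (HMx.DSt F g.m c r (HMx.Lt g.m c))), b'.f = b.f := ⟨toH _ b hbs, rfl⟩
  refine hOneC F G (cc0 g (zDc g c r hm) (zX_cc _)) (TG g o) (cE (TC g o))
    (perf_fit hClF _ _ _ ?_ hPerf) hPerf _ (cE (QC g _ o1)) (qT g b' hOpN hMCm o o1)
    (qT_smul g b' hOpN hMCm o o1)
    (exT g b' hOpN hMCm o o1 hExB hExI hExS hMitA a' ?_ ?_ ?_ ?_ ?_ (zX_unit _))
    (qT_E g b' hOpN hMCm o o1) (TG_s g hNulZ (toR_comm _) hm (zDc_zero g c r hm) o)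
    (TG_u g hNulA (toR_comm _) o) _ (cE (QC g _ o0)) (qG g (toZH F _) hOpN hMCm o0 o1)
    (qG_smul g _ hOpN hMCm o0 o1)
    (qG_QI g _ hOpN hMCm o0 o1 hExB hExI hExS hDifF (fun j => Function.bijective_id))
    (qG_E g _ hOpN hMCm o0 o1) hEZ
  · have := g.n2
    omega
  · intro j x
    rw [ha']
    exact ha j x
  · rw [ha']
    exact hab.inj
  · rw [ha', hb']
    exact hab.zer
  · rw [ha', hb']
    exact hab.ex
  · rw [hb']
    exact hab.sur

end

end HAx
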