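import Pool.Agent.Lib.MP_181146_gt.HA.QTw
import Pool.Agent.Lib.MP_181146_gt.HA.Lam
import Pool.Agent.Lib.MP_181146_gt.HA.KoEv

/-!
# Project HA (part A): the modules `D_c` (author helper45)
-/

set_option autoImplicit false
set_option linter.unusedVariables false

noncomputable section

namespace HAx

open HEp HPx HRx HBy

section

variable {k k' : Type} [CommRing k] [CommRing k'] {m : ℕ}

/-- A semilinear morphism as a morphism of the modules indexed by `ℕ`. -/
def toH (σ : k →+* k') {D : HMx.DM k m} {D' : HMx.DM k' m} (e : HMx.DM.Hom D D')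
    (hs : ∀ j r x, e.f j (r • x) = σ r • e.f j x) : DHom σ (toR D) (toR D') where
  f := e.f
  fs := hs
  fY := by
    intro i j x
    by_cases h : i < m
    · rw [toR_Y D i h, toR_Y D' i h]
      exact e.fY _ j x
    · rw [toR_Y0 D i h, toR_Y0 D' i h, LinearMap.zero_apply, LinearMap.zero_apply]
      exact map_zero _

lemma hom_int {A B : Type} [AddCommGroup A] [AddCommGroup B] (hA : Module ℤ A) (hB : Module ℤ B)
    (f : A →+ B) (r : ℤ) (x : A) : f (hA.smul r x) = hB.smul r (f x) := by
  rw [int_smul_eq_zsmul hA, int_smul_eq_zsmul hB]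
  exact map_zsmul f r x

/-- A morphism over the integers. -/
abbrev toHZ {D : HMx.DM ℤ m} {D' : HMx.DM ℤ m} (e : HMx.DM.Hom D D') :
    DHom (RingHom.id ℤ) (toR D) (toR D') :=
  toH (RingHom.id ℤ) e (fun j r x => hom_int (D.mo j) (D'.mo j) (e.f j) r x)

/-- Restriction of scalars to the integers. -/
def toZH (F : Type) [CommRing F] (D : HMx.DM F m) : DHom (algebraMap ℤ F) (toR D.toZ) (toR D) where
  f j := AddMonoidHom.id (D.D j)
  fs := by
    intro j r x
    change r • (show D.D j from x) = algebraMap ℤ F r • (show D.D j from x)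
    rw [algebraMap_int_eq, eq_intCast, Int.cast_smul_eq_zsmul]
  fY := by
    intro i j x
    by_cases h : i < m
    · rw [toR_Y D.toZ i h, toR_Y D i h]
      rfl
    · rw [toR_Y0 D.toZ i h, toR_Y0 D i h]
      rfl

end

section

variable {F : Type} [CommRing F] {m : ℕ}

lemma lamF_C (c : ℕ) (r : Fin m → Fin m → F) (i0 i : Fin m) :
    lamF c (rC r) i0 i = PowerSeries.C (lamF c r i0 i) := by
  unfold lamF
  by_cases h : i = i0
  · rw [if_pos h, if_pos h, map_one]
  · rw [if_neg h, if_neg h]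
    by_cases h' : c ≤ i.val
    · rw [if_pos h', if_pos h']
      rfl
    · rw [if_neg h', if_neg h', map_zero]

/-- The numbers `z i = 1 + X λ i`. -/
def zX (l : Fin m → F) (i : ℕ) : PowerSeries F :=
  if h : i < m then 1 + PowerSeries.X * PowerSeries.C (l ⟨i, h⟩) else 1

lemma zX_cc (l : Fin m → F) (i : ℕ) : PowerSeries.constantCoeff (zX l i) = 1 := by
  unfold zX
  split_ifs with h
  · rw [map_add, map_one, map_mul, PowerSeries.constantCoeff_X, zero_mul, add_zero]
  · exact map_one _

lemma zX_unit (l : Fin m → F) (i : ℕ) : IsUnit (zX l i) := by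
  rw [PowerSeries.isUnit_iff_constantCoeff, zX_cc]
  exact isUnit_one

lemma toR_Y_val (c : ℕ) (r : Fin m → Fin m → F) (S : Finset (Fin m)) (i : Fin m) (j : ℕ)
    (x : HMx.fn F m S (j + 1)) :
    ((show HMx.fn F m S j from (toR (HMx.DSt F m c r S)).Y i j x) : (Fin m → ℕ) → F) =
      HMx.yo F m c r S i x.1 := by
  exact congrArg Subtype.val (LinearMap.congr_fun (toR_Y (HMx.DSt F m c r S) i i.2 j) x)

/-- A linear form which acts as zero. -/
lemma sum_zero (c : ℕ) (r : Fin m → Fin m → F) (S : Finset (Fin m)) (hS : ∀ a ∈ S, a.val < c)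
    (i0 : Fin m) (hi : i0 ∈ S) (t : ℕ → F) (a : F)
    (ht : ∀ i : Fin m, t i = a * lamF c r i0 i) (j : ℕ)
    (x : (toR (HMx.DSt F m c r S)).D (j + 1)) :
    ∑ i ∈ Finset.range m, t i • (toR (HMx.DSt F m c r S)).Y i j x = 0 := by
  rw [Finset.sum_range]
  have h1 : ∀ i : Fin m, t i • (toR (HMx.DSt F m c r S)).Y i j x =
      a • (lamF c r i0 i • (toR (HMx.DSt F m c r S)).Y i j x) := by
    intro i
    rw [ht, mul_smul]
  rw [Finset.sum_congr rfl (fun i _ => h1 i), ← Finset.smul_sum]
  have h2 : ∑ i : Fin m, lamF c r i0 i • (toR (HMx.DSt F m c r S)).Y i j x = 0 := by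
    refine Subtype.ext ?_
    refine (map_sum (HMx.fn F m S j).subtype _ _).trans ?_
    refine Eq.trans ?_ (lamF_zero r S hS i0 hi (show HMx.fn F m S (j + 1) from x).1)
    refine Finset.sum_congr rfl fun i _ => ?_
    exact congrArg (fun u : (Fin m → ℕ) → F => lamF c r i0 i • u) (toR_Y_val c r S i j x)
  rw [h2, smul_zero]

/-- The curvature vanishes. -/
theorem flX (c : ℕ) (r : Fin m → Fin m → F) (S : Finset (Fin m)) (hS : ∀ a ∈ S, a.val < c)
    (i0 : Fin m) (hi : i0 ∈ S) :
    (toR (HMx.DSt (PowerSeries F) m c (rC r) S)).Fl m (zX (lamF c r i0)) := by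
  refine ⟨toR_comm _, fun j x => ?_⟩
  refine sum_zero c (rC r) S hS i0 hi (fun i => zX (lamF c r i0) i - 1) PowerSeries.X ?_ j x
  intro i
  rw [lamF_C]
  unfold zX
  rw [dif_pos i.2, add_sub_cancel_left]

end

end HAx
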