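import Pool.Agent.Lib.MP_181146_gt.HA.QMap

/-!
# Project HA (part A): exact sequences of the complexes `Q(k, z, D)` (author helper45)
-/

set_option autoImplicit false
set_option linter.unusedVariables false

noncomputable section

namespace HAx

open HEp HPx HRx HBy

section

variable {G : Type} [CommGroup G] (g : GD G)

/-- The exact sequence of the complexes `Q`. -/
theorem exQ (hOpN : S_OpN) (hMCm : S_MCm) (hExB : S_ExB) (hExI : S_ExI) (hExS : S_ExS)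
    {k' k k'' : Type} [CommRing k'] [CommRing k] [CommRing k''] {D' : HRx.DM k'} {D : HRx.DM k}
    {D'' : HRx.DM k''} {σ' : k' →+* k} {σ : k →+* k''} (f' : DHom σ' D' D) (f : DHom σ D D'')
    (inj : ∀ j x, f'.f j x = 0 → x = 0) (zer : ∀ j x, f.f j (f'.f j x) = 0)
    (ex : ∀ j x, f.f j x = 0 → ∃ y, f'.f j y = x) (sur : ∀ j y, ∃ x, f.f j x = y)
    {z' : ℕ → k'} {z : ℕ → k} {z'' : ℕ → k''} (hz' : ∀ i, σ' (z' i) = z i)
    (hz'' : ∀ i, σ (z i) = z'' i) (hu : ∀ i, IsUnit (z i)) (hu'' : ∀ i, IsUnit (z'' i))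
    (h' : Dif (g.M z' D')) (h : Dif (g.M z D)) (h'' : Dif (g.M z'' D'')) :
    SES ((g.M z' D').gc h') ((g.M z D).gc h) ((g.M z'' D'').gc h'')
      (qh g f' hOpN hMCm hz' h' h) (qh g f hOpN hMCm hz'' h h'') := by
  have h0 := hExB G g k' k k'' D' D D'' σ' σ f' f inj zer ex sur
  have h1 : Ex3 (M' := g.M z' D') (M := g.M z D) (M'' := g.M z'' D'') 0 (g.mF f' z' z g.m)
      (g.mF f z z'' g.m) :=
    hExI k' k k'' _ _ (g.M0 D') (g.M0 D) (g.M0 D'') 0 (fch g f') (fch g f) h0 g.q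
      (Nat.pos_of_ne_zero (NeZero.ne g.q)) g.b (rv g.m) z' z z'' hu hu'' (ch_z g f' hz')
      (ch_z g f hz'') (rho g.q g.ψ) g.m
  have h2 := hExS k' k k'' _ _ (g.M z' D') (g.M z D) (g.M z'' D'') 0 (g.mF f' z' z g.m)
    (g.mF f z z'' g.m) h1 h' h h''
  refine ⟨h2.cha, qh_ch g f hOpN hMCm hz'' h h'', h2.inj, h2.ba, h2.ex, ?_⟩
  intro i y hy
  refine h2.sur i y ?_
  change y ∈ ((g.M z'' D'').gc h'').G (i - 0)
  rwa [sub_zero]

/-- The zero module. -/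
def dm0 (k : Type) [CommRing k] : HRx.DM k where
  D _ := PUnit
  Y _ _ := 0

/-- The zero morphism. -/
def h0m {k : Type} [CommRing k] (D : HRx.DM k) : DHom (RingHom.id k) D (dm0 k) where
  f _ := 0
  fs _ _ _ := rfl
  fY _ _ _ := rfl

lemma dm0_fl (k : Type) [CommRing k] (m : ℕ) (z : ℕ → k) : (dm0 k).Fl m z :=
  ⟨fun _ _ _ _ => rfl, fun _ _ => rfl⟩

lemma dm0_ko (k : Type) [CommRing k] (b m : ℕ) (κ : (ℕ → ℕ) → ℤ) :
    Ko (dm0 k).tY b (rv m) m κ = 0 := LinearMap.ext fun _ => funext fun _ => rfl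

lemma mitF_triv {k k' : Type} [CommRing k] [CommRing k'] {H : Type} {F : FS H} {M : MS k H F}
    {M' : MS k' H F} (f : M.V →+ M'.V) (hf : ∀ x, f x = 0) (q b : ℕ) (ix : ℕ → ℕ) (z : ℕ → k)
    (z' : ℕ → k') (ρ : ℕ → H → ℤ) : ∀ (n : ℕ) (x : (mit M q b ix z ρ n).V),
      mitF f q b ix z z' ρ n x = 0
  | 0, x => hf x
  | n + 1, x => by
    refine Prod.ext ?_ ?_
    · funext c
      exact mitF_triv f hf q b ix z z' ρ n (x.1 c)
    · funext c
      exact mitF_triv f hf q b ix z z' ρ n (x.2 c)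

/-- If the third term is mapped to zero then the first map is a quasi-isomorphism. -/
lemma ses_QI {R R' R'' : Type} [CommRing R] [CommRing R'] [CommRing R''] {T' : GC R'} {T : GC R}
    {T'' : GC R''} {a : T'.V →+ T.V} {b : T.V →+ T''.V} (h : SES T' T T'' a b)
    (hb : ∀ x, b x = 0) : IsQI T' T a := by
  refine ⟨h.cha, ?_, ?_⟩
  · rintro i x hx ⟨y, hy, hyx⟩
    obtain ⟨w, hw, rfl⟩ := h.ex _ y hy (hb y)
    refine ⟨w, hw, ?_⟩
    have h1 : a (x - T'.d w) = 0 := by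
      rw [map_sub, h.cha.2, hyx, sub_self]
    exact (sub_eq_zero.1 (h.inj _ h1)).symm
  · rintro i y ⟨hy, hdy⟩
    obtain ⟨w, hw, rfl⟩ := h.ex i y hy (hb y)
    refine ⟨w, ⟨hw, h.inj _ ?_⟩, ?_⟩
    · rw [h.cha.2, hdy]
    · refine ⟨0, (T.G _).zero_mem, ?_⟩
      rw [map_zero, sub_self]

/-- A bijective map of coefficients gives a quasi-isomorphism. -/
theorem bijQ (hOpN : S_OpN) (hMCm : S_MCm) (hExB : S_ExB) (hExI : S_ExI) (hExS : S_ExS)
    (hDifF : S_DifF) {k' k : Type} [CommRing k'] [CommRing k] {D' : HRx.DM k'} {D : HRx.DM k}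
    {σ' : k' →+* k} (f' : DHom σ' D' D) (bij : ∀ j, Function.Bijective (f'.f j))
    {z' : ℕ → k'} {z : ℕ → k} (hz' : ∀ i, σ' (z' i) = z i) (hu : ∀ i, IsUnit (z i))
    (h' : Dif (g.M z' D')) (h : Dif (g.M z D)) :
    IsQI ((g.M z' D').gc h') ((g.M z D).gc h) (qh g f' hOpN hMCm hz' h' h) := by
  have hz : ∀ i, (RingHom.id k) (z i) = z i := fun _ => rfl
  refine ses_QI (exQ g hOpN hMCm hExB hExI hExS f' (h0m D)
    (fun j x hx => (injective_iff_map_eq_zero (f'.f j)).1 (bij j).1 x hx) (fun _ _ => rfl)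
    (fun j x _ => (bij j).2 x) (fun _ _ => ⟨0, rfl⟩) hz' hz hu hu h' h
    (hDifF G g k z (dm0 k) (dm0_fl k g.m z))) ?_
  intro x
  refine Subtype.ext ?_
  refine mitF_triv (fch g (h0m D)) ?_ _ _ _ _ _ _ _ _
  intro y
  funext j
  exact Finsupp.ext fun _ => rfl

end

end HAx
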