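import Pool.Agent.Lib.MP_181146_gt.HA.QEx
import Pool.Agent.Lib.MP_181146_gt.HB.SpecB

/-!
# Project HA (part A): the complexes `Q(k, 1, D)` over the group ring (author helper45)
-/

set_option autoImplicit false
set_option linter.unusedVariables false

noncomputable section

namespace HAx

open HEp HPx HRx HBy

/-- The units `1`. -/
abbrev u1 (k : Type) [CommRing k] : ℕ → k := fun _ => 1

section

variable {G : Type} [CommGroup G] (g : GD G)

/-- `Q(k, 1, D)` is a complex with an action of `G` and a Clifford pair. -/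
structure QOK {k : Type} [CommRing k] (D : HRx.DM k) : Prop where
  h : Dif (g.M (u1 k) D)
  p : (g.M (u1 k) D).GP (lf g.q g.ψ) (fun _ _ => 1)
  c : (g.M (u1 k) D).CL g.V g.n
  e : (g.M (u1 k) D).CA g.V (lf g.q g.ψ)

/-- The complex `Q(k, 1, D)` over the group ring. -/
def QG {k : Type} [CommRing k] (D : HRx.DM k) (o : QOK g D) : GC (MonoidAlgebra k G) :=
  (g.M (u1 k) D).gcG o.h o.p

/-- The Clifford pair. -/
def QC {k : Type} [CommRing k] (D : HRx.DM k) (o : QOK g D) : Clf (QG g D o) g.n :=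
  (g.M (u1 k) D).clfG o.h o.c o.p o.e

/-- The conditions are satisfied if the operators commute and `κ(Y) = 0`. -/
theorem qok (hDifF : S_DifF) (hGPM : S_GPM) (hCLM : S_CLM) {k : Type} [CommRing k] (D : HRx.DM k)
    (hD : D.Comm) (hκ : Ko D.tY g.b (rv g.m) g.m g.κ = 0) : QOK g D := by
  have hfl : D.Fl g.m (u1 k) := ⟨hD, fun j x => Finset.sum_eq_zero fun i _ => by
    change ((1 : k) - 1) • _ = _
    rw [sub_self, zero_smul]⟩
  refine ⟨hDifF G g k _ D hfl, ?_, hCLM G g k _ D hfl hκ, (hGPM G g k _ D hD).2⟩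
  have h := (hGPM G g k (u1 k) D hD).1
  have e : (fun x y => ∏ i : Fin g.m, (u1 k) i ^ HHx.carry (g.ψ i) x y) =
      (fun _ _ => (1 : k)) := by
    funext x y
    exact Finset.prod_eq_one fun i _ => one_pow _
  rwa [e] at h

variable {k k' : Type} [CommRing k] [CommRing k'] {σ : k →+* k'}
  {D : HRx.DM k} {D' : HRx.DM k'} (f : DHom σ D D') (hOpN : S_OpN) (hMCm : S_MCm)
  (o : QOK g D) (o' : QOK g D')

/-- The map of the complexes over the group rings. -/
def qG : (QG g D o).V →+ (QG g D' o').V :=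
  qh g f hOpN hMCm (fun _ => map_one σ) o.h o'.h

lemma QG_single (t : G) (r : k) (x : ((g.M (u1 k) D).gc o.h).V) :
    ((MonoidAlgebra.single t r : MonoidAlgebra k G) • (show (QG g D o).V from x) : (QG g D o).V) =
      (show (QG g D o).V from r • (g.M (u1 k) D).vg o.h o.p t x) :=
  GAct.th_single ((g.M (u1 k) D).ga o.h o.p) t r x

theorem qG_smul (a : MonoidAlgebra k G) (x : (QG g D o).V) :
    qG g f hOpN hMCm o o' (a • x) =
      MonoidAlgebra.mapRingHom G σ a • qG g f hOpN hMCm o o' x := by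
  induction a using MonoidAlgebra.induction_linear with
  | zero => rw [zero_smul, map_zero, map_zero, zero_smul]
  | add a b h1 h2 => rw [add_smul, map_add, h1, h2, map_add, add_smul]
  | single t r =>
    rw [MonoidAlgebra.mapRingHom_single]
    refine (congrArg (qG g f hOpN hMCm o o') (QG_single g o t r x)).trans
      (Eq.trans ?_ (QG_single g o' t (σ r) (qG g f hOpN hMCm o o' x)).symm)
    refine (qh_smul g f hOpN hMCm (fun _ => map_one σ) o.h o'.h r _).trans ?_
    exact congrArg (fun y : ((g.M (u1 k') D').gc o'.h).V => σ r • y)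
      (qh_A g f hOpN hMCm (fun _ => map_one σ) o.h o'.h o.p o'.p t x)

theorem qG_ch : IsCh (QG g D o) (QG g D' o') (qG g f hOpN hMCm o o') :=
  qh_ch g f hOpN hMCm (fun _ => map_one σ) o.h o'.h

theorem qG_E (x : (QG g D o).V) : qG g f hOpN hMCm o o' ((cE (QC g D o)).e x) =
    (cE (QC g D' o')).e (qG g f hOpN hMCm o o' x) :=
  (qh_X g f hOpN hMCm (fun _ => map_one σ) o.h o'.h o.c o'.c _).trans
    (congrArg ((QC g D' o').X) (qh_W g f hOpN hMCm (fun _ => map_one σ) o.h o'.h o.c o'.c x))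

/-- A bijective map of coefficients gives a quasi-isomorphism. -/
theorem qG_QI (hExB : S_ExB) (hExI : S_ExI) (hExS : S_ExS) (hDifF : S_DifF)
    (bij : ∀ j, Function.Bijective (f.f j)) :
    IsQI (QG g D o) (QG g D' o') (qG g f hOpN hMCm o o') :=
  bijQ g hOpN hMCm hExB hExI hExS hDifF f bij (fun _ => map_one σ) (fun _ => isUnit_one) o.h o'.h

end

/-! ## The class of the telescope over the integral group ring -/

section

variable {G : Type} [CommGroup G] (g : GD G)

/-- The class of the telescope of `Q(ℤ, 1, D)` is zero. -/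
def PE (D : HRx.DM ℤ) : Prop := ∀ o : QOK g D, (tel (cE (QC g D o))).HasEC 0

/-- The map of the telescopes induced by a linear map. -/
def tmL {R : Type} [CommRing R] {T T' : GC R} (E : En T) (E' : En T') (f : T.V →+ T'.V)
    (hf : ∀ (r : R) x, f (r • x) = r • f x) : (tel E).V →ₗ[R] (tel E').V where
  toFun := tm E E' f
  map_add' := map_add _
  map_smul' := by
    rintro r ⟨x, y⟩
    refine Prod.ext ?_ ?_
    · ext n
      exact hf r (x n)
    · ext n
      exact hf r (y n)

lemma mapZ (G : Type) [CommGroup G] (a : MonoidAlgebra ℤ G) :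
    MonoidAlgebra.mapRingHom G (RingHom.id ℤ) a = a := by
  rw [MonoidAlgebra.mapRingHom_id]
  rfl

/-- Isomorphisms. -/
theorem PE_iso (hOpN : S_OpN) (hMCm : S_MCm) (hExB : S_ExB) (hExI : S_ExI) (hExS : S_ExS)
    (hDifF : S_DifF) (hTelQ : HBy.S_TelQ) (hECq : HBy.S_ECq) {D D' : HRx.DM ℤ}
    (f : DHom (RingHom.id ℤ) D D') (bij : ∀ j, Function.Bijective (f.f j)) (o : QOK g D)
    (hD : PE g D) : PE g D' := by
  intro o'
  have h1 := (hTelQ _ _ (QG g D o) (QG g D' o') (cE (QC g D o)) (cE (QC g D' o'))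
    (qG g f hOpN hMCm o o') (qG_E g f hOpN hMCm o o')).2
    (qG_QI g f hOpN hMCm o o' hExB hExI hExS hDifF bij)
  have h2 : ∀ (r : MonoidAlgebra ℤ G) x, qG g f hOpN hMCm o o' (r • x) =
      r • qG g f hOpN hMCm o o' x := by
    intro r x
    rw [qG_smul, mapZ]
  exact (hECq _ (tel (cE (QC g D o))) (tel (cE (QC g D' o')))
    (tmL (cE (QC g D o)) (cE (QC g D' o')) (qG g f hOpN hMCm o o') h2) h1 0).1 (hD o)

/-- Exact sequences. -/
theorem PE_ex (hOpN : S_OpN) (hMCm : S_MCm) (hExB : S_ExB) (hExI : S_ExI) (hExS : S_ExS)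
    (hTelX : HBy.S_TelX) (hECx : HBy.S_ECx) {D' D D'' : HRx.DM ℤ}
    (f' : DHom (RingHom.id ℤ) D' D) (f : DHom (RingHom.id ℤ) D D'')
    (inj : ∀ j x, f'.f j x = 0 → x = 0) (zer : ∀ j x, f.f j (f'.f j x) = 0)
    (ex : ∀ j x, f.f j x = 0 → ∃ y, f'.f j y = x) (sur : ∀ j y, ∃ x, f.f j x = y)
    (o' : QOK g D') (o : QOK g D) (hD' : PE g D') (hD : PE g D) : PE g D'' := by
  intro o''
  have h0 : SES (QG g D' o') (QG g D o) (QG g D'' o'') (qG g f' hOpN hMCm o' o)
      (qG g f hOpN hMCm o o'') := by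
    have h := exQ g hOpN hMCm hExB hExI hExS f' f inj zer ex sur (fun _ => map_one _)
      (fun _ => map_one _) (fun _ => isUnit_one) (fun _ => isUnit_one) o'.h o.h o''.h
    exact ⟨h.cha, h.chb, h.inj, h.ba, h.ex, h.sur⟩
  have h1 := hTelX _ _ _ (QG g D' o') (QG g D o) (QG g D'' o'') (cE (QC g D' o')) (cE (QC g D o))
    (cE (QC g D'' o'')) (qG g f' hOpN hMCm o' o) (qG g f hOpN hMCm o o'')
    (qG_E g f' hOpN hMCm o' o) (qG_E g f hOpN hMCm o o'') h0
  have h2 : ∀ (r : MonoidAlgebra ℤ G) x, qG g f' hOpN hMCm o' o (r • x) =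
      r • qG g f' hOpN hMCm o' o x := by
    intro r x
    rw [qG_smul, mapZ]
  have h3 : ∀ (r : MonoidAlgebra ℤ G) x, qG g f hOpN hMCm o o'' (r • x) =
      r • qG g f hOpN hMCm o o'' x := by
    intro r x
    rw [qG_smul, mapZ]
  have h4 := (hECx _ (tel (cE (QC g D' o'))) (tel (cE (QC g D o))) (tel (cE (QC g D'' o'')))
    (tmL (cE (QC g D' o')) (cE (QC g D o)) (qG g f' hOpN hMCm o' o) h2)
    (tmL (cE (QC g D o)) (cE (QC g D'' o'')) (qG g f hOpN hMCm o o'') h3) h1).1 0 0 (hD' o') (hD o)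
  rwa [sub_zero] at h4

end

end HAx
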