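import Pool.Agent.Lib.MP_181146_gt.HR.SpecB

/-!
# Project HA (part A): maps between the complexes `Q(k, z, D)` (author helper45)
-/

set_option autoImplicit false
set_option linter.unusedVariables false

noncomputable section

namespace HAx

open HEp HPx HRx HBy

section

variable {G : Type} [CommGroup G] (g : GD G) {k k' : Type} [CommRing k] [CommRing k'] {σ : k →+* k'}
  {D : HRx.DM k} {D' : HRx.DM k'} (f : DHom σ D D')

/-- The map on the base. -/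
def fch : (g.M0 D).V →+ (g.M0 D').V := f.ch g.K

/-- The map on the base commutes with all operators. -/
theorem mcCh (hOpN : S_OpN) : MC (g.M0 D) (g.M0 D') (fch g f) := by
  have key : ∀ (A : Ch ℤ g.K →ₗ[ℤ] Ch ℤ g.K) (x : ChD g.K D),
      f.ch g.K (opD D A x) = opD D' A (f.ch g.K x) := by
    intro A x
    funext j
    exact (hOpN g.K k (D.D j)).2.2.2.2.2.2 k' (D'.D j) (f.f j) A (x j)
  refine ⟨key _, key _, ?_, fun φ => key _, key _, fun h => key _⟩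
  intro i (x : ChD g.K D)
  funext j
  refine Finsupp.ext fun y => ?_
  exact f.fY i j (x (j + 1) y)

lemma ch_smul (r : k) (x : (g.M0 D).V) : fch g f (r • x) = σ r • fch g f x := by
  funext j
  refine Finsupp.ext fun y => ?_
  exact f.fs j r _

lemma ch_G (i : ℤ) (x : (g.M0 D).V) (hx : x ∈ (g.M0 D).G i) : fch g f x ∈ (g.M0 D').G (i - 0) := by
  intro j y hy
  rw [sub_zero] at hy
  change f.f j ((show ChD g.K D from x) j y) = 0
  rw [show (show ChD g.K D from x) j y = 0 from hx j y hy, map_zero]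

variable {z : ℕ → k} {z' : ℕ → k'}

lemma ch_z (hz : ∀ i, σ (z i) = z' i) (i : ℕ) (x : (g.M0 D).V) :
    fch g f (z i • x) = z' i • fch g f x := by
  rw [ch_smul, hz]

theorem mF_MC (hOpN : S_OpN) (hMCm : S_MCm) (hz : ∀ i, σ (z i) = z' i) (n : ℕ) :
    MC (g.Mn z D n) (g.Mn z' D' n) (g.mF f z z' n) :=
  (hMCm k k' _ _ (g.M0 D) (g.M0 D') (fch g f) (mcCh g f hOpN) g.q g.b (rv g.m) z z'
    (ch_z g f hz) (rho g.q g.ψ) n).1

theorem mF_G (hOpN : S_OpN) (hMCm : S_MCm) (hz : ∀ i, σ (z i) = z' i) (n : ℕ) (i : ℤ)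
    (x : (g.Mn z D n).V) (hx : x ∈ (g.Mn z D n).G i) : g.mF f z z' n x ∈ (g.Mn z' D' n).G i := by
  have h := (hMCm k k' _ _ (g.M0 D) (g.M0 D') (fch g f) (mcCh g f hOpN) g.q g.b (rv g.m) z z'
    (ch_z g f hz) (rho g.q g.ψ) n).2.1 0 (fun i x hx => ch_G g f i x hx) i x hx
  rw [sub_zero] at h
  exact h

theorem mF_Q (hOpN : S_OpN) (hMCm : S_MCm) (hz : ∀ i, σ (z i) = z' i) (n : ℕ)
    (x : (g.Mn z D n).V) (hx : x ∈ (g.Mn z D n).Q) : g.mF f z z' n x ∈ (g.Mn z' D' n).Q :=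
  (hMCm k k' _ _ (g.M0 D) (g.M0 D') (fch g f) (mcCh g f hOpN) g.q g.b (rv g.m) z z'
    (ch_z g f hz) (rho g.q g.ψ) n).2.2.1
      (fun x _ => (Submodule.mem_top : fch g f x ∈ (⊤ : Submodule k' (g.M0 D').V))) x hx

theorem mF_smul (hOpN : S_OpN) (hMCm : S_MCm) (hz : ∀ i, σ (z i) = z' i) (n : ℕ) (r : k)
    (x : (g.Mn z D n).V) : g.mF f z z' n (r • x) = σ r • g.mF f z z' n x :=
  (hMCm k k' _ _ (g.M0 D) (g.M0 D') (fch g f) (mcCh g f hOpN) g.q g.b (rv g.m) z z'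
    (ch_z g f hz) (rho g.q g.ψ) n).2.2.2 r (σ r) (ch_smul g f r) x

/-- The map of the complexes `Q`. -/
def qh (hOpN : S_OpN) (hMCm : S_MCm) (hz : ∀ i, σ (z i) = z' i) (h : Dif (g.M z D))
    (h' : Dif (g.M z' D')) : ((g.M z D).gc h).V →+ ((g.M z' D').gc h').V :=
  qm h h' (g.mF f z z' g.m) (mF_Q g f hOpN hMCm hz g.m)

variable (hOpN : S_OpN) (hMCm : S_MCm) (hz : ∀ i, σ (z i) = z' i) (h : Dif (g.M z D))
    (h' : Dif (g.M z' D'))

lemma qh_val (x : ((g.M z D).gc h).V) :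
    (qh g f hOpN hMCm hz h h' x).1 = g.mF f z z' g.m x.1 := rfl

theorem qh_ch : IsCh ((g.M z D).gc h) ((g.M z' D').gc h') (qh g f hOpN hMCm hz h h') :=
  ⟨fun i x hx => mF_G g f hOpN hMCm hz g.m i x.1 hx,
    fun x => Subtype.ext ((mF_MC g f hOpN hMCm hz g.m).fd x.1)⟩

theorem qh_smul (r : k) (x : ((g.M z D).gc h).V) :
    qh g f hOpN hMCm hz h h' (r • x) = σ r • qh g f hOpN hMCm hz h h' x :=
  Subtype.ext (mF_smul g f hOpN hMCm hz g.m r x.1)

theorem qh_X {v : g.F.Φ} {n : ℤ} (c : (g.M z D).CL v n) (c' : (g.M z' D').CL v n)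
    (x : ((g.M z D).gc h).V) :
    qh g f hOpN hMCm hz h h' (((g.M z D).clf h c).X x) =
      ((g.M z' D').clf h' c').X (qh g f hOpN hMCm hz h h' x) := by
  refine Subtype.ext ?_
  have hm := mF_MC g f hOpN hMCm hz g.m
  exact (hm.fs _).trans (congrArg _ (hm.fZ v x.1))

theorem qh_W {v : g.F.Φ} {n : ℤ} (c : (g.M z D).CL v n) (c' : (g.M z' D').CL v n)
    (x : ((g.M z D).gc h).V) :
    qh g f hOpN hMCm hz h h' (((g.M z D).clf h c).Ξ x) =
      ((g.M z' D').clf h' c').Ξ (qh g f hOpN hMCm hz h h' x) :=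
  Subtype.ext ((mF_MC g f hOpN hMCm hz g.m).fW x.1)

theorem qh_A {l : G → Gam g.q g.ψ} {c : G → G → k} {c' : G → G → k'} (p : (g.M z D).GP l c)
    (p' : (g.M z' D').GP l c') (t : G) (x : ((g.M z D).gc h).V) :
    qh g f hOpN hMCm hz h h' ((g.M z D).vg h p t x) =
      (g.M z' D').vg h' p' t (qh g f hOpN hMCm hz h h' x) :=
  Subtype.ext ((mF_MC g f hOpN hMCm hz g.m).fA (l t) x.1)

end

end HAx
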