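import Pool.Agent.Lib.MP_181146_gt.HA.SpecA4
import Pool.Agent.Lib.MP_181146_gt.HA.DefsR

/-!
# Project HA (part A: bookkeeping), fifth specification: one module `D_c`

`T` is the complex over the twisted group ring `TW c`, `Tb` its reduction over `F[G]`, `TZ` the same
complex over `ℤ[G]`.
-/

set_option linter.unusedVariables false
set_option autoImplicit false

namespace HAx

open scoped TensorProduct
open HEp HRx HBy

/-- **OneC** (from One, AugT, Kt, EZs, RstT, HBy.TelQ, HHx.TGood).  The class of the telescope over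
`ℤ[G]` is zero. -/
def S_OneC : Prop :=
  ∀ (F G : Type) [CommRing F] [Module.Finite ℤ F] [Module.Free ℤ F] [IsReduced F] [CommGroup G]
    [Finite G] (c : HHx.Cocy F G) (T : GC (HHx.TW c)) (E : En T) (hF : E.Fit) (hP : T.Perf)
    (Tb : GC (MonoidAlgebra F G)) (Eb : En Tb) (q : T.V →+ Tb.V)
    (hq : ∀ (a : HHx.TW c) x, q (a • x) = HHx.TW.phi c a • q x)
    (hx : SES T T Tb (smE (HHx.TW.s c) T) q) (hqE : ∀ x, q (E.e x) = Eb.e (q x))
    (hs : ∀ i x, T.Cyc i x → T.Bdy i (HHx.TW.s c • x))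
    (hu : ∀ g i x, T.Cyc i x → T.Bdy i (HHx.TW.u c g • x - x))
    (TZ : GC (ZG G)) (Ez : En TZ) (p : TZ.V →+ Tb.V)
    (hp : ∀ (a : ZG G) x, p (a • x) = MonoidAlgebra.mapRangeRingHom G (algebraMap ℤ F) a • p x)
    (hpq : IsQI TZ Tb p) (hpE : ∀ x, p (Ez.e x) = Eb.e (p x))
    (hEZ : ∀ (L : Type) [Field L] [CharZero L] (e : F →+* L), EZ e (tel (rstEn (twI c) E))),
    (tel Ez).HasEC 0

/-- **EZC1** (from EZs, HBy.TelQ).  The Euler characteristic from a quasi-isomorphism over `F`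
(case `c = 1`). -/
def S_EZC1 : Prop :=
  ∀ (F G : Type) [CommRing F] [CommGroup G] (c : HHx.Cocy F G) (T : GC (HHx.TW c)) (E : En T)
    (T1 : GC F) (E1 : En T1) (ι : T1.V →+ T.V) (hι : ∀ (r : F) x, ι (r • x) = twI c r • ι x)
    (hq : IsQI T1 T ι) (hE : ∀ x, ι (E1.e x) = E.e (ι x)) (L : Type) [Field L] (e : F →+* L)
    (h1 : EZ e (tel E1)), EZ e (tel (rstEn (twI c) E))

/-- **EZC2** (from EZ2, EZfin, EZf, AugT, Kt, FlatL, HBy.ECt, HBy.TelQ, HHx.TGood).  The Euler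
characteristic from the second parameter (case `c ≥ 2`). -/
def S_EZC2 : Prop :=
  ∀ (F G : Type) [CommRing F] [Module.Finite ℤ F] [Module.Free ℤ F] [IsReduced F] [CommGroup G]
    [Finite G] (c : HHx.Cocy F G) (T : GC (HHx.TW c)) (E : En T) (hF : E.Fit) (hP : T.Perf)
    (hs : ∀ i x, T.Cyc i x → T.Bdy i (HHx.TW.s c • x))
    (hu : ∀ g i x, T.Cyc i x → T.Bdy i (HHx.TW.u c g • x - x))
    (X : GC F) (E2 : En X) (a : X.V →ₗ[F] X.V) (b : X.V →+ T.V)
    (hb : ∀ (r : F) x, b (r • x) = twI c r • b x) (hx : SES X X T a.toAddMonoidHom b)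
    (ha : ∀ x, a (E2.e x) = E2.e (a x)) (hbE : ∀ x, b (E2.e x) = E.e (b x))
    (h0 : ∀ i x, X.Cyc i x → X.Bdy i (a x)) (L : Type) [Field L] [CharZero L] (e : F →+* L),
    EZ e (tel (rstEn (twI c) E))

end HAx
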