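import Pool.Agent.Lib.MP_181146_gt.HA.QGr
import Pool.Agent.Lib.MP_181146_gt.HA.SpecA5

/-!
# Project HA (part A): the complexes `Q(F⟦X⟧, z, D)` over the twisted group ring (author helper45)
-/

set_option autoImplicit false
set_option linter.unusedVariables false

noncomputable section

namespace HAx

open HEp HPx HRx HBy

section

variable {G : Type} [CommGroup G] (g : GD G) {F : Type} [CommRing F]

/-- The cocycle. -/
def cc0 (z : ℕ → PowerSeries F) (hz : ∀ i, PowerSeries.constantCoeff (z i) = 1) : HHx.Cocy F G :=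
  HHx.carryCocy (fun _ : Fin g.m => g.q) (fun i => g.ψ i) (fun i => z i) (fun i => hz i)

/-- `Q(F⟦X⟧, z, D)` is a complex with an action of the twisted group ring and a Clifford pair. -/
structure TOK (z : ℕ → PowerSeries F) (hz : ∀ i, PowerSeries.constantCoeff (z i) = 1)
    (D : HRx.DM (PowerSeries F)) : Prop where
  h : Dif (g.M z D)
  p : (g.M z D).GP (lf g.q g.ψ) (cc0 g z hz).c
  c : (g.M z D).CL g.V g.n
  e : (g.M z D).CA g.V (lf g.q g.ψ)

variable {z : ℕ → PowerSeries F} {hz : ∀ i, PowerSeries.constantCoeff (z i) = 1}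
  {D : HRx.DM (PowerSeries F)}

theorem tok (hDifF : S_DifF) (hGPM : S_GPM) (hCLM : S_CLM) (hD : D.Fl g.m z)
    (hκ : Ko D.tY g.b (rv g.m) g.m g.κ = 0) : TOK g z hz D :=
  ⟨hDifF G g _ z D hD, (hGPM G g _ z D hD.comm).1, hCLM G g _ z D hD hκ,
    (hGPM G g _ z D hD.comm).2⟩

/-- The complex over the twisted group ring. -/
def TG (o : TOK g z hz D) : GC (HHx.TW (cc0 g z hz)) := (g.M z D).gcT o.h (cc0 g z hz) o.p

/-- The Clifford pair. -/
def TC (o : TOK g z hz D) : Clf (TG g o) g.n := (g.M z D).clfT o.h o.c (cc0 g z hz) o.p o.e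

lemma TG_sg (o : TOK g z hz D) (t : G) (r : PowerSeries F) (x : ((g.M z D).gc o.h).V) :
    (HHx.TW.sg (cc0 g z hz) t r • (show (TG g o).V from x) : (TG g o).V) =
      (show (TG g o).V from r • (g.M z D).vg o.h o.p t x) :=
  MS.tt_sg (g.M z D) o.h (cc0 g z hz) o.p t r x

lemma TG_alg (o : TOK g z hz D) (r : PowerSeries F) (x : ((g.M z D).gc o.h).V) :
    (algebraMap (PowerSeries F) (HHx.TW (cc0 g z hz)) r • (show (TG g o).V from x) : (TG g o).V) =
      (show (TG g o).V from r • x) :=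
  congrArg (fun f : Module.End (PowerSeries F) ((g.M z D).gc o.h).V => f x)
    (HHx.TW.act_algebraMap (cc0 g z hz) ((g.M z D).vg o.h o.p) ((g.M z D).vg_one o.h o.p)
      ((g.M z D).vg_mul o.h o.p) r)

/-! ### Null homotopies -/

lemma nul_bdy {k : Type} [CommRing k] {H : Type} {F' : FS H} {M : MS k H F'} {T E : Module.End k M.V}
    (n : M.Nul T E) (h : Dif M) (i : ℤ) (x : (M.gc h).V) (hx : (M.gc h).Cyc i x) :
    ∃ y ∈ (M.gc h).G (i + 1), ((M.gc h).d y).1 = T x.1 := by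
  refine ⟨⟨E x.1, n.EQ x.1 x.2⟩, n.EG i x.1 hx.1, ?_⟩
  have h1 := n.eq x.1 x.2
  have h2 : M.δ x.1 = 0 := congrArg Subtype.val hx.2
  rw [h2, map_zero, add_zero] at h1
  exact h1

/-- `X` is zero on the homology. -/
theorem TG_s (hNulZ : S_NulZ) (hD : D.Comm) (hm : 0 < g.m) (hz0 : z 0 = 1 + PowerSeries.X)
    (o : TOK g z hz D) (i : ℤ) (x : (TG g o).V) (hx : (TG g o).Cyc i x) :
    (TG g o).Bdy i (HHx.TW.s (cc0 g z hz) • x) := by
  obtain ⟨E, hE⟩ := hNulZ G g _ z D hD g.m (g.m - 1) (Nat.sub_lt hm Nat.one_pos)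
  obtain ⟨y, hy, hyx⟩ := nul_bdy hE o.h i x hx
  refine ⟨y, hy, Subtype.ext ?_⟩
  refine hyx.trans ?_
  have e : rv g.m (g.m - 1) = 0 := by
    unfold rv
    rw [if_pos (Nat.sub_lt hm Nat.one_pos)]
    omega
  rw [e, hz0, add_sub_cancel_left]
  exact (congrArg Subtype.val (TG_alg g o PowerSeries.X x)).symm

/-- The elements `u_t` act as the identity on the homology. -/
theorem TG_u (hNulA : S_NulA) (hD : D.Comm) (o : TOK g z hz D) (t : G) (i : ℤ) (x : (TG g o).V)
    (hx : (TG g o).Cyc i x) :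
    (TG g o).Bdy i (HHx.TW.u (cc0 g z hz) t • x - x) := by
  obtain ⟨E, hE⟩ := hNulA G g _ z D hD g.m (lf g.q g.ψ t)
  obtain ⟨y, hy, hyx⟩ := nul_bdy hE o.h i x hx
  refine ⟨y, hy, Subtype.ext ?_⟩
  refine hyx.trans ?_
  have h1 : (HHx.TW.u (cc0 g z hz) t • x : (TG g o).V) =
      (show (TG g o).V from (g.M z D).vg o.h o.p t x) := by
    have h2 := TG_sg g o t 1 x
    rw [one_smul] at h2
    exact h2
  rw [h1]
  rfl

/-! ### Reduction modulo `X` -/

variable {D' : HRx.DM F} (b : DHom (PowerSeries.constantCoeff (R := F)) D D') (hOpN : S_OpN)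
  (hMCm : S_MCm) (o : TOK g z hz D) (o' : QOK g D')

/-- The reduction. -/
def qT : (TG g o).V →+ (QG g D' o').V := qh g b hOpN hMCm hz o.h o'.h

theorem qT_smul (a : HHx.TW (cc0 g z hz)) (x : (TG g o).V) :
    qT g b hOpN hMCm o o' (a • x) =
      HHx.TW.phi (cc0 g z hz) a • qT g b hOpN hMCm o o' x := by
  induction a using HHx.TW.ind (cc0 g z hz) with
  | h0 => rw [zero_smul, map_zero, map_zero, zero_smul]
  | ha a b h1 h2 => rw [add_smul, map_add, h1, h2, map_add, add_smul]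
  | hs t r =>
    rw [HHx.TW.phi_sg]
    refine (congrArg (qT g b hOpN hMCm o o') (TG_sg g o t r x)).trans
      (Eq.trans ?_ (QG_single g o' t (PowerSeries.constantCoeff r)
        (qT g b hOpN hMCm o o' x)).symm)
    refine (qh_smul g b hOpN hMCm hz o.h o'.h r _).trans ?_
    exact congrArg (fun y : ((g.M (u1 F) D').gc o'.h).V => PowerSeries.constantCoeff r • y)
      (qh_A g b hOpN hMCm hz o.h o'.h o.p o'.p t x)

theorem qT_ch : IsCh (TG g o) (QG g D' o') (qT g b hOpN hMCm o o') :=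
  qh_ch g b hOpN hMCm hz o.h o'.h

theorem qT_E (x : (TG g o).V) : qT g b hOpN hMCm o o' ((cE (TC g o)).e x) =
    (cE (QC g D' o')).e (qT g b hOpN hMCm o o' x) :=
  (qh_X g b hOpN hMCm hz o.h o'.h o.c o'.c _).trans
    (congrArg ((QC g D' o').X) (qh_W g b hOpN hMCm hz o.h o'.h o.c o'.c x))

/-- Multiplication by a scalar. -/
lemma mF_scal (hMitA : S_MitA) {k : Type} [CommRing k] {z : ℕ → k} {D : HRx.DM k} (r : k)
    (a : DHom (RingHom.id k) D D) (ha : ∀ j x, a.f j x = r • x) (n : ℕ) (x : (g.Mn z D n).V) :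
    g.mF a z z n x = r • x := by
  have e : fch g a = (r • (1 : Module.End k (g.M0 D).V)).toAddMonoidHom := by
    refine AddMonoidHom.ext fun y => ?_
    funext j
    exact Finsupp.ext fun t => ha j _
  obtain ⟨h1, -, -, h2, -⟩ := hMitA k _ _ (g.M0 D) g.q g.b (rv g.m) z (rho g.q g.ψ) n
  have h3 := h2 r 1 x
  rw [h1] at h3
  rw [← h3]
  exact congrArg (fun t => mitF (M := g.M0 D) (M' := g.M0 D) t g.q g.b (rv g.m) z z
    (rho g.q g.ψ) n x) e

/-- The exact sequence. -/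
theorem exT (hExB : S_ExB) (hExI : S_ExI) (hExS : S_ExS) (hMitA : S_MitA)
    (a : DHom (RingHom.id (PowerSeries F)) D D)
    (ha : ∀ j x, a.f j x = (PowerSeries.X : PowerSeries F) • x)
    (inj : ∀ j x, a.f j x = 0 → x = 0) (zer : ∀ j x, b.f j (a.f j x) = 0)
    (ex : ∀ j x, b.f j x = 0 → ∃ y, a.f j y = x) (sur : ∀ j y, ∃ x, b.f j x = y)
    (hu : ∀ i, IsUnit (z i)) :
    SES (TG g o) (TG g o) (QG g D' o') (smE (HHx.TW.s (cc0 g z hz)) (TG g o))
      (qT g b hOpN hMCm o o') := by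
  have h := exQ g hOpN hMCm hExB hExI hExS a b inj zer ex sur (z' := z) (z := z)
    (z'' := u1 F) (fun _ => rfl) hz hu (fun _ => isUnit_one) o.h o.h o'.h
  have e : ∀ x : (TG g o).V, qh g a hOpN hMCm (fun _ => rfl) o.h o.h x =
      smE (HHx.TW.s (cc0 g z hz)) (TG g o) x := by
    intro x
    refine Eq.trans (Subtype.ext ?_) (TG_alg g o PowerSeries.X x).symm
    exact mF_scal g hMitA PowerSeries.X a ha g.m x.1
  refine ⟨⟨fun i x hx => ?_, fun x => ?_⟩, h.chb, fun x hx => ?_, fun x => ?_,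
    fun i x hx hbx => ?_, h.sur⟩
  · rw [← e]
    exact h.cha.1 i x hx
  · rw [← e, ← e]
    exact h.cha.2 x
  · rw [← e] at hx
    exact h.inj x hx
  · rw [← e]
    exact h.ba x
  · obtain ⟨y, hy, hyx⟩ := h.ex i x hx hbx
    exact ⟨y, hy, (e y).symm.trans hyx⟩

end

end HAx
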