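import Pool.Agent.Lib.MP_181146_gt.HA.DefsA
import Pool.Agent.Lib.MP_181146_gt.HP.DefsP
import Pool.Agent.Lib.MP_181146_gt.HE.SpecG

/-!
# Project HA (part A: bookkeeping), first specification: the Euler characteristic of big complexes

Every statement is a separate task; the proof of each is in the docstring.  Notation of `HA/DefsA.lean`,
`HR/DefsC.lean`, `HB/DefsB.lean`.
-/

set_option linter.unusedVariables false
set_option autoImplicit false

namespace HAx

open scoped TensorProduct
open HEp HRx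

/-- **Eeq.** The dimension of `L ⊗ M` depends only on `M` as a group with the action through a surjective
ring homomorphism.
Proof: `e : M ≃ M'` with `e (b x) = σ b e x`.  The map `L ⊗_R M → L ⊗_R' M'`, `l ⊗ x ↦ l ⊗ e x` is well
defined (`l ε(σ b) ⊗ e x = l ⊗ σ b e x`) and `L`-linear, with the inverse `l ⊗ y ↦ l ⊗ e⁻¹ y` (for `b' ∈ R'`
choose `b` with `σ b = b'`).  Use `TensorProduct.lift` on additive groups, or: both sides are the base
changes of `M` along `R → R' → L`: `L ⊗_R M ≃ L ⊗_R' (R' ⊗_R M)`, `R' ⊗_R M ≃ M'`.  Finiteness: a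
generating set goes to a generating set. -/
def S_Eeq : Prop :=
  ∀ (R R' : Type) [CommRing R] [CommRing R'] (σ : R →+* R') (hσ : Function.Surjective σ)
    (M M' : Type) [AddCommGroup M] [Module R M] [AddCommGroup M'] [Module R' M'] (e : M ≃+ M')
    (he : ∀ b x, e (b • x) = σ b • e x) (L : Type) [Field L] (ε : R' →+* L),
    (Module.Finite R M ↔ Module.Finite R' M') ∧ HBx.hrk (ε.comp σ) M = HBx.hrk ε M'

/-- **EZs** (from Eeq).  Invariance of `EZ` under quasi-isomorphisms `f` which are semilinear on the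
homology.
Proof: `Hi T i ≃+ Hi T' i` from `f` (`QuotientAddGroup.map` or `Submodule.Quotient` by hand:
`hmk (f x)`; injective and surjective by `IsQI`), semilinear by `hl`; Eeq in every degree; `Subsingleton`
transfers. -/
def S_EZs : Prop :=
  ∀ (R R' : Type) [CommRing R] [CommRing R'] (σ : R →+* R') (hσ : Function.Surjective σ)
    (T : GC R) (T' : GC R') (f : T.V →+ T'.V) (hf : IsQI T T' f)
    (hl : ∀ i b x, T.Cyc i x → T'.Bdy i (f (b • x) - σ b • f x)) (L : Type) [Field L] (ε : R' →+* L),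
    EZ (ε.comp σ) T ↔ EZ ε T'

/-- **EZU** (from Eeq).  `EZ` of a finite model `U` and of the big complex `T`.
Proof: as EZs with `σ = id`; `(HBx.gc U).H i ≃+ Hi T i`, `[x] ↦ [F.f i x]`; `HBx.GC.Z` is the kernel of
`U.d i (i - 1)` (so `U.Cyc i x`: for `j + 1 ≠ i` use `U.shape`), `HBx.GC.B` the range of
`U.d (i + 1) i`. -/
def S_EZU : Prop :=
  ∀ (R : Type) [CommRing R] (U : ZCx R) (T : GC R) (F : FMap U T) (hF : F.QI) (L : Type) [Field L]
    (ε : R →+* L), HBx.GC.EZ ε (HBx.gc U) ↔ EZ ε T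

/-- **EZfin.** The homology of a perfect complex over a noetherian ring is finitely generated and
bounded.
Proof: `U` with `F : FMap U T`, `F.QI`: the linear map `ker (U.d i (i-1)) → Hi T i`, `x ↦ [F.f i x]`, is
onto, and the kernel is a submodule of the noetherian module `U.P i`; for `|i| > U.N` the module `U.P i`
is trivial. -/
def S_EZfin : Prop :=
  ∀ (R : Type) [CommRing R] [IsNoetherianRing R] (T : GC R) (hT : T.Perf),
    (∀ i, Module.Finite R (Hi T i)) ∧ ∃ N : ℕ, ∀ i : ℤ, (N : ℤ) < |i| → Subsingleton (Hi T i)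

/-- **EZt.** The second parameter: `0 → X -a-> X -b-> Y → 0` exact and `a = 0` on homology; then the
Euler characteristic of `Y` is zero.
Proof: (i) `H_i(b) : Hi X i → Hi Y i` is injective: if `b x = d y'` with `x` a cycle, `y' = b y`
(`sur`), then `b (x - d y) = 0`, `x - d y = a w` (`ex`), `a (d w) = d (a w) = 0`, so `d w = 0` (`inj`), `w` is a
cycle and `a w` is a boundary.  (ii) for a cycle `y'` of `Y` in degree `i` choose `y` with `b y = y'`;
`b (d y) = 0`, `d y = a w`, `w` a cycle of degree `i - 1`; `δ [y'] := [w]` is well defined and linear, it is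
onto (`w` a cycle, `a w = d v` for some `v ∈ G i`, `δ [b v] = [w]`), and its kernel is the image of
`H_i(b)` (`w = d u`: `y - a u` is a cycle with `b (y - a u) = y'`).  So `0 → Hi X i → Hi Y i → Hi X (i-1) → 0`
is exact, `Hi X i` is finitely generated (`F` noetherian) and trivial for `|i| > N`.  (iii) `L` is flat:
`hrk (Hi Y i) = hrk (Hi X i) + hrk (Hi X (i - 1))` (`Module.Flat.lTensor_preserves_injective_linearMap`,
`lTensor_exact`, rank-nullity over `L`; the modules are finite dimensional).  (iv) The sum telescopes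
over `Icc (-N) N` to `± hrk (Hi X N) ± hrk (Hi X (-N-1))`; take `N + 1` instead of `N` to make both terms
zero. -/
def S_EZt : Prop :=
  ∀ (F : Type) [CommRing F] [IsNoetherianRing F] (X Y : GC F) (a : X.V →ₗ[F] X.V)
    (b : X.V →ₗ[F] Y.V) (h : SES X X Y a.toAddMonoidHom b.toAddMonoidHom)
    (h0 : ∀ i x, X.Cyc i x → X.Bdy i (a x)) (hfin : ∀ i, Module.Finite F (Hi Y i)) (N : ℕ)
    (hN : ∀ i : ℤ, (N : ℤ) < |i| → Subsingleton (Hi Y i)) (L : Type) [Field L] (ε : F →+* L)
    (hflat : letI := ε.toAlgebra; Module.Flat F L), EZ ε Y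

/-- **FinAB** (from HEp.BSum, HEp.RSfp; also `HS/SpecB.lean`).  The free summands have the same rank.
Proof: let `p` be a prime divisor of `|G|`, `g` an element of order `p`, `C = zpowers g`, `j` the
inclusion.  `RS j (X.P i)` is finitely generated projective over `ℤ[C]` (RSfp); the homotopy of X.PN for
`g` gives `dh0`, `dh` for BSum.  `b i` = the dimension over `𝔽_p` of the homology of
`V_i = HSp.CoV`-coinvariants of `RS j (X.P i)` modulo `p`; then `∑ (-1)^i dim V_i = ∑ (-1)^i b i = 0` (BSum;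
rank-nullity, `V_i = 0` for `i ≥ 2 K`).  Coinvariants modulo `p` for `C` of both sides of the isomorphism:
`∑_j dim V_(2j) + a |G| / p = ∑_j dim V_(2j+1) + b |G| / p`.  Hence `a = b`.
(Another proof: traces.  `V_i = X.P i / p`, `σ = g - 1`; on `H_*(V / σ V)` the operators `h` and `δ`
(`d x = σ y`, `δ [x] = [y]`) satisfy `δ h + h δ = 1`, so the even and the odd part have the same dimension.) -/
def S_FinAB : Prop :=
  ∀ (G : Type) [CommGroup G] [Finite G] (hG : 1 < Nat.card G) (X : HPx.AX G) (hN : X.PN) (K : ℕ)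
    (hK : ∀ i, 2 * K ≤ i → Subsingleton (X.P i)) (a b : ℕ)
    (e : Nonempty (((∀ j : Fin K, X.P (2 * j)) × (Fin a → ZG G)) ≃ₗ[ZG G]
      ((∀ j : Fin K, X.P (2 * j + 1)) × (Fin b → ZG G)))), a = b

/-- **AXZ.** The complex of an `AX` as a `ZCx`.  Proof: `HEp.ofNat` with `d i j = X.d j` transported if
`j + 1 = i` and `0` otherwise (compare `HE/HEtop.lean`, where ECN is used); ECN with `n = 1`
(`(Fin 1 → M) ≃ M`). -/
def S_AXZ : Prop :=
  ∀ (G : Type) [CommGroup G] (X : HPx.AX G) (K : ℕ)
    (hK : ∀ i, 2 * K ≤ i → Subsingleton (X.P i)),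
    ∃ (U : ZCx (ZG G)) (e : ∀ i : ℕ, U.P i ≃ₗ[ZG G] X.P i),
      (∀ (i : ℕ) (x : U.P ((i + 1 : ℕ) : ℤ)), e i (U.d ((i + 1 : ℕ) : ℤ) i x) =
        X.d i (e (i + 1) x)) ∧
      (∀ i : ℤ, i < 0 → Subsingleton (U.P i)) ∧
      (U.EC = 0 → ∃ a b : ℕ, Nonempty (((∀ j : Fin K, X.P (2 * j)) × (Fin a → ZG G)) ≃ₗ[ZG G]
        ((∀ j : Fin K, X.P (2 * j + 1)) × (Fin b → ZG G))))

end HAx
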