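import Pool.Agent.Lib.MP_181146_gt.HA.SpecA
import Pool.Agent.Lib.MP_181146_gt.HB.SpecB

/-!
# Project HA (part A: bookkeeping), second specification: homology of telescopes

Every statement is a separate task; the proof of each is in the docstring.
-/

set_option linter.unusedVariables false
set_option autoImplicit false

namespace HAx

open scoped TensorProduct
open HEp HRx HBy

section

variable {R : Type} [CommRing R]

/-- The endomorphism of the homology induced by a chain endomorphism. -/
noncomputable def hE {T : GC R} (E : En T) (i : ℤ) : Module.End R (Hi T i) :=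
  (Bi T i).mapQ (Bi T i)
    (LinearMap.codRestrict (Zi T i) (E.e ∘ₗ (Zi T i).subtype) (fun x => by
      obtain ⟨h1, h2⟩ := (mem_Zi T i x).1 x.2
      refine (mem_Zi T i _).2 ⟨E.he i _ h1, ?_⟩
      change T.d (E.e x) = 0
      rw [← E.hed, h2, map_zero]))
    (by
      intro x hx
      obtain ⟨y, hy, hxy⟩ := (mem_Bi T i x).1 hx
      refine (mem_Bi T i _).2 ⟨E.e y, E.he _ _ hy, ?_⟩
      change T.d (E.e y) = E.e x
      rw [← E.hed, hxy])

lemma hE_hmk {T : GC R} (E : En T) (i : ℤ) (x y : Zi T i) (h : (y : T.V) = E.e x) :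
    hE E i (hmk T i x) = hmk T i y := by
  change (Bi T i).mapQ (Bi T i) _ _ (Submodule.Quotient.mk x) = Submodule.Quotient.mk y
  rw [Submodule.mapQ_apply]
  congr 1
  exact Subtype.ext h.symm

end

/-- **TelD** (from HBy.TelC).  The homology of the telescope is the direct limit of the homology.
Proof: the map `(ℕ →₀ Hi T i) → Hi (tel E) i`, `single n [x] ↦ [tj E n x]` (`Finsupp.lsum`), is well defined
and kills the relations of `DL` (last part of TelC), so it factors through `DL (hE E i)`
(`Submodule.liftQ`, `HBx.dlRel`).  It is onto (second part of TelC) and injective: an element of `DL` is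
`dlj n h` (`HBx.dl_ind`), `h = [x]`; if `[tj E n x] = 0` then `E^k x` is a boundary (third part), so
`dlj n h = dlj (n + k) (hE^k h) = 0` (`HBx.dlj_succ`). -/
def S_TelD : Prop :=
  ∀ (R : Type) [CommRing R] (T : GC R) (E : En T) (i : ℤ),
    ∃ φ : HBx.DL (hE E i) ≃ₗ[R] Hi (tel E) i, ∀ (n : ℕ) (x : Zi T i) (y : Zi (tel E) i),
      (y : (tel E).V) = tj E n x → φ (HBx.dlj (hE E i) n (hmk T i x)) = hmk (tel E) i y

/-- **EZh** (from TelD, Eeq).  `EZ` of telescopes under a quasi-isomorphism `f` which is semilinear and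
commutes with the endomorphisms on the level of homology.
Proof: `f` induces `Hi T i ≃+ Hi T' i` (as in EZs), semilinear along `σ`, commuting with `hE`; hence
`DL (hE E i) ≃+ DL (hE E' i)`, semilinear (`dlj n h ↦ dlj n (f_* h)`; well defined and bijective:
`Finsupp.mapRange` on `ℕ →₀ _` maps `dlRel` onto `dlRel`; or use `HBx.dl_ind` and
`dlj n h = 0 ↔ ∃ k, hE^k h = 0`).  TelD on both sides, then Eeq in every degree. -/
def S_EZh : Prop :=
  ∀ (R R' : Type) [CommRing R] [CommRing R'] (σ : R →+* R') (hσ : Function.Surjective σ)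
    (T : GC R) (T' : GC R') (E : En T) (E' : En T') (f : T.V →+ T'.V) (hf : IsQI T T' f)
    (hl : ∀ i b x, T.Cyc i x → T'.Bdy i (f (b • x) - σ b • f x))
    (hc : ∀ i x, T.Cyc i x → T'.Bdy i (f (E.e x) - E'.e (f x))) (L : Type) [Field L] (ε : R' →+* L),
    EZ (ε.comp σ) (tel E) ↔ EZ ε (tel E')

/-- **Kt** (from HBy.TelC).  An operator `a` which commutes with the endomorphism and is zero on the
homology of `T` is zero on the homology of the telescope.
Proof: a cycle `t` of `tel E` is `tj E n x + d u` with `x` a cycle; `tm E E a t = tj E n (a x) + d (tm E E a u)`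
(`tm` commutes with `d`: formula `tel_d`), and `a x = d y` gives `tj E n (a x) = d (tj E n y)`. -/
def S_Kt : Prop :=
  ∀ (R : Type) [CommRing R] (T : GC R) (E : En T) (a : T.V →+ T.V) (ha : IsCh T T a)
    (hc : ∀ x, a (E.e x) = E.e (a x)) (h0 : ∀ i x, T.Cyc i x → T.Bdy i (a x)) (i : ℤ)
    (t : (tel E).V), (tel E).Cyc i t → (tel E).Bdy i (tm E E a t)

/-- **RsF.** The group ring over `F` is free over the integral group ring.
Proof: a basis `e_1, .., e_n` of `F` over `ℤ` (`Module.Free.chooseBasis`, `finBasis`), `x = ∑_g x_g g`,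
`b x l = ∑_g (coordinate l of x_g) g`.  (`Finsupp`/`MonoidAlgebra.coeff`; or
`MonoidAlgebra F G ≃ F ⊗ ZG G`.)  It is enough to check `b (ρ a * x) = a • b x` for `a = g`, `a = n`. -/
def S_RsF : Prop :=
  ∀ (F : Type) [CommRing F] [Module.Finite ℤ F] [Module.Free ℤ F] (G : Type) [CommGroup G],
    ∃ (n : ℕ) (b : MonoidAlgebra F G ≃+ (Fin n → ZG G)),
      ∀ (a : ZG G) (x : MonoidAlgebra F G),
        b (MonoidAlgebra.mapRangeRingHom G (algebraMap ℤ F) a * x) = a • b x

/-- **EZ2** (from EZt, EZfin, Kt, HBy.TelX).  The second parameter, for telescopes.  `X`, `Y` are complexes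
over the noetherian ring `F`; `E`, `E'` are their endomorphisms.
Proof: TelX gives the exact sequence of telescopes with the maps `tm E E a`, `tm E E' b`; they are
`F`-linear; `tm E E a` is zero on homology (Kt); EZt. -/
def S_EZ2 : Prop :=
  ∀ (F : Type) [CommRing F] [IsNoetherianRing F] (X Y : GC F) (E : En X) (E' : En Y)
    (a : X.V →ₗ[F] X.V) (b : X.V →ₗ[F] Y.V) (h : SES X X Y a.toAddMonoidHom b.toAddMonoidHom)
    (ha : ∀ x, a (E.e x) = E.e (a x)) (hb : ∀ x, b (E.e x) = E'.e (b x))
    (h0 : ∀ i x, X.Cyc i x → X.Bdy i (a x)) (hfin : ∀ i, Module.Finite F (Hi (tel E') i)) (N : ℕ)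
    (hN : ∀ i : ℤ, (N : ℤ) < |i| → Subsingleton (Hi (tel E') i)) (L : Type) [Field L] (ε : F →+* L)
    (hflat : letI := ε.toAlgebra; Module.Flat F L), EZ ε (tel E')

end HAx
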