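import Pool.Agent.Lib.MP_181146_gt.HA.SpecA2
import Pool.Agent.Lib.MP_181146_gt.HH.SpecZ

/-!
# Project HA (part A: bookkeeping), third specification: Theorem H for telescopes
-/

set_option linter.unusedVariables false
set_option autoImplicit false

namespace HAx

open scoped TensorProduct
open HEp HRx HBy

/-- **One** (from HHx.ZMain, HBy.TelX, HBy.ECt, HBy.Red, Kt, EZU).  Theorem H for the telescope of a
big complex `T` over `S` and its reduction `Tb` modulo `s`. -/
def S_One : Prop :=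
  ∀ (F G S : Type) [CommRing F] [CommGroup G] [CommRing S] (s : S) (φ : S →+* MonoidAlgebra F G)
    (hg : HHx.Good s φ) (u : G → S) (hu : ∀ g, φ (u g) = MonoidAlgebra.of F G g)
    (T : GC S) (E : En T) (hF : E.Fit) (hP : T.Perf) (Tb : GC (MonoidAlgebra F G)) (Eb : En Tb)
    (c : T.V →+ Tb.V) (hc : ∀ (a : S) x, c (a • x) = φ a • c x) (hx : SES T T Tb (smE s T) c)
    (hcE : ∀ x, c (E.e x) = Eb.e (c x)) (hs : ∀ i x, T.Cyc i x → T.Bdy i (s • x))
    (hug : ∀ g i x, T.Cyc i x → T.Bdy i (u g • x - x))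
    (hEZ : ∀ (L : Type) [Field L] [CharZero L] (e : F →+* L),
      EZ (e.comp ((HHx.augF F G).comp φ)) (tel E)),
    (tel Eb).HasEC 0

end HAx
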