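import Pool.Agent.Lib.MP_181146_gt.HA.SpecA3

/-!
# Project HA (part A: bookkeeping), fourth specification: changes of rings

Every statement is a separate task; the proof of each is in the docstring.
-/

set_option linter.unusedVariables false
set_option autoImplicit false

namespace HAx

open scoped TensorProduct
open HEp HRx HBy

/-- **EZf** (from Eeq).  Finiteness and vanishing of the homology under semilinear quasi-isomorphisms.
Proof: as in `HA/EZs.lean`: `Hi T i ≃+ Hi T' i`, semilinear along `σ`; the first part of Eeq (with `L = ℚ`-free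
use of `Module.Finite R M ↔ Module.Finite R' M'`: prove it directly, generators go to generators, `σ` is
onto). -/
def S_EZf : Prop :=
  ∀ (R R' : Type) [CommRing R] [CommRing R'] (σ : R →+* R') (hσ : Function.Surjective σ)
    (T : GC R) (T' : GC R') (f : T.V →+ T'.V) (hf : IsQI T T' f)
    (hl : ∀ i b x, T.Cyc i x → T'.Bdy i (f (b • x) - σ b • f x)) (i : ℤ),
    (Module.Finite R (Hi T i) ↔ Module.Finite R' (Hi T' i)) ∧
    (Subsingleton (Hi T i) ↔ Subsingleton (Hi T' i))

/-- The inclusion of `F` into the twisted group ring. -/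
noncomputable def twI {F G : Type} [CommRing F] [CommGroup G] (c : HHx.Cocy F G) : F →+* HHx.TW c :=
  (algebraMap (PowerSeries F) (HHx.TW c)).comp (PowerSeries.C (R := F))

/-- The augmentation of the twisted group ring. -/
noncomputable def twA {F G : Type} [CommRing F] [CommGroup G] (c : HHx.Cocy F G) : HHx.TW c →+* F :=
  (HHx.augF F G).comp (HHx.TW.phi c)

/-- **AugT.** If `s` and all `u_g - 1` are zero on the homology then `TW c` acts on the homology through
its augmentation `twA`, and `twA` is a section of `twI`.
Proof: `HHx.TW.ind`: `sg g f = f • u_g`; `f • u_g x ~ f • x` (`u_g x - x` is a boundary, `f •` of a boundary is a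
boundary), `f = C f_0 + X f'` (`PowerSeries`: `f - C (constantCoeff f)` is divisible by `X`,
`PowerSeries.X_dvd_iff`), `s (f' x)` is a boundary.  `twA (sg g f) = f_0` (`TW.phi_sg`, `augF` of a `single`). -/
def S_AugT : Prop :=
  ∀ (F G : Type) [CommRing F] [CommGroup G] (c : HHx.Cocy F G) (T : GC (HHx.TW c))
    (hs : ∀ i x, T.Cyc i x → T.Bdy i (HHx.TW.s c • x))
    (hu : ∀ g i x, T.Cyc i x → T.Bdy i (HHx.TW.u c g • x - x)),
    (∀ b i x, T.Cyc i x → T.Bdy i (b • x - twI c (twA c b) • x)) ∧ ∀ r, twA c (twI c r) = r

/-- **FlatL.** A field `L` of characteristic zero is flat over `F`.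
Proof.  `𝔭 = ker e` is a prime ideal with `𝔭 ∩ ℤ = 0`.  It is a minimal prime: `F` is integral over `ℤ`, a prime
`𝔮 < 𝔭` would have the same contraction `0` (incomparability,
`Ideal.comap_lt_comap_of_integral_mem_sdiff` or similar).  So `F_𝔭` (`Localization.AtPrime`) has exactly one prime ideal,
and it is reduced: its maximal ideal is the nilradical, `0`; `F_𝔭` is a field.  `L` is a vector space over the
field `F_𝔭` (elements outside `𝔭` go to units of `L`: `IsLocalization.lift`), so free and flat; `F_𝔭` is flat over `F`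
(`IsLocalization.flat`); `Module.Flat.trans`. -/
def S_FlatL : Prop :=
  ∀ (F : Type) [CommRing F] [IsReduced F] [Module.Finite ℤ F] (L : Type) [Field L] [CharZero L]
    (e : F →+* L), letI := e.toAlgebra; Module.Flat F L

/-- **RstT** (from HBy.Rst, RsF).  Restriction from `F[G]` to `ℤ[G]`. -/
def S_RstT : Prop :=
  ∀ (F : Type) [CommRing F] [Module.Finite ℤ F] [Module.Free ℤ F] (G : Type) [CommGroup G]
    (T : GC (MonoidAlgebra F G)) (T' : GC (ZG G)) (q : T'.V →+ T.V)
    (hq : ∀ (a : ZG G) x, q (a • x) = MonoidAlgebra.mapRangeRingHom G (algebraMap ℤ F) a • q x)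
    (h : IsQI T' T q), T.HasEC 0 → T'.HasEC 0

end HAx
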