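import Pool.Agent.Lib.MP_181146_gt.HA.DefsA2
import Pool.Agent.Lib.MP_181146_gt.HM.DefsE

/-!
# Project HA (part A), specification E: power series coefficients

Every statement is a separate task; the proof of each is in the docstring.
-/

set_option linter.unusedVariables false
set_option autoImplicit false

noncomputable section

namespace HAx

open HMx

/-- The matrix `r`, as constant power series. -/
def rC {F : Type} [CommRing F] {m : ℕ} (r : Fin m → Fin m → F) (a l : Fin m) : PowerSeries F :=
  PowerSeries.C (r a l)

/-- **EvH.** The operators `p(Y)` commute with morphisms.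
Proof: `e` commutes with `Yt i`, so with `pw s` (`List.ofFn` product; induction on the list, powers by
induction), and with sums and integer multiples. -/
def S_EvH : Prop :=
  ∀ (m : ℕ) (D D' : DM ℤ m) (e : DM.Hom D D') (p : MvPolynomial (Fin m) ℤ) (x : ∀ j, D.D j) (j : ℕ),
    e.f j (D.ev p x j) = D'.ev p (fun j => e.f j (x j)) j

/-- **KLp** (from EvH).  If the norm form acts as zero on the functions with values in `F` then it acts
as zero on the functions with values in `F⟦X⟧` (with constant coefficients `r`).
Proof: for every `n` the map `u ↦ (β ↦ coeff n (u β))` is a morphism from the second module to the first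
(`coeff n (C a * x) = a * coeff n x`; `fn`: a nonzero coefficient gives a nonzero value); EvH gives
`coeff n (ev p x) = ev p (coeff n x) = 0` for all `n`, so `ev p x = 0`. -/
def S_KLp : Prop :=
  ∀ (F : Type) [CommRing F] (m c : ℕ) (r : Fin m → Fin m → F) (S : Finset (Fin m))
    (f : Polynomial ℤ), DM.KL f (DSt F m c r S).toZ → DM.KL f (DSt (PowerSeries F) m c (rC r) S).toZ

/-- **PSx.** Reduction modulo `X` of the modules of functions with values in the power series.
Proof.  `a`: multiplication by `X`; `b`: `u ↦ (β ↦ constantCoeff (u β))` (`constantCoeff (C a * x) =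
a * constantCoeff x`).  Exact: `u` with `constantCoeff (u β) = 0` for all `β` is `X • u'`
(`PowerSeries.X_dvd_iff`; choose `u' β = 0` if `u β = 0`, so that `u' ∈ fn`).  Onto: constant power
series. -/
def S_PSx : Prop :=
  ∀ (F : Type) [CommRing F] (m c : ℕ) (r : Fin m → Fin m → F) (S : Finset (Fin m)),
    ∃ (a : DM.Hom (DSt (PowerSeries F) m c (rC r) S) (DSt (PowerSeries F) m c (rC r) S))
      (b : DM.Hom (DSt (PowerSeries F) m c (rC r) S) (DSt F m c r S)), DM.Ex a b ∧
      (∀ j x, a.f j x = (PowerSeries.X : PowerSeries F) • x) ∧
      (∀ j (x : (DSt (PowerSeries F) m c (rC r) S).D j) β,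
        (show fn F m S j from b.f j x).1 β =
          PowerSeries.constantCoeff ((show fn (PowerSeries F) m S j from x).1 β)) ∧
      ∀ j (g : PowerSeries F) x, b.f j (g • x) = PowerSeries.constantCoeff g • b.f j x

end HAx
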