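import Pool.Agent.Lib.MP_181146_gt.HA.DefsP
import Pool.Agent.Lib.MP_181146_gt.HT.SpecT

/-!
# Project HA (part A), specification P: the chains of `E` are perfect

Every statement is a separate task; the proof of each is in the docstring.
-/

set_option linter.unusedVariables false
set_option autoImplicit false

namespace HAx

open scoped TensorProduct
open HEp HPx HRx HBy

/-- **PZ.** The complex `X` is a model of the chains of `E`, over the integral group ring.
Proof.  `U`: `HEp.ofNat` applied to `X.P` with `d i j` the transported `X.d j` if `j + 1 = i` and `0`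
otherwise; the last part is HEp.ECN with `n = 1` (all this is done in `HA/AXZ.lean`: `sAXZ`; copy it or take
`S_AXZ` as a hypothesis and use its `U`, `e`).  `F.f i = Λ.f i ∘ e i` for `i ≥ 0` and `0` for `i < 0`; it is linear over
the group ring by `Λ.fg` (additive, `MonoidAlgebra` induction, `gcI_of`), `fG` by `Λ.f_gr`, `fd` by `Λ.fd`.
QI: let `x` be a cycle of degree `i` with `f x = bd y`, `y ∈ G (i + 1)`: `x = f' (f x) - d (h x) - h (d x) = d (f' y - h x)`
(`Λ.h0`, `Λ.hs`, `Λ.f'd`).  If `c ∈ G i` is a cycle then `f (f' c) - c = bd (t c)` (`Λ.ht`), `f' c` is a cycle (for `i = 0`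
there is nothing to show).  Degrees `i < 0`: `G i` is trivial. -/
def S_PZ : Prop :=
  ∀ (G : Type) [CommGroup G] (E : Type) [TopologicalSpace E] (act : G → C(E, E)) (X : AX G) (K : ℕ)
    (hK : ∀ i, 2 * K ≤ i → Subsingleton (X.P i)) (Λ : HTx.LT X E act)
    (α : G → SSHom (Sing E) (Sing E)) (h0 : ∀ g, α g = SingMap (act g))
    (h1 : α 1 = SSHom.id (Sing E)) (hα : ∀ a b, α (a * b) = (α a).comp (α b)),
    ∃ (U : ZCx (ZG G)) (F : FMap U (gcG (CF (Sing E) ℤ) (cfA ℤ α h1 hα))), F.QI ∧
      (U.EC = 0 → ∃ a b : ℕ, Nonempty (((∀ j : Fin K, X.P (2 * j)) × (Fin a → ZG G)) ≃ₗ[ZG G]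
        ((∀ j : Fin K, X.P (2 * j + 1)) × (Fin b → ZG G))))

/-- **PF.** The chains of `E` with values in `F` are perfect over the group ring `F[G]`.
Proof.  `U.P i = F[G] ⊗_(ℤ[G]) X.P i` (`MonoidAlgebra F G` is an algebra over `ZG G` through
`MonoidAlgebra.mapRingHom`; `LinearMap.baseChange`; finite and projective: `Module.Finite.base_change`,
`Module.Projective.tensorProduct`-type instances), as a `ZCx` (`HEp.ofNat`, bounded by `2 K`).
`F.f i (a ⊗ x) = a • ι (Λ.f i x)`, `ι : Ch ℤ → Ch F` the map of coefficients (`Finsupp.mapRange`; it commutes with `bd`,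
`cmap`).  QI by the homotopies: `f'_F : Ch F → U.P i`, `single σ r ↦ r • (1 ⊗ f' (single σ 1))` (`Finsupp.lsum`, linear over
`F`; commutes with the differentials: check on `single σ 1`), `h_F = ` base change of `Λ.h` (linear over `ℤ[G]` by
`Λ.hg`), `t_F : Ch F → Ch F`, `single σ r ↦ r • ι (t (single σ 1))`.  Then `f'_F f_F - 1 = d h_F + h_F d` (check on `a ⊗ x`;
`f'_F (a • c) = a • f'_F c` for `a ∈ F[G]` by `Λ.f'g`), `f_F f'_F - 1 = bd t_F + t_F bd` (check on `single σ 1`, `Λ.ht`).
Conclude as in PZ. -/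
def S_PF : Prop :=
  ∀ (F : Type) [CommRing F] (G : Type) [CommGroup G] (E : Type) [TopologicalSpace E]
    (act : G → C(E, E)) (X : AX G) (K : ℕ) (hK : ∀ i, 2 * K ≤ i → Subsingleton (X.P i))
    (Λ : HTx.LT X E act) (α : G → SSHom (Sing E) (Sing E)) (h0 : ∀ g, α g = SingMap (act g))
    (h1 : α 1 = SSHom.id (Sing E)) (hα : ∀ a b, α (a * b) = (α a).comp (α b)),
    (gcG (CF (Sing E) F) (cfA F α h1 hα)).Perf

end HAx
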