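import Pool.Agent.Lib.MP_181146_gt.HR.DefsQ
import Pool.Agent.Lib.MP_181146_gt.HA.SpecP
import Pool.Agent.Lib.MP_181146_gt.HA.DefsA2
import Pool.Agent.Lib.MP_181146_gt.HA.SpecA5
import Pool.Agent.Lib.MP_181146_gt.HV.SpecV2
import Pool.Agent.Lib.MP_181146_gt.HX.SpecY

/-!
# Project HA (part A), specification G: the geometric data

`GDG g X K`: all properties of the geometric data `g` used in the final assembly.
-/

set_option linter.unusedVariables false
set_option autoImplicit false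

noncomputable section

namespace HAx

open HEp HPx HRx HBy

/-- The properties of the geometric data `g` used in the final assembly. -/
structure GDG {G : Type} [CommGroup G] (g : GD G) (X : AX G) (K : ℕ) : Prop where
  /-- the chains have a finite model over the integral group ring, related to `X` -/
  perfZ : ∃ (U : ZCx (ZG G)) (F : FMap U (gcG (CF g.K ℤ) (cfA ℤ g.al g.al1 g.alm))), F.QI ∧
    (U.EC = 0 → ∃ a b : ℕ, Nonempty (((∀ j : Fin K, X.P (2 * j)) × (Fin a → ZG G)) ≃ₗ[ZG G]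
      ((∀ j : Fin K, X.P (2 * j + 1)) × (Fin b → ZG G))))
  /-- the chains with values in `F` are perfect over `F[G]` -/
  perfF : ∀ (F : Type) [CommRing F], (gcG (CF g.K F) (cfA F g.al g.al1 g.alm)).Perf
  /-- the Euler characteristic of the telescope of `y ↦ v0 ∩ a y` on the chains with values in `F` -/
  ez : ∀ (F : Type) [CommRing F] [Module.Free ℤ F] [Module.Finite ℤ F] (L : Type) [Field L]
    [CharZero L] (ε : F →+* L) (E1 : En (CF g.K F)),
    (∀ y : ChN g.K F, E1.e y = (opN F (cap g.v0 ∘ₗ g.a) : ChN g.K F →ₗ[F] ChN g.K F) y) →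
    EZ ε (tel E1)
  /-- the number of circles is the degree of the norm form -/
  mw : g.m = g.w
  m1 : 1 < g.m
  kap : ∃ p : MvPolynomial (Fin g.m) ℤ, g.κ = kcf p ∧
    ((∃ q j : ℕ, q.Prime ∧ 1 ≤ j ∧ g.m = q ^ j ∧
      p = HMx.kapP (Polynomial.X ^ g.m - Polynomial.C (q : ℤ)) g.m) ∨ p = 0)

/-- **GDx** (from HVx.VF, PZ, PF, HXx.XChY, BcX, the homotopies of part T / helper83's `htp_act`, RelV).  The
geometric data exist in the situation of `HTx.S_CoreX`. -/
def S_GDx : Prop :=
  ∀ (e : ∀ p q : ℕ, Ch ℤ ((De p).prod (De q))) (he : HEp.EZ e) (G : Type) [CommGroup G] [Finite G]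
    (hG : ∀ q : ℕ, q.Prime → IsPGroup q G → ¬ IsCyclic G) (E : Type) [TopologicalSpace E]
    [PathConnectedSpace E] (D : HTx.Mlt G E)
    (X : AX G) (K : ℕ) (hK : ∀ i, 2 * K ≤ i → Subsingleton (X.P i)) (hN : X.PN)
    (Λ : HTx.LT X E D.act) (n : ℕ) (hn : Odd n) (hn1 : 1 < n) (hX : X.Ac n) (hE : AcE E (vtx D.v) n)
    (Q : HTx.Cl E D.v n), ∃ g : GD G, GDG g X K

end HAx
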