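import Pool.Agent.Lib.MP_181146_gt.HA.PC2
import Pool.Agent.Lib.MP_181146_gt.HA.SpecG
import Pool.Agent.Lib.MP_181146_gt.HB.Cl0

/-!
# Project HA (part A), specification F: the inputs of the final assembly from part R
-/

set_option linter.unusedVariables false
set_option autoImplicit false

noncomputable section

namespace HAx

open HEp HPx HRx HBy

/-- The functions on all exponents with values in `F`, `m` variables. -/
abbrev DU (F : Type) [CommRing F] (m : ℕ) : HRx.DM F := toR (HMx.DSt F m 0 (fun _ _ => 0) ∅)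

/-- `κ(Y) = 0` on the modules for one `c`. -/
structure KoC {G : Type} [CommGroup G] (g : GD G) {F : Type} [CommRing F] (c : ℕ)
    (r : Fin g.m → Fin g.m → F) : Prop where
  kS : Ko (DX g c r).tY g.b (rv g.m) g.m g.κ = 0
  kD : Ko (toR (HMx.DSt F g.m c r (HMx.Lt g.m c))).tY g.b (rv g.m) g.m g.κ = 0
  kZ : Ko (toR (HMx.DSt F g.m c r (HMx.Lt g.m c)).toZ).tY g.b (rv g.m) g.m g.κ = 0

/-- **IoF** (helper19, R4).  The case `c = 1`: the chains of `K` with values in `F`. -/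
def S_IoF : Prop :=
  ∀ (G : Type) [CommGroup G] (g : GD G) (F : Type) [CommRing F] (r : Fin g.m → Fin g.m → F)
    (hm : 0 < g.m) (kc : KoC g 1 r) (o : TOK g (zDc g 1 r hm) (zX_cc _) (DX g 1 r)),
    ∃ (E1 : En (CF g.K F)) (ι : (CF g.K F).V →+ (TG g o).V),
      (∀ (t : F) x, ι (t • x) = twI (cc0 g (zDc g 1 r hm) (zX_cc _)) t • ι x) ∧
      IsQI (CF g.K F) (TG g o) ι ∧ (∀ x, ι (E1.e x) = (cE (TC g o)).e (ι x)) ∧
      ∀ y : ChN g.K F, E1.e y = (opN F (cap g.v0 ∘ₗ g.a) : ChN g.K F →ₗ[F] ChN g.K F) y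

/-- **PfT** (helper19, PERF).  The complex over the twisted group ring is perfect. -/
def S_PfT : Prop :=
  ∀ (G : Type) [CommGroup G] (g : GD G) (F : Type) [CommRing F] [Module.Finite ℤ F]
    [Module.Free ℤ F] [IsReduced F] [Finite G]
    (hP : (gcG (CF g.K F) (cfA F g.al g.al1 g.alm)).Perf) (c : ℕ) (r : Fin g.m → Fin g.m → F)
    (hm : 0 < g.m) (hc : 1 ≤ c) (kc : KoC g c r)
    (o : TOK g (zDc g c r hm) (zX_cc _) (DX g c r)), (TG g o).Perf

/-- **R5** (helper83).  The class of the telescope for the functions killed by the norm form. -/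
def S_R5 : Prop :=
  ∀ (G : Type) [CommGroup G] (g : GD G) (U : ZCx (ZG G))
    (u : FMap U (gcG (CF g.K ℤ) (cfA ℤ g.al g.al1 g.alm))) (hu : u.QI) (f : Polynomial ℤ)
    (hf : f.Monic) (hd : f.natDegree = g.m) (hh : (HMx.kapP f g.m).IsHomogeneous g.m)
    (mw : g.m = g.w) (hκ : g.κ = kcf (HMx.kapP f g.m)) (o : QOK g (toR (HMx.Dkap f g.m))),
    (tel (cE (QC g _ o))).HasEC U.EC

/-- **R0**.  The class of `Q(ℤ, 1, D)` for the functions on all exponents. -/
def S_R0 : Prop :=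
  ∀ (G : Type) [CommGroup G] (g : GD G) (U : ZCx (ZG G))
    (u : FMap U (gcG (CF g.K ℤ) (cfA ℤ g.al g.al1 g.alm))) (hu : u.QI)
    (o : QOK g (DU ℤ g.m)), (QG g _ o).HasEC U.EC

end HAx
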