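import Pool.Agent.Lib.MP_181146_gt.HA.SpecA2

/-!
# Project HA, module TelD: the homology of the telescope is the direct limit of the homology
-/

set_option autoImplicit false

namespace HAx

open HEp HRx HBy

section

variable {R : Type} [CommRing R] {T : GC R} (E : En T) (i : ℤ)

/-- The map of the cycles. -/
private noncomputable def TelD_z (hc : ∀ n, LCh T (tel E) (tj E n)) (n : ℕ) :
    Zi T i →ₗ[R] Zi (tel E) i :=
  LinearMap.codRestrict (Zi (tel E) i) (tj E n ∘ₗ (Zi T i).subtype) (fun x => by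
    obtain ⟨h1, h2⟩ := (mem_Zi T i x).1 x.2
    refine (mem_Zi (tel E) i _).2 ⟨(hc n).1 i _ h1, ?_⟩
    have h3 : tj E n (T.d x) = (tel E).d (tj E n x) := (hc n).2 x
    change (tel E).d (tj E n x) = 0
    rw [← h3, h2, map_zero])

/-- The map of the homology. -/
private noncomputable def TelD_j (hc : ∀ n, LCh T (tel E) (tj E n)) (n : ℕ) :
    Hi T i →ₗ[R] Hi (tel E) i :=
  (Bi T i).mapQ (Bi (tel E) i) (TelD_z E i hc n) (by
    intro x hx
    obtain ⟨y, hy, hxy⟩ := (mem_Bi T i x).1 hx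
    have h3 : tj E n (T.d y) = (tel E).d (tj E n y) := (hc n).2 y
    refine (mem_Bi (tel E) i _).2 ⟨tj E n y, (hc n).1 _ _ hy, ?_⟩
    change (tel E).d (tj E n y) = tj E n x
    rw [← h3, hxy])

private lemma TelD_jm (hc : ∀ n, LCh T (tel E) (tj E n)) (n : ℕ) (x : Zi T i) :
    TelD_j E i hc n (hmk T i x) = hmk (tel E) i (TelD_z E i hc n x) := rfl

private lemma TelD_hEk (k : ℕ) (x : Zi T i) :
    ∃ y : Zi T i, (y : T.V) = ((E.e : Module.End R T.V) ^ k) x ∧
      ((hE E i) ^ k) (hmk T i x) = hmk T i y := by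
  induction k with
  | zero => exact ⟨x, rfl, rfl⟩
  | succ k ih =>
    obtain ⟨y, hy, hy'⟩ := ih
    obtain ⟨h1, h2⟩ := (mem_Zi T i y).1 y.2
    refine ⟨⟨E.e y, (mem_Zi T i _).2 ⟨E.he i _ h1, ?_⟩⟩, ?_, ?_⟩
    · change T.d (E.e y) = 0
      rw [← E.hed, h2, map_zero]
    · change E.e (y : T.V) = _
      rw [hy, pow_succ', Module.End.mul_apply]
    · rw [pow_succ', Module.End.mul_apply, hy']
      exact hE_hmk E i y _ rfl

private lemma TelD_dlj {M : Type} [AddCommGroup M] [Module R M] (e : Module.End R M) (k n : ℕ)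
    (x : M) : HBx.dlj e (n + k) ((e ^ k) x) = HBx.dlj e n x := by
  induction k generalizing n with
  | zero => rfl
  | succ k ih => rw [pow_succ', Module.End.mul_apply, ← add_assoc, HBx.dlj_succ, ih]

end

theorem sTelD (hTelC : HBy.S_TelC) : S_TelD := by
  intro R _ T E i
  obtain ⟨hc, h2, h3, h4⟩ := hTelC R T E
  have hrel : HBx.dlRel (hE E i) ≤
      LinearMap.ker (Finsupp.lsum R (fun n => TelD_j E i hc n)) := by
    unfold HBx.dlRel
    rw [Submodule.span_le]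
    rintro _ ⟨n, h, rfl⟩
    obtain ⟨x, rfl⟩ := hmk_surj T i h
    obtain ⟨hx1, hx2⟩ := (mem_Zi T i x).1 x.2
    have hy : E.e x ∈ Zi T i := (mem_Zi T i _).2 ⟨E.he i _ hx1, by rw [← E.hed, hx2, map_zero]⟩
    rw [SetLike.mem_coe, LinearMap.mem_ker, map_sub, Finsupp.lsum_single, Finsupp.lsum_single,
      hE_hmk E i x ⟨E.e x, hy⟩ rfl, TelD_jm, TelD_jm, ← map_sub, hmk_eq_zero]
    exact h4 i n x ⟨hx1, hx2⟩
  let φ : HBx.DL (hE E i) →ₗ[R] Hi (tel E) i :=
    (HBx.dlRel (hE E i)).liftQ (Finsupp.lsum R (fun n => TelD_j E i hc n)) hrel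
  have hφ : ∀ (n : ℕ) (x : Zi T i),
      φ (HBx.dlj (hE E i) n (hmk T i x)) = hmk (tel E) i (TelD_z E i hc n x) := by
    intro n x
    change (Finsupp.lsum R (fun n => TelD_j E i hc n)) (Finsupp.single n (hmk T i x)) = _
    rw [Finsupp.lsum_single, TelD_jm]
  have hinj : Function.Injective φ := by
    rw [injective_iff_map_eq_zero]
    intro t ht
    obtain ⟨n, h, rfl⟩ := HBx.dl_ind _ t
    obtain ⟨x, rfl⟩ := hmk_surj T i h
    rw [hφ, hmk_eq_zero] at ht
    obtain ⟨k, hk⟩ := (h3 i n x ((mem_Zi T i x).1 x.2)).1 ht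
    obtain ⟨y, hy, hy'⟩ := TelD_hEk E i k x
    rw [← TelD_dlj (hE E i) k n, hy', (hmk_eq_zero T i y).2 (by rw [hy]; exact hk), map_zero]
  have hsur : Function.Surjective φ := by
    intro t
    obtain ⟨t, rfl⟩ := hmk_surj (tel E) i t
    obtain ⟨n, x, hx, hb⟩ := h2 i t ((mem_Zi (tel E) i t).1 t.2)
    refine ⟨HBx.dlj (hE E i) n (hmk T i ⟨x, (mem_Zi T i x).2 hx⟩), ?_⟩
    rw [hφ]
    symm
    rw [← sub_eq_zero, ← map_sub, hmk_eq_zero]
    exact hb
  refine ⟨LinearEquiv.ofBijective φ ⟨hinj, hsur⟩, ?_⟩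
  intro n x y hy
  change φ (HBx.dlj (hE E i) n (hmk T i x)) = _
  rw [hφ]
  congr 1
  exact Subtype.ext hy.symm

end HAx
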